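import Mathlib
import Pool.Agent.Helper419.KS.Defs

/-!
# Prime divisors, class groups, morphisms and their fibres

These notions are defined for the smooth proper varieties of `Pool.Agent.Helper419.KS.Defs`
(a function field with a finite atlas of affine coordinate rings).
-/

namespace FanoFib

namespace SmoothProperVariety

variable (X : SmoothProperVariety)

/-- The prime divisors on `X`: the prime divisors `E` over `X` whose valuation ring is the local
ring of `X` at a point (necessarily of codimension one).  In some chart `c` every regular function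
has order `≥ 0` along `E`, and every rational function of order `≥ 0` along `E` is a fraction
`a / s` with `a, s` regular on `c` and `s` of order `0` along `E`. -/
def PrimeDiv : Type :=
  {E : X.DivisorOver // ∃ c : X.Chart, (∀ a ∈ X.ring c, 0 ≤ E.v a) ∧
    ∀ f : X.K, 0 ≤ E.v f → ∃ a ∈ X.ring c, ∃ s ∈ X.ring c, E.v s = 0 ∧ f = a / s}

variable {X} in
/-- The order of `f ≠ 0` along a prime divisor is an integer. -/
lemma DivisorOver.exists_int (E : X.DivisorOver) {f : X.K} (hf : f ≠ 0) :
    ∃ n : ℤ, E.v f = (n : WithTop ℤ) := by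
  have h : E.v f ≠ ⊤ := by
    intro h
    have h1 : E.v (f * f⁻¹) = E.v f + E.v f⁻¹ := E.v.map_mul _ _
    rw [mul_inv_cancel₀ hf, E.v.map_one, h, top_add] at h1
    exact absurd h1 (by simp)
  exact ⟨(E.v f).untop h, (WithTop.coe_untop _ h).symm⟩

/-- The principal divisors `div f = ∑ ord_E(f) E`. -/
def principal : AddSubgroup (X.PrimeDiv →₀ ℤ) where
  carrier := {D | ∃ f : X.K, f ≠ 0 ∧ ∀ E : X.PrimeDiv, E.1.v f = ((D E : ℤ) : WithTop ℤ)}
  zero_mem' := ⟨1, one_ne_zero, fun E => by simp [E.1.v.map_one]⟩
  add_mem' := by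
    rintro D D' ⟨f, hf, h⟩ ⟨g, hg, h'⟩
    refine ⟨f * g, mul_ne_zero hf hg, fun E => ?_⟩
    rw [E.1.v.map_mul, h, h']
    simp
  neg_mem' := by
    rintro D ⟨f, hf, h⟩
    refine ⟨f⁻¹, inv_ne_zero hf, fun E => ?_⟩
    obtain ⟨n, hn⟩ := E.1.exists_int (inv_ne_zero hf)
    have h1 : E.1.v (f * f⁻¹) = E.1.v f + E.1.v f⁻¹ := E.1.v.map_mul _ _
    rw [mul_inv_cancel₀ hf, E.1.v.map_one, h, hn] at h1
    have h2 : (0 : ℤ) = D E + n := by exact_mod_cast h1
    rw [hn]
    simp only [Finsupp.coe_neg, Pi.neg_apply]
    congr 1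
    omega

/-- The divisor class group of `X` (isomorphic to the Picard group, as `X` is smooth). -/
abbrev ClassGroup : Type := (X.PrimeDiv →₀ ℤ) ⧸ X.principal

end SmoothProperVariety

variable {X Y : SmoothProperVariety} (φ : Y.K →ₐ[ℂ] X.K)

/-- The rational map `X ⇢ Y` given by the inclusion `φ` of function fields maps the affine piece
`c` of `X` into the affine piece `d` of `Y`. -/
def MapsTo (c : X.Chart) (d : Y.Chart) : Prop := ∀ b ∈ Y.ring d, φ b ∈ X.ring c

/-- The homomorphism of coordinate rings. -/
def chartHom {c : X.Chart} {d : Y.Chart} (h : MapsTo φ c d) : Y.ring d →+* X.ring c :=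
  ((φ.comp (Y.ring d).val).codRestrict (X.ring c) fun b => h b.1 b.2).toRingHom

/-- The coordinate ring of the part in the chart `c` of the (scheme-theoretic) fibre over the point
of `Y` given by the maximal ideal `n` of the coordinate ring of the chart `d`. -/
abbrev FibreRing {c : X.Chart} {d : Y.Chart} (h : MapsTo φ c d) (n : Ideal (Y.ring d)) : Type :=
  X.ring c ⧸ n.map (chartHom φ h)

/-- `f_* O_X = O_Y`: a rational function on `X` that is regular at all points of `X` over the chart
`d` of `Y` is a regular function on `d`.  (The points of `X` are given by the prime ideals `p` of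
the rings of the charts `c`; such a point lies over `d` if all regular functions on `d` are regular
at it.) -/
def DirectImage : Prop :=
  ∀ (d : Y.Chart) (g : X.K),
    (∀ (c : X.Chart) (p : Ideal (X.ring c)), p.IsPrime →
      (∀ b ∈ Y.ring d, φ b ∈ localRing (X.ring c) p) → g ∈ localRing (X.ring c) p) →
    ∃ b ∈ Y.ring d, φ b = g

/-- `φ` gives a Fano conic bundle `f : X → Y`: `X` is a Fano manifold, `f` is a morphism (every
affine piece of `X` is mapped into an affine piece of `Y`), surjective, with `f_* O_X = O_Y`,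
and every fibre has dimension one. -/
structure IsFanoConicBundle : Prop where
  fano : X.IsFano
  dim_le : ∀ c : X.Chart, ∃ (d : Y.Chart) (h : MapsTo φ c d),
    ∀ n : Ideal (Y.ring d), n.IsMaximal → ringKrullDim (FibreRing φ h n) ≤ 1
  dim_eq : ∀ (d : Y.Chart) (n : Ideal (Y.ring d)), n.IsMaximal →
    ∃ (c : X.Chart) (h : MapsTo φ c d), ringKrullDim (FibreRing φ h n) = 1
  directImage : DirectImage φ

/-- Some fibre of the morphism is not reduced. -/
def HasNonreducedFibre : Prop :=
  ∃ (c : X.Chart) (d : Y.Chart) (h : MapsTo φ c d) (n : Ideal (Y.ring d)),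
    n.IsMaximal ∧ ¬ IsReduced (FibreRing φ h n)

end FanoFib
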