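import Pool.Agent.T2h12.FB.Stm

/-!
# Task ACG (helper21)
-/

set_option autoImplicit false

namespace FB

open FanoFib FanoFib.Tor MvPolynomial

namespace ACG

lemma tjac_update (t : Fin 4 → K4) (i : Fin 4) (x : K4) :
    tjac (Function.update t i x) =
      (Matrix.updateRow (Matrix.of fun a j => frame j (t a)) i (fun j => frame j x)).det := by
  unfold tjac
  congr 1
  ext a j
  by_cases h : a = i
  · subst h
    simp
  · simp [h, Matrix.updateRow_ne]

lemma tjac_add (t : Fin 4 → K4) (i : Fin 4) (x y : K4) :
    tjac (Function.update t i (x + y)) =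
      tjac (Function.update t i x) + tjac (Function.update t i y) := by
  rw [tjac_update, tjac_update, tjac_update, ← Matrix.det_updateRow_add]
  congr 2
  funext j
  simp

lemma tjac_mul (t : Fin 4 → K4) (i : Fin 4) (x y : K4) :
    tjac (Function.update t i (x * y)) =
      x * tjac (Function.update t i y) + y * tjac (Function.update t i x) := by
  rw [tjac_update, tjac_update, tjac_update, ← Matrix.det_updateRow_smul,
    ← Matrix.det_updateRow_smul, ← Matrix.det_updateRow_add]
  congr 2
  funext j
  simp [Derivation.leibniz]

lemma tjac_alg (t : Fin 4 → K4) (i : Fin 4) (r : ℂ) :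
    tjac (Function.update t i (algebraMap ℂ K4 r)) = 0 := by
  rw [tjac_update]
  apply Matrix.det_eq_zero_of_row_eq_zero i
  intro j
  simp

lemma base (g : Fin 5 → K4) (w : K4) (hw : ∀ m : Fin 5,
    w * tjac (fun n : Fin 4 => g (m.succAbove n)) ∈ Algebra.adjoin ℂ (Set.range g))
    (f : Fin 4 → Fin 5) :
    w * tjac (fun i => g (f i)) ∈ Algebra.adjoin ℂ (Set.range g) := by
  by_cases hf : Function.Injective f
  · obtain ⟨m, hm⟩ : ∃ m, ∀ i, f i ≠ m := by
      by_contra hcon
      push Not at hcon
      have hs : Function.Surjective f := fun m => hcon m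
      have := Fintype.card_le_of_surjective f hs
      simp at this
    have h1 : ∀ i, ∃ s, m.succAbove s = f i := fun i => Fin.exists_succAbove_eq (hm i)
    choose s hs using h1
    have hinj : Function.Injective s := by
      intro a b hab
      apply hf
      rw [← hs a, ← hs b, hab]
    let σ : Equiv.Perm (Fin 4) := Equiv.ofBijective s (Finite.injective_iff_bijective.1 hinj)
    have h2 : tjac (fun i => g (f i)) =
        ((Equiv.Perm.sign σ : ℤ) : K4) * tjac (fun n : Fin 4 => g (m.succAbove n)) := by
      unfold tjac
      rw [← Matrix.det_permute]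
      congr 1
      ext i j
      simp only [Matrix.of_apply, Matrix.submatrix_apply, id]
      rw [← hs i]
      rfl
    rw [h2, mul_left_comm]
    refine mul_mem ?_ (hw m)
    exact intCast_mem _ _
  · have h3 : ∃ a b, f a = f b ∧ a ≠ b := by
      unfold Function.Injective at hf
      push Not at hf
      exact hf
    obtain ⟨a, b, hab, hne⟩ := h3
    have h4 : tjac (fun i => g (f i)) = 0 := by
      unfold tjac
      apply Matrix.det_zero_of_row_eq hne
      funext j
      simp [hab]
    rw [h4, mul_zero]
    exact zero_mem _

lemma main (g : Fin 5 → K4) (w : K4) (hw : ∀ m : Fin 5,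
    w * tjac (fun n : Fin 4 => g (m.succAbove n)) ∈ Algebra.adjoin ℂ (Set.range g))
    (s : Finset (Fin 4)) : ∀ t : Fin 4 → K4,
    (∀ i ∈ s, t i ∈ Algebra.adjoin ℂ (Set.range g)) → (∀ i, i ∉ s → t i ∈ Set.range g) →
    w * tjac t ∈ Algebra.adjoin ℂ (Set.range g) := by
  induction s using Finset.induction_on with
  | empty =>
    intro t _ ht
    have h1 : ∀ i, ∃ m, g m = t i := fun i => ht i (Finset.notMem_empty i)
    choose f hf using h1
    have h2 : t = fun i => g (f i) := funext fun i => (hf i).symm
    rw [h2]
    exact base g w hw f
  | insert i s hi ih =>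
    intro t ht ht'
    have h1 : t i ∈ Algebra.adjoin ℂ (Set.range g) := ht i (Finset.mem_insert_self i s)
    have h2 : ∀ x, x ∈ Algebra.adjoin ℂ (Set.range g) →
        w * tjac (Function.update t i x) ∈ Algebra.adjoin ℂ (Set.range g) := by
      intro x hx
      induction hx using Algebra.adjoin_induction with
      | mem x hx =>
        apply ih
        · intro j hj
          have hne : j ≠ i := fun h => hi (h ▸ hj)
          rw [Function.update_of_ne hne]
          exact ht j (Finset.mem_insert_of_mem hj)
        · intro j hj
          by_cases hne : j = i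
          · subst hne
            rw [Function.update_self]
            exact hx
          · rw [Function.update_of_ne hne]
            apply ht'
            rw [Finset.mem_insert]
            push Not
            exact ⟨hne, hj⟩
      | algebraMap r =>
        rw [tjac_alg, mul_zero]
        exact zero_mem _
      | add x y _ _ hx hy =>
        rw [tjac_add, mul_add]
        exact add_mem hx hy
      | mul x y hx' hy' hx hy =>
        rw [tjac_mul, mul_add, mul_left_comm, mul_left_comm w y]
        exact add_mem (mul_mem hx' hy) (mul_mem hy' hx)
    have h3 := h2 (t i) h1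
    rwa [Function.update_eq_self] at h3

end ACG

theorem t_ACG : S_ACG := by
  intro g w hw t ht
  exact ACG.main g w hw Finset.univ t (fun i _ => ht i) (fun i hi => absurd (Finset.mem_univ i) hi)

end FB
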