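import Pool.Agent.T2h12.FB.Stm

/-! Project FB, task AIN. -/

set_option autoImplicit false

namespace FB

open FanoFib FanoFib.Tor MvPolynomial

theorem AIN_trdeg : Cardinal.mk (Fin 4) = Algebra.trdeg ℂ K4 := by
  have : Algebra.IsAlgebraic (MvPolynomial (Fin 4) ℂ) K4 := by
    refine ⟨fun f => ?_⟩
    obtain ⟨a, b, hb, rfl⟩ := IsFractionRing.div_surjective (A := MvPolynomial (Fin 4) ℂ) f
    rw [div_eq_mul_inv]
    exact (isAlgebraic_algebraMap a).mul (isAlgebraic_algebraMap b).inv
  have h1 : IsTranscendenceBasis ℂ (algebraMap (MvPolynomial (Fin 4) ℂ) K4 ∘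
      (X : Fin 4 → MvPolynomial (Fin 4) ℂ)) :=
    (IsTranscendenceBasis.mvPolynomial (Fin 4) ℂ).algebraMap_comp
  exact h1.cardinalMk_eq_trdeg

theorem t_AIN (hREL : S_REL) : S_AIN := by
  intro c
  obtain ⟨-, -, hct, hca, hcb, hcs, -, hrel, -, -⟩ := hREL
  have hW : ∀ k, W k ≠ 0 := by
    intro k
    fin_cases k
    · exact one_ne_zero
    · exact hca
    · exact hcb
  obtain ⟨k, j, i⟩ := c
  set R' := Algebra.adjoin ℂ (Set.range (g4 (k, j, i))) with hR'
  have hgen : ∀ m, IsAlgebraic R' (g4 (k, j, i) m) := fun m =>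
    isAlgebraic_algebraMap (⟨_, Algebra.subset_adjoin ⟨m, rfl⟩⟩ : R')
  have hdiv : ∀ x y : K4, IsAlgebraic R' x → IsAlgebraic R' y → IsAlgebraic R' (x / y) := by
    intro x y hx hy
    rw [div_eq_mul_inv]
    exact hx.mul hy.inv
  have hrat : ∀ l, IsAlgebraic R' (W l / W k) := by
    intro l
    by_cases hl : l = k
    · rw [hl, div_self (hW k)]
      exact isAlgebraic_one
    · obtain ⟨m, rfl⟩ := Fin.exists_succAbove_eq hl
      fin_cases m
      · exact hgen 0
      · exact hgen 1
  have hWa : ∀ l, IsAlgebraic R' (W l) := by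
    intro l
    have h1 := hdiv _ _ (hrat l) (hrat 0)
    have h2 : W l / W k / (W 0 / W k) = W l := by
      have h0 : W 0 = 1 := rfl
      rw [h0, div_div_div_cancel_right₀ (hW k), div_one]
    rwa [h2] at h1
  have hcta : IsAlgebraic R' ct := by
    have h1 : IsAlgebraic R' (if j then ct / W k ^ 2 else W k ^ 2 / ct) := hgen 2
    cases j with
    | true =>
      have h2 : IsAlgebraic R' (ct / W k ^ 2) := h1
      have h3 := h2.mul ((hWa k).pow 2)
      rwa [div_mul_cancel₀ _ (pow_ne_zero 2 (hW k))] at h3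
    | false =>
      have h2 : IsAlgebraic R' (W k ^ 2 / ct) := h1
      have h3 := hdiv _ _ ((hWa k).pow 2) h2
      rwa [div_div_cancel₀ (pow_ne_zero 2 (hW k))] at h3
  have hcsa : IsAlgebraic R' cs := by
    have h1 : IsAlgebraic R' (if i then cs / W k else W k / cs) := hgen 3
    cases i with
    | true =>
      have h2 : IsAlgebraic R' (cs / W k) := h1
      have h3 := h2.mul (hWa k)
      rwa [div_mul_cancel₀ _ (hW k)] at h3
    | false =>
      have h2 : IsAlgebraic R' (W k / cs) := h1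
      have h3 := hdiv _ _ (hWa k) h2
      rwa [div_div_cancel₀ (hW k)] at h3
  have hcaa : IsAlgebraic R' ca := hWa 1
  have hcba : IsAlgebraic R' cb := hWa 2
  have hha : IsAlgebraic R' hh := (isAlgebraic_one.add (hcaa.pow 4)).add (hcba.pow 4)
  have h2a : IsAlgebraic R' (2 : K4) := by
    have := (isAlgebraic_one (R := R') (A := K4)).add isAlgebraic_one
    rwa [one_add_one_eq_two] at this
  have hcua : IsAlgebraic R' cu := by
    have h1 : (cu + ct / 2) ^ 2 = (ct / 2) ^ 2 - hh + ct * cs ^ 2 := by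
      linear_combination hrel
    have h2 : IsAlgebraic R' ((cu + ct / 2) ^ 2) := by
      rw [h1]
      exact (((hdiv _ _ hcta h2a).pow 2).sub hha).add (hcta.mul (hcsa.pow 2))
    have h3 : IsAlgebraic R' (cu + ct / 2) := h2.of_pow (by norm_num)
    have h4 := h3.sub (hdiv _ _ hcta h2a)
    rwa [add_sub_cancel_right] at h4
  have hx : ∀ m : Fin 4, IsAlgebraic R' (xx m : K4) := by
    intro m
    fin_cases m
    · exact hcaa
    · exact hcba
    · exact hcsa
    · exact hcua
  have hpoly : ∀ P : MvPolynomial (Fin 4) ℂ,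
      IsAlgebraic R' (algebraMap (MvPolynomial (Fin 4) ℂ) K4 P) := by
    intro P
    induction P using MvPolynomial.induction_on with
    | C a =>
      have h1 : algebraMap (MvPolynomial (Fin 4) ℂ) K4 (C a) = algebraMap R' K4 (algebraMap ℂ R' a) := by
        rw [← IsScalarTower.algebraMap_apply ℂ R' K4]
        exact (IsScalarTower.algebraMap_apply ℂ (MvPolynomial (Fin 4) ℂ) K4 a).symm
      rw [h1]
      exact isAlgebraic_algebraMap _
    | add p q hp hq =>
      rw [map_add]
      exact hp.add hq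
    | mul_X p n hp =>
      rw [map_mul]
      exact hp.mul (hx n)
  have halg : Algebra.IsAlgebraic R' K4 := by
    refine ⟨fun f => ?_⟩
    obtain ⟨a, b, hb, rfl⟩ := IsFractionRing.div_surjective (A := MvPolynomial (Fin 4) ℂ) f
    exact hdiv _ _ (hpoly a) (hpoly b)
  exact (Algebra.IsAlgebraic.isTranscendenceBasis_of_le_trdeg_of_finite ℂ (g4 (k, j, i))
    AIN_trdeg.le).1

end FB
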