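import Mathlib
import Pool.Agent.T2h12.FB.Defs
import Pool.Agent.Helper419.KS.TowerFan

/-!
# Project FB: a Fano conic bundle with relative Picard number two and a non-reduced fibre

`K4 = ℂ(a, b, s, u)`, `hh = 1 + a^4 + b^4`, `ct = -(u^2 + hh) / (u - s^2)`, so that
`u^2 + ct u + hh - ct s^2 = 0`.

`X` is the fourfold `u^2 + y0 p u + h(w) y1^2 p^2 - y0 y1 s^2 = 0`, a conic bundle (coordinates
`p, s, u`) over `Y = P(O + O(2))` over the plane (coordinates `w0, w1, w2` of the plane,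
`y0, y1` of the fibre), `h = w0^4 + w1^4 + w2^4`; in the chart `w0 = y1 = p = 1` one has
`a = w1, b = w2, ct = y0`.  The charts of `X`: `c = (k, j, i)`: `w_k ≠ 0`; `y1 ≠ 0` if `j = true`,
`y0 ≠ 0` if `j = false`; `p ≠ 0` if `i = true`, `s ≠ 0` if `i = false`.
-/

namespace FB

open FanoFib FanoFib.Tor MvPolynomial

abbrev K4 : Type := KK (Fin 4)

noncomputable def ca : K4 := xx 0
noncomputable def cb : K4 := xx 1
noncomputable def cs : K4 := xx 2
noncomputable def cu : K4 := xx 3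
noncomputable def hh : K4 := 1 + ca ^ 4 + cb ^ 4
noncomputable def ct : K4 := -(cu ^ 2 + hh) / (cu - cs ^ 2)
noncomputable def W : Fin 3 → K4 := ![1, ca, cb]

/-- The charts. -/
abbrev Ch : Type := Fin 3 × Bool × Bool

noncomputable def eta (c : Ch) : K4 := if c.2.1 then W c.1 ^ 2 else ct
noncomputable def zeta (c : Ch) : K4 := if c.2.2 then W c.1 else cs
/-- A local generator of `-K_X` up to the factor `kap`. -/
noncomputable def sig (c : Ch) : K4 := W c.1 * eta c * zeta c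

/-- The fifth coordinate. -/
noncomputable def vv (c : Ch) : K4 := cu * W c.1 / (eta c * zeta c)

/-- The five coordinates of the chart. -/
noncomputable def gen (c : Ch) : Fin 5 → K4 :=
  ![W (c.1.succAbove 0) / W c.1, W (c.1.succAbove 1) / W c.1,
    if c.2.1 then ct / W c.1 ^ 2 else W c.1 ^ 2 / ct,
    if c.2.2 then cs / W c.1 else W c.1 / cs, vv c]

/-- The first four coordinates of the chart. -/
noncomputable def g4 (c : Ch) : Fin 4 → K4 := fun m => gen c m.castSucc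

/-- The coordinate ring of the chart. -/
noncomputable def A (c : Ch) : Subalgebra ℂ K4 := Algebra.adjoin ℂ (Set.range (gen c))

lemma gen_mem (c : Ch) (m : Fin 5) : gen c m ∈ A c := Algebra.subset_adjoin ⟨m, rfl⟩

/-- The coordinates as elements of the ring of the chart. -/
noncomputable def gA (c : Ch) (m : Fin 5) : A c := ⟨gen c m, gen_mem c m⟩

/-- `y0 p` in the chart. -/
noncomputable def BB (j i : Bool) : MvPolynomial (Fin 4) ℂ :=
  (if j then X 2 else 1) * (if i then 1 else X 3)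

/-- `h y1^2 p^2 - y0 y1 s^2` in the chart. -/
noncomputable def CC (j i : Bool) : MvPolynomial (Fin 4) ℂ :=
  (1 + X 0 ^ 4 + X 1 ^ 4) * (if j then 1 else X 2) ^ 2 * (if i then 1 else X 3) ^ 2
    - X 2 * (if i then X 3 else 1) ^ 2

/-- The equation of the chart. -/
noncomputable def FF (j i : Bool) : MvPolynomial (Fin 5) ℂ :=
  X 4 ^ 2 + (if j then X 2 else 1) * (if i then 1 else X 3) * X 4 +
    (1 + X 0 ^ 4 + X 1 ^ 4) * (if j then 1 else X 2) ^ 2 * (if i then 1 else X 3) ^ 2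
    - X 2 * (if i then X 3 else 1) ^ 2

/-! ## Part 1: the charts -/

/-- REL.  The relation.  `u^2 + ct u + hh - ct s^2 = 0` (clear the denominator
`cu - cs^2 ≠ 0`); and `FF(gen) = (u^2 + ct u + hh - ct s^2) * (factor)`: the factor is
`1/W^4`, `1/(W^2 s^2)`, `1/ct^2`, `W^2/(ct^2 s^2)` in the four cases `(j,i)` = `(t,t)`, `(t,f)`,
`(f,t)`, `(f,f)`, `W = W k`; `1 + X0^4 + X1^4` becomes `hh / W^4` for each `k`.
`ct ≠ 0` because `cu^2 + hh` is a nonzero polynomial.  Case split on `k, j, i`, then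
`field_simp` and `ring`/`linear_combination`. -/
def S_REL : Prop :=
  cu - cs ^ 2 ≠ 0 ∧ hh ≠ 0 ∧ ct ≠ 0 ∧ ca ≠ 0 ∧ cb ≠ 0 ∧ cs ≠ 0 ∧ cu ≠ 0 ∧
  cu ^ 2 + ct * cu + hh - ct * cs ^ 2 = 0 ∧
  (∀ c : Ch, aeval (gen c) (FF c.2.1 c.2.2) = 0) ∧
  (∀ c : Ch, vv c ^ 2 + aeval (g4 c) (BB c.2.1 c.2.2) * vv c + aeval (g4 c) (CC c.2.1 c.2.2) = 0)

/-- The sections: `UU m` times a monomial of degree `dd m + 1` in `W`. -/
noncomputable def UU : Fin 5 → K4 := ![ct, ct * cs, cu, cs, 1]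
def dd : Fin 5 → ℕ := ![1, 0, 1, 2, 3]
noncomputable def sec (m : Fin 5) (k l : Fin 3) : K4 := UU m * W k ^ dd m * W l

/-- SEC.  (1) `sec / sig c` is regular on the chart: with `k0 = c.1`,
`U0: (ct/eta)(W k0/zeta)(W k W l/W k0^2)`, `U1: (ct/eta)(cs/zeta)(W l/W k0)`,
`U2: vv (W k W l/W k0^2)`, `U3: (cs/zeta)(W k0^2/eta)(W k^2 W l/W k0^3)`,
`U4: (W k0^2/eta)(W k0/zeta)(W k^3 W l/W k0^4)`, where `W l/W k0` is `1` or one of the first two
coordinates and `ct/eta`, `W k0^2/eta`, `cs/zeta`, `W k0/zeta` are `1` or a coordinate (in A c).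
(2) `sig c` is a section: `m = 4, 3, 0, 1` for `(j,i) = (t,t), (t,f), (f,t), (f,f)`, `k = l = c.1`.
(3) `gen c n * sig c` is a section: for `n = 0, 1` replace `l` by `c.1.succAbove n`; for `n = 2`
flip `j`; for `n = 3` flip `i`; `vv c * sig c = cu * W^2` (`m = 2`). -/
def S_SEC : Prop :=
  (∀ (c : Ch) (m : Fin 5) (k l : Fin 3), sec m k l / sig c ∈ A c) ∧
  (∀ c : Ch, ∃ m k l, sig c = sec m k l) ∧
  (∀ (c : Ch) (n : Fin 5), ∃ m k l, gen c n * sig c = sec m k l)

/-- SEP (from SEC, REL).  Let `O` contain `A c` and `A d`.  `sig d / sig c ∈ A c` and its inverse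
`sig c / sig d ∈ A d ⊆ O` (SEC), so `sig c / sig d ∈ localRingAt (A c) O`; each generator
`gen d n = sec/sig d = (sec / sig c) * (sig c / sig d)` is in `localSub (A c) O` (a subalgebra,
`Helper419.KS.Fan`).  Hence `A d ≤ localSub (A c) O`, and then
`localRingAt (A d) O ⊆ localRingAt (A c) O` exactly as in `Fan.localRing_le` in
`Helper419/KS/Fan.lean`; by symmetry equality. -/
def S_SEP : Prop :=
  ∀ (O : ValuationSubring K4) (c d : Ch), (∀ a ∈ A c, a ∈ O) → (∀ a ∈ A d, a ∈ O) →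
    localRingAt (A c) O = localRingAt (A d) O

/-- CMP (from REL).  Choose `k` such that the value of `W k` is greatest (as in
`Tower.complete`, `Helper419/KS/Cover.lean`), then `j` with `ct / W k^2 ∈ O` or its inverse in
`O`, `i` with `cs / W k ∈ O` or its inverse in `O`.  Then the first four coordinates are in `O`,
and `vv c` is in `O` because it is integral over `O` (monic quadratic equation of REL; if
`vv⁻¹ ∈ O` then `vv = -B - C vv⁻¹ ∈ O`). -/
def S_CMP : Prop :=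
  ∀ O : ValuationSubring K4, (∀ z : ℂ, algebraMap ℂ K4 z ∈ O) → ∃ c : Ch, ∀ a ∈ A c, a ∈ O

/-- AIN (from REL).  `K4` is algebraic over the field generated by the four elements: that field
contains `ca, cb, cs, ct` (`W l / W k` generate `ca, cb`), and `cu` is a root of a monic quadratic
polynomial over it.  The transcendence degree of `K4` over `ℂ` is 4, so the four elements are
algebraically independent (a generating family of size = trdeg is a transcendence basis).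
Also `ca, cb, ct` (first three of the chart `(0, true, true)`). -/
def S_AIN : Prop := ∀ c : Ch, AlgebraicIndependent ℂ (g4 c)

/-- NRT.  No root even modulo `X 0`.  Suppose `g^2 + B g + C = X 0 q`.  `(t,t)`: set
`X0 = X2 = X3 = 0`: `g^2 = -(1 + X1^4)` in `ℂ[X1]`, impossible (e.g. compare coefficients: `g` has
degree 2, `g = α X1^2 + β X1 + γ`, `β = 0`, `αγ = 0`, contradiction; or: `1 + X1^4` is squarefree).
`(t,f)` and `(f,f)`: set `X0 = X1 = X3 = 0`: `g^2 = X2` in `ℂ[X2]`: odd degree, impossible.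
`(f,t)`: set `X0 = X1 = 0`, `X2 = 1`: `g^2 + g + 1 - X3^2 = 0` in `ℂ[X3]`:
`(2g + 1)^2 = 4 X3^2 - 3`, a square of a polynomial `α X3 + β` with `α^2 = 4`, `αβ = 0`,
`β^2 = -3`: impossible.  (Evaluate with `aeval` into `Polynomial ℂ`.) -/
def S_NRT : Prop :=
  ∀ (j i : Bool) (g q : MvPolynomial (Fin 4) ℂ), g ^ 2 + BB j i * g + CC j i ≠ X 0 * q

/-- NFE (from REL).  Normal form, existence: the set of the elements `α(g4) + β(g4) vv` is closed
under multiplication because of the monic quadratic equation, and contains the generators. -/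
def S_NFE : Prop :=
  ∀ c : Ch, ∀ x ∈ A c, ∃ α β : MvPolynomial (Fin 4) ℂ,
    x = aeval (g4 c) α + aeval (g4 c) β * vv c

/-- NFU (from REL, AIN, NRT).  Normal form, uniqueness.  If `β ≠ 0` then `vv = -α/β` is an element
of the fraction field of `ℂ[g4]` (isomorphic to `MvPolynomial (Fin 4) ℂ` by AIN) and integral over
`ℂ[g4]`, which is a UFD, so integrally closed: `vv = g(g4)` for a polynomial `g`, hence
`g^2 + B g + C = 0` (AIN), contradicting NRT with `q = 0`.  So `β = 0` and `α = 0` by AIN. -/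
def S_NFU : Prop :=
  ∀ (c : Ch) (α β : MvPolynomial (Fin 4) ℂ),
    aeval (g4 c) α + aeval (g4 c) β * vv c = 0 → α = 0 ∧ β = 0

/-- KER (from REL, NFU).  Divide by `FF`, which is monic of degree 2 in `X 4` (or: modulo `FF`
each polynomial is congruent to `α + β X 4` with `α, β` in the first four variables, by induction
on the polynomial), and use NFU. -/
def S_KER : Prop :=
  ∀ c : Ch, RingHom.ker (aeval (gen c) : MvPolynomial (Fin 5) ℂ →ₐ[ℂ] K4) =
    Ideal.span {FF c.2.1 c.2.2}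

/-- NCZ.  The hypersurface `FF = 0` has no singular point.  By the Nullstellensatz
(`MvPolynomial.vanishingIdeal_zeroLocus_eq_radical`; if the ideal generated by `FF` and its
partial derivatives is proper it has a zero `x`) it is enough to show that there is no common zero
`x : Fin 5 → ℂ`.  Write `X = x0, ...`, `V = x4`, `h = 1 + x0^4 + x1^4`.
`(t,t)`: `F = V^2+x2 V+h-x2 x3^2`: `x0 = x1 = 0` (so `h = 1`), `x2 = -2V`, `V = x3^2`,
`x2 x3 = 0`, so `x3^3 = 0`, `x3 = V = x2 = 0`, `F = 1`.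
`(t,f)`: `F = V^2+x2 x3 V+h x3^2-x2`: `∂_2`: `x3 V = 1`, so `x3 ≠ 0`; `∂_0, ∂_1`: `x0 = x1 = 0`,
`h = 1`; `∂_4`: `2V = -x2 x3`, so `x2 = -2V^2`; `∂_3`: `x2 V + 2 x3 = 0`, so `x3 = V^3`, `V^4 = 1`;
`F = V^2 - 2V^2 + x3^2 + 2V^2 = V^2 + x3^2`, times `V^2` it is `V^4 + 1 = 2 ≠ 0`.
`(f,t)`: `F = V^2+V+h x2^2-x2 x3^2`: `V = -1/2`, `x2 x3 = 0`, so `h x2^2 = 1/4`, `x2 ≠ 0`,
`x3 = 0`, `x0 = x1 = 0`, `h = 1`, and `2 h x2 - x3^2 = 0` gives `x2 = 0`, contradiction.
`(f,f)`: `F = V^2+x3 V+h x2^2 x3^2-x2`: `2 h x2 x3^2 = 1`, so `x3 ≠ 0`, `V = -x3/2`,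
`V + 2 h x2^2 x3 = 0` gives `h x2^2 = 1/4`, so `x3^2 = 2 x2`,
`F = x3^2/4 - x3^2/2 + x3^2/4 - x2 = -x2 ≠ 0`. -/
def S_NCZ : Prop :=
  ∀ j i : Bool, ∃ (q : MvPolynomial (Fin 5) ℂ) (r : Fin 5 → MvPolynomial (Fin 5) ℂ),
    q * FF j i + ∑ m, r m * pderiv m (FF j i) = 1

/-- SMG (general).  A hypersurface whose equation and partial derivatives generate the unit ideal
is smooth over `ℂ`.  `B = adjoin = MvPolynomial (Fin n) ℂ / (F)`: finitely presented; formally
smooth by `Algebra.FormallySmooth.iff_split_injection` (surjection `P → P/(F)`, kernel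
`I = (F)`, `I/I^2` generated by `F`; the map `I/I^2 → B ⊗ Ω_P`, `F ↦ dF`, is split by the linear
form `∑ r_m`), or directly from the lifting property: given `B → C/J`, `J^2 = 0`, lift the
generators to `c_m`, `F(c) ∈ J`; replace `c_m` by `c_m - F(c) r_m(c)`: Taylor gives
`F(c - F(c) r) = F(c) - F(c) ∑ r_m ∂_m F(c) = 0` modulo `J^2 = 0`, as
`∑ r_m ∂_m F (c) - 1 ∈ J` and `F(c) ∈ J`. -/
def S_SMG : Prop :=
  ∀ (K : Type) [Field K] [Algebra ℂ K] (n : ℕ) (g : Fin n → K) (F : MvPolynomial (Fin n) ℂ),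
    RingHom.ker (aeval g : MvPolynomial (Fin n) ℂ →ₐ[ℂ] K) = Ideal.span {F} →
    (∃ r : Fin n → MvPolynomial (Fin n) ℂ, ∑ m, aeval g (r m * pderiv m F) = 1) →
    Algebra.Smooth ℂ (Algebra.adjoin ℂ (Set.range g))

/-- FRX (from REL).  `K4` is the fraction field of each `A c`: the set of the fractions `a / b` is
a subfield containing `ca, cb, cs, cu`. -/
def S_FRX : Prop :=
  ∀ (c : Ch) (f : K4), ∃ a ∈ A c, ∃ b ∈ A c, b ≠ 0 ∧ f = a / b

/-- The statements that make the charts into a smooth proper variety. -/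
structure XP : Prop where
  frac : ∀ (c : Ch) (f : K4), ∃ a ∈ A c, ∃ b ∈ A c, b ≠ 0 ∧ f = a / b
  smooth : ∀ c, Algebra.Smooth ℂ (A c)
  separated : ∀ (O : ValuationSubring K4) (c d : Ch), (∀ a ∈ A c, a ∈ O) →
    (∀ a ∈ A d, a ∈ O) → localRingAt (A c) O = localRingAt (A d) O
  complete : ∀ O : ValuationSubring K4, (∀ z : ℂ, algebraMap ℂ K4 z ∈ O) →
    ∃ c : Ch, ∀ a ∈ A c, a ∈ O

/-- XPP (from FRX, KER, NCZ, SMG, SEP, CMP).  Assembly. -/
def S_XPP : Prop := XP

lemma A_fg (c : Ch) : (A c).FG :=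
  Subalgebra.fg_def.2 ⟨Set.range (gen c), Set.finite_range _, rfl⟩

/-- The fourfold `X`. -/
noncomputable def Xv (h : XP) : SmoothProperVariety where
  K := K4
  Idx := Fin 4
  frame := frame
  Chart := Ch
  ring := A
  fg := A_fg
  frac := h.frac
  smooth := h.smooth
  separated := h.separated
  complete := h.complete

/-! ## Part 2: `X` is Fano -/

noncomputable def kap : K4 := (cu - cs ^ 2) / (ca * cb * cs * cu)

/-- JAC (from REL).  Checked numerically; `tjac` is the determinant of the logarithmic derivatives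
(`Helper419/KS/Fan.lean`), `frame j = x_j ∂/∂x_j`.  Applying the derivation `frame j` to
`FF(gen) = 0` gives `∑_m (∂_m FF)(gen) frame j (gen m) = 0` for each `j`: the vector of the
`∂_m FF (gen)` is orthogonal to the columns of the `5 × 4` matrix `frame j (gen m)`, so the maximal
minors satisfy `(-1)^m minor_m * ∂_n FF = (-1)^n minor_n * ∂_m FF` (Cramer), and it is enough to
compute one minor with `∂_m FF (gen) ≠ 0`.  For `j = true` take `m = 2`
(`∂_2 FF (gen) = vv * p - s^2`, `p, s` the local values, `= (cu - cs^2) /` a monomial; the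
coordinates `0, 1, 3, 4` are Laurent monomials in `a, b, s, u`: `frame_mon`).  For `j = false`
compare with `(k, true, i)`: the coordinates are `X2' = 1/X2`, `V' = V/X2`, the others are equal;
take `m = 4`: `jac(X0,X1,1/X2,X3) = -X2^{-2} jac(X0,X1,X2,X3)` and `∂_4 FF' = X2^{-1} ∂_4 FF`,
`sig' = X2 sig`.  The sign is `ε = (-1)^k` times `1, -1, -1, 1` for
`(j,i) = (t,t), (t,f), (f,t), (f,f)`.  (Alternatively a brute force computation: `simp` with the
derivatives of `ct`.) -/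
def S_JAC : Prop :=
  ∀ c : Ch, ∃ ε : ℤ, (ε = 1 ∨ ε = -1) ∧ ∀ m : Fin 5,
    kap * sig c * tjac (fun n : Fin 4 => gen c (m.succAbove n)) =
      ((ε * (-1) ^ (m : ℕ) : ℤ) : K4) * aeval (gen c) (pderiv m (FF c.2.1 c.2.2))

/-- ACG (general).  `t i = P_i(g)`, so `frame j (t i) = ∑_m (∂_m P_i)(g) frame j (g m)`: the matrix
is a product of a `4 × 5` matrix with entries in the ring and the `5 × 4` matrix
`frame j (g m)`.  Expand the determinant multilinearly in the rows: it is the sum over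
`f : Fin 4 → Fin 5` of `(∏ entries) * det (frame j (g (f i)))`, which is zero if `f` is not
injective, and otherwise `± tjac (g ∘ m.succAbove)` (`f` misses exactly one `m`). -/
def S_ACG : Prop :=
  ∀ (g : Fin 5 → K4) (w : K4),
    (∀ m : Fin 5, w * tjac (fun n : Fin 4 => g (m.succAbove n)) ∈
      Algebra.adjoin ℂ (Set.range g)) →
    ∀ t : Fin 4 → K4, (∀ i, t i ∈ Algebra.adjoin ℂ (Set.range g)) →
      w * tjac t ∈ Algebra.adjoin ℂ (Set.range g)

/-- FAN (from REL, SEC, NCZ, JAC, ACG).  `VeryAmple 1` with the finite set `S` of all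
`kap * sec m k l`.  Members of `antican 1`: `kap * sec * jac t = (sec / sig c) * (kap * sig c *
tjac t)`, SEC(1), JAC and ACG (`∂_m FF (gen) ∈ A c`).  For a chart `c` and a prime `p` take
`s = kap * sig c` (SEC(2)).  Nonvanishing: by NCZ (evaluated at `gen c`, REL)
`∑ r_m(gen) ∂_m FF (gen) = 1`, so some `∂_m FF (gen) ∉ p`, take `t = gen c ∘ m.succAbove`.
`t / s = sec / sig c ∈ A c` (SEC(1)), so `adjoin ⊆ A c ⊆ localRing`; and `A c ⊆ adjoin` by
SEC(3) (compare the proof of `Fan.veryAmple` in `Helper419/KS/TowerFan.lean`). -/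
def S_FAN : Prop := ∀ h : XP, (Xv h).IsFano

/-! ## Part 3: the conic bundle -/

/-- `Y = P(O + O(2))` over the projective plane, a toric Fano threefold
(`Tower.isFano`). -/
noncomputable abbrev Yv : SmoothProperVariety :=
  (FanoFib.Tower.towerFan (I := Unit) (J := Unit) (fun _ _ => -2)).variety

/-- The function field of `Y`. -/
abbrev K3 : Type := KK (Unit ⊕ Unit × Fin 2)

/-- The chart `w_k ≠ 0`, `y1 ≠ 0` (`j = true`) or `y0 ≠ 0` (`j = false`) of `Y`. -/
def yc (k : Fin 3) (j : Bool) : Yv.Chart := (fun _ => j, fun _ => k)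

/-- The coordinates of the chart `yc k j`: two of the plane, one of the fibre. -/
noncomputable def gy (k : Fin 3) (j : Bool) : Unit ⊕ Unit × Fin 2 → K3 := fun x =>
  mon (FanoFib.Tower.bb (I := Unit) (J := Unit) (fun _ _ => -2) (fun _ => j) (fun _ => k) x)

/-- The inclusion of function fields. -/
structure IsPhi (φ : Yv.K →ₐ[ℂ] K4) : Prop where
  t : φ (xx (Sum.inl ())) = ct
  a : φ (xx (Sum.inr ((), 0))) = ca
  b : φ (xx (Sum.inr ((), 1))) = cb

/-- PHI (from AIN).  `ca, cb, ct` are algebraically independent (part of `g4 (0,true,true)`), so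
`MvPolynomial _ ℂ → K4` is injective and extends to the fraction field. -/
def S_PHI : Prop := ∃ φ : Yv.K →ₐ[ℂ] K4, IsPhi φ

/-- MOR.  Direct computation of the monomials (definitions in `Helper419/KS/TowerDefs.lean`).
Every chart of `Y` is some `yc k j`. -/
def S_MOR : Prop :=
  (∀ d : Yv.Chart, ∃ k j, d = yc k j) ∧
  (∀ k j, Yv.ring (yc k j) = Algebra.adjoin ℂ (Set.range (gy k j))) ∧
  ∀ φ : Yv.K →ₐ[ℂ] K4, IsPhi φ → ∀ (k : Fin 3) (j i : Bool),
    φ (gy k j (Sum.inr ((), 0))) = gen (k, j, i) 0 ∧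
    φ (gy k j (Sum.inr ((), 1))) = gen (k, j, i) 1 ∧
    φ (gy k j (Sum.inl ())) = gen (k, j, i) 2

/-- CON (from REL, AIN, NFE, NFU).  `x = α(S) + β(S) vv = γ(1/S) + δ(1/S) vv/S` where
`S = gen (k,j,true) 3`, and `α, β, γ, δ` have coefficients in `R = ℂ[gen 0, gen 1, gen 2]`
(NFE for both charts; `gen (k,j,false) 3 = 1/S`, `vv (k,j,false) = vv (k,j,true)/S`).  Multiply by a
high power `S^N` and compare with NFU for the chart `(k,j,true)`: `S^N α(S) = S^N γ(1/S)`,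
`S^N β(S) = S^N δ(1/S)/S`; the left hand sides are divisible by `S^N`, the right hand sides have
degree `≤ N` and `≤ N - 1` in `S`: so `β = 0` and `α` is constant in `S`. -/
def S_CON : Prop :=
  ∀ (k : Fin 3) (j : Bool) (x : K4), x ∈ A (k, j, true) → x ∈ A (k, j, false) →
    x ∈ Algebra.adjoin ℂ ({gen (k, j, true) 0, gen (k, j, true) 1, gen (k, j, true) 2} : Set K4)

/-- DIR (from MOR, CON).  Let `d = yc k j`, and let `g` be regular at all points over `d`.  For the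
charts `c = (k, j, true)` and `(k, j, false)` all of `φ (ring d)` is in `A c` (MOR), so `g` is in
`localRing (A c) p` for all primes `p` of `A c`, hence in `A c` (the ideal of denominators
`{s | s g ∈ A c}` is contained in no maximal ideal).  By CON and MOR `g ∈ φ (ring d)`. -/
def S_DIR : Prop :=
  ∀ (h : XP) (φ : Yv.K →ₐ[ℂ] K4), IsPhi φ → DirectImage (X := Xv h) (Y := Yv) φ

/-- DMF (from REL, AIN, NFE, NFU, MOR).  Let `R = Yv.ring (yc k j)`, `φ` maps it isomorphically to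
`ℂ[g0, g1, g2]`, and `A c = R[S] ⊕ R[S] vv` with `S = gen c 3` (NFE, NFU), so
`A c / n = ℂ[S] ⊕ ℂ[S] vv` (`R / n = ℂ` by the Nullstellensatz), an injective integral extension
of the polynomial ring `ℂ[S]`: `ringKrullDim = 1`. -/
def S_DMF : Prop :=
  ∀ (h : XP) (φ : Yv.K →ₐ[ℂ] K4), IsPhi φ → ∀ (k : Fin 3) (j i : Bool),
    ∃ hm : MapsTo (X := Xv h) (Y := Yv) φ ((k, j, i) : Ch) (yc k j),
      ∀ n : Ideal (Yv.ring (yc k j)), n.IsMaximal →
        ringKrullDim (FibreRing (X := Xv h) (Y := Yv) φ hm n) = 1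

/-- NRF (from KER, MOR).  `c = (0, true, true)`, `α^4 = -1`, `n` = the ideal of the functions of
`Yv.ring (yc 0 true) = ℂ[a, b, t]` that vanish at `a = α, b = 0, t = 0`.  In `A c`:
`vv^2 = -t vv - (1 + a^4 + b^4) + t s^2 ∈ n A c`.  But `vv ∉ n A c`: the homomorphism
`MvPolynomial (Fin 5) ℂ → ℂ[ε]` (dual numbers), `X0 ↦ α, X1 ↦ 0, X2 ↦ 0, X3 ↦ 0, X4 ↦ ε`, kills
`FF true true`, so it factors through `A c` (KER), kills `n`, and maps `vv` to `ε ≠ 0`. -/
def S_NRF : Prop :=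
  ∀ (h : XP) (φ : Yv.K →ₐ[ℂ] K4), IsPhi φ → HasNonreducedFibre (X := Xv h) (Y := Yv) φ

/-! ## Part 4: general facts on prime divisors and class groups -/

/-- DVC (general).  Copy `exists_adic9735` / `exists_adic` of `Helper419/KS/Adic.lean` with `B`
instead of the polynomial ring: `B` is a Noetherian domain, `π` prime, so every nonzero `b` is
`π^n b'` with `π ∤ b'` (finite multiplicity: `⋂ (π^n) = 0` by Krull's intersection theorem, or the
ascending chain condition `WfDvdMonoid`), `B` has fraction field `X.K`, and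
`multiplicity_addValuation` extends to the fraction field. -/
def S_DVC : Prop :=
  ∀ (X : SmoothProperVariety) (B : Subalgebra ℂ X.K), B.FG →
    (∀ f : X.K, ∃ a ∈ B, ∃ b ∈ B, b ≠ 0 ∧ f = a / b) → ∀ π : B, Prime π →
    ∃ E : X.DivisorOver, (∀ b : B, 0 ≤ E.v (b : X.K)) ∧ (∀ b : B, ¬ π ∣ b → E.v (b : X.K) = 0) ∧
      E.v (π : X.K) = 1 ∧
      ∀ f : X.K, 0 ≤ E.v f → ∃ a ∈ B, ∃ s ∈ B, E.v s = 0 ∧ f = a / s

/-- LOC (general).  `{a / s | a, s ∈ ring c, v s = 0}` is a subalgebra containing `G`, so each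
`f` with `v f ≥ 0` is a quotient `(a/s)/(a'/s')` with `v a' = 0`. -/
def S_LOC : Prop :=
  ∀ (X : SmoothProperVariety) (E : X.DivisorOver) (c : X.Chart) (G : Set X.K),
    (∀ a ∈ X.ring c, 0 ≤ E.v a) →
    (∀ f : X.K, 0 ≤ E.v f → ∃ a ∈ Algebra.adjoin ℂ G, ∃ s ∈ Algebra.adjoin ℂ G,
      E.v s = 0 ∧ f = a / s) →
    (∀ g ∈ G, ∃ a ∈ X.ring c, ∃ s ∈ X.ring c, E.v s = 0 ∧ g = a / s) →
    ∃ D : X.PrimeDiv, D.1 = E

/-- UNI (general).  Let `O` be the valuation ring of `D`.  `D` is a prime divisor by some chart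
`c'`, so `O = localRingAt (ring c') O`, and by `separated` `O = localRingAt (ring c) O`: every
`f` with `D.v f ≥ 0` is `a / s` with `a, s ∈ ring c`, `D.v s = 0`.  Let `P = {x ∈ ring c | v x >
0}`, `Q ⊆ P`.  `Q = P`: let `x ∈ P`, `0 ≠ q ∈ Q`; for large `N`, `v (x^N / q) ≥ 0`, so
`x^N / q = y / z`, `z ∉ P`, `x^N z = q y ∈ Q`, so `x ∈ Q`.  The same for `E`.  So the valuation
rings of `D` and `E` are equal (fractions `a/s` with `s ∉ Q`).  If `D.v π = 1`, then `f / π^n` is a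
unit of this ring if `D.v f = n`, so `E.v f = n E.v π`; as `E.v` takes the value 1 and
`E.v π > 0`, `E.v π = 1`.  So `E.v = D.v` (`AddValuation.ext`, both are `⊤` exactly at 0) and
`D = E` (the other fields are propositions). -/
def S_UNI : Prop :=
  ∀ (X : SmoothProperVariety) (D E : X.PrimeDiv) (c : X.Chart) (Q : Ideal (X.ring c)),
    Q.IsPrime → Q ≠ ⊥ → (∀ a ∈ X.ring c, 0 ≤ D.1.v a) → (∀ a ∈ X.ring c, 0 ≤ E.1.v a) →
    (∀ x ∈ Q, 0 < D.1.v (x : X.K)) → (∀ x ∈ Q, 0 < E.1.v (x : X.K)) → D = E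

/-- CLG (from DVC, UNI; general).  The map `(n_i) ↦ ∑ n_i [E_i]`, `ℤ^r → ClassGroup`.
Injective: let `∑ n_i E_i = div f`, `f = a / b` with `a, b ∈ R = ring c0` without common prime
factor (`R` is a UFD).  If a prime `π` of `R` divides `a`, the divisor `E_π` of DVC (`B = R`; it is
a prime divisor, by the chart `c0`) has `E_π.v f > 0`, and `E_π` is not an `E_i` by `hout`:
contradiction.  So `a`, and similarly `b`, is a unit, `f` is a constant, `div f = 0`, and
`n = 0` as the `E_i` are distinct.  Surjective: let `D` be a prime divisor that is not an `E_i`;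
then `D.v ≥ 0` on `R`.  There is `x ∈ R` nonzero with `D.v x > 0` (otherwise `D.v = 0` on the
fraction field), so a prime factor `π` of it with `D.v π > 0`; by UNI with `Q = (π)`,
`D = E_π`.  Let `D'` be any prime divisor that is not an `E_i` and `≠ D`: `D' = E_π'` with `π'` not
associated to `π`, so `D'.v π = 0`.  Hence `div π = D + ∑ (E_i.v π) E_i` and `[D]` is in the
image. -/
def S_CLG : Prop :=
  ∀ (X : SmoothProperVariety) (c0 : X.Chart), UniqueFactorizationMonoid (X.ring c0) →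
    (∀ x : X.ring c0, IsUnit x → ∃ z : ℂ, x = algebraMap ℂ (X.ring c0) z) →
    ∀ (r : ℕ) (E : Fin r → X.PrimeDiv), Function.Injective E →
    (∀ i, ∃ x ∈ X.ring c0, (E i).1.v x < 0) →
    (∀ D : X.PrimeDiv, (∀ x ∈ X.ring c0, 0 ≤ D.1.v x) ∨ ∃ i, D = E i) →
    Nonempty (X.ClassGroup ≃+ (Fin r → ℤ))

/-! ## Part 5: the class group of `X` -/

/-- PRW (from REL, NFE, NFU, AIN, NRT).  `A c / (X0) = R[V] / (V^2 + B V + C)`,
`R = ℂ[X1, X2, X3]`, `B, C` modulo `X0`.  Let `x y ∈ (X0)`, `x = α + β V`, `y = γ + δ V`, normal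
forms (polynomials in `X0..X3`); `x ∈ (X0)` iff `X0 | α` and `X0 | β` (NFU).  Suppose `x, y` are
not in `(X0)`.  Norms: `N(x) = α^2 - B α β + C β^2` is the product of `x` and its conjugate
`α - β B - β V`.  `N(x) N(y)` is in `(X0)`, so `X0 | N(x)` or `X0 | N(y)` in the polynomial ring,
say `X0 | N(x)`: modulo `X0`, `α^2 - B α β + C β^2 = 0` with `(α, β) ≠ (0, 0)`; `β ≠ 0` modulo `X0`
(otherwise `α = 0`), and `g = -α/β` is a root of the monic polynomial `T^2 + B T + C` in the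
fraction field of the UFD `ℂ[X1, X2, X3]`, so a polynomial: contradiction to NRT (lift `g`).
The same for `y`.  (Not a unit: `1 ∉ (X0)` by NFU.) -/
def S_PRW : Prop := ∀ c : Ch, Prime (gA c 0)

/-- PRP (from REL, NFE, NFU, AIN).  `i = false`.  Modulo `X3` the equation is `V^2 = X2`
(in both cases of `j`), so `A c / (X3) = ℂ[X0, X1, V]`: the kernel of
`MvPolynomial (Fin 5) ℂ → ℂ[X0, X1, V]`, `X2 ↦ V^2`, `X3 ↦ 0`, is generated by `X3` and
`X4^2 - X2`, and contains `FF`, `FF - (X4^2 - X2) ∈ (X3)` (use KER or the normal form). -/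
def S_PRP : Prop := ∀ (k : Fin 3) (j : Bool), Prime (gA (k, j, false) 3)

/-- PRE (from REL, KER).  `j = false`.  Modulo `X2` the equation is `V (V + p)`, `p = 1` or `X3`.
`A c / (X2, V) = ℂ[X0, X1, X3]` and `A c / (X2, V + p) = ℂ[X0, X1, X3]`: the surjection
`MvPolynomial (Fin 5) ℂ → ℂ[X0, X1, X3]`, `X2 ↦ 0`, `X4 ↦ 0` (resp. `-p`), has kernel
`(X2, X4)` (resp. `(X2, X4 + p)`), which contains `FF`. -/
def S_PRE : Prop :=
  ∀ (k : Fin 3) (i : Bool),
    (Ideal.span {gA (k, false, i) 2, gA (k, false, i) 4}).IsPrime ∧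
    (Ideal.span {gA (k, false, i) 2,
      gA (k, false, i) 4 + (if i then 1 else gA (k, false, i) 3)}).IsPrime

/-- EWW (from DVC, LOC, REL).  The divisor `w0 = 0`: `B = ℂ[1/a, b/a, s/a, u/a^2]` (a polynomial
ring: the generators are Laurent monomials with exponent matrix of determinant `±1`),
`π = 1/a`.  `v ct = -2`: `ct / a^2 = -((u/a^2)^2 + hh/a^4) / (u/a^2 - (s/a)^2)`, numerator and
denominator are in `B`, not divisible by `π`.  Prime divisor: chart `(1, true, true)`, all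
coordinates have order `≥ 0`, and the generators of `B` are in `A (1, true, true)` (they are the
coordinates 0, 1, 3, 4). -/
def S_EWW : Prop :=
  ∀ h : XP, ∃ E : (Xv h).PrimeDiv, E.1.v (ca : K4) = -1 ∧ E.1.v (cb : K4) = -1 ∧
    E.1.v (cs : K4) = -1 ∧ E.1.v (cu : K4) = -2 ∧ E.1.v (ct : K4) = -2

/-- EPP (from DVC, LOC, REL).  The divisor `p = 0`: `B = ℂ[a, b, 1/s, u/s]`, `π = 1/s`.
`ct = -((u/s)^2 + hh/s^2) / ((1/s)(u/s) - 1)`, so `v ct = 0`.  Prime divisor: chart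
`(0, true, false)`; the generators of `B` are the coordinates 0, 1, 3, 4. -/
def S_EPP : Prop :=
  ∀ h : XP, ∃ E : (Xv h).PrimeDiv, E.1.v (ca : K4) = 0 ∧ E.1.v (cb : K4) = 0 ∧
    E.1.v (cs : K4) = -1 ∧ E.1.v (cu : K4) = -1 ∧ E.1.v (ct : K4) = 0

/-- EE1 (from DVC, LOC, REL).  `B = ℂ[a, b, s, u]`, `π = u - s^2` (prime: after a change of
variables a variable).  `v ct = -1` as `u^2 + hh` is not divisible by `π` (modulo `π` it is
`s^4 + hh ≠ 0`).  Prime divisor: chart `(0, false, true)`, coordinates `a, b, 1/ct, s, V = u/ct` of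
order `0, 0, 1, 0, 1`, and `u = -(hh (1/ct) - s^2) / (V + 1)` with `v (V + 1) = 0`
(as `V (V+1) = -(1/ct)(hh (1/ct) - s^2)` and `u = V ct`). -/
def S_EE1 : Prop :=
  ∀ h : XP, ∃ E : (Xv h).PrimeDiv, E.1.v (ca : K4) = 0 ∧ E.1.v (cb : K4) = 0 ∧
    E.1.v (cs : K4) = 0 ∧ E.1.v (cu : K4) = 0 ∧ E.1.v (ct : K4) = -1

/-- EE2 (from DVC, LOC, REL).  `B = ℂ[a, b, s, 1/u]`, `π = 1/u`.
`ct = -u (1 + hh/u^2) / (1 - s^2/u)`, so `v ct = -1`;
`u + ct = -(u s^2 + hh)/(u - s^2) = -(s^2 + hh/u)/(1 - s^2/u)`, so `v (u + ct) = 0`.  Prime divisor: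
chart `(0, false, true)`, coordinates `a, b, 1/ct, s, V = u/ct` of order `0, 0, 1, 0, 0`, and
`1/u = (1/ct)/V` with `v V = 0`. -/
def S_EE2 : Prop :=
  ∀ h : XP, ∃ E : (Xv h).PrimeDiv, E.1.v (ca : K4) = 0 ∧ E.1.v (cb : K4) = 0 ∧
    E.1.v (cs : K4) = 0 ∧ E.1.v (cu : K4) = -1 ∧ E.1.v (ct : K4) = -1 ∧
    E.1.v (cu + ct : K4) = 0

/-- BND (from UNI, REL, PRW, PRP, PRE).  Let `D` be a prime divisor, `c = (k, j, i)` its chart.
(1) If `k ≠ 0` and `D.v (gen c 0) > 0` (`gen c 0 = W 0 / W k`): `D = Ew` by UNI with `Q =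
(gA c 0)` (prime by PRW; `Ew.v ≥ 0` on `A c` as all generators have order `≥ 0`: products of the
given elements; `Ew.v (gen c 0) = 1`).
(2) If `i = false` and `D.v (gen c 3) > 0`: `D = Ep` by UNI, `Q = (gA c 3)`.
(3) If `j = false` and `D.v (gen c 2) > 0`: the relation `V (V + p) = - X2 (...)` gives
`D.v V > 0` or `D.v (V + p) > 0`; `D = E1` resp. `E2` by UNI and PRE
(`E1.v V = E1.v (u W/(ct zeta)) = 1`; `V + p = (W/zeta) (u + ct)/ct`, so `E2.v (V + p) = 1`).
(4) Otherwise `W 0 / W k`, `gen c 3` (if `i = false`), `gen c 2` (if `j = false`) have order 0,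
and then `ca, cb, ct, cs, cu` (the generators of `A (0, true, true)`) have order `≥ 0`, e.g.
`ca = (W 1/W k)/(W 0/W k)`, `cs = (cs/W k)/(W 0/W k)`. -/
def S_BND : Prop :=
  ∀ (h : XP) (Ew Ep E1 E2 : (Xv h).PrimeDiv),
    (Ew.1.v (ca : K4) = -1 ∧ Ew.1.v (cb : K4) = -1 ∧
      Ew.1.v (cs : K4) = -1 ∧ Ew.1.v (cu : K4) = -2 ∧ Ew.1.v (ct : K4) = -2) →
    (Ep.1.v (ca : K4) = 0 ∧ Ep.1.v (cb : K4) = 0 ∧
      Ep.1.v (cs : K4) = -1 ∧ Ep.1.v (cu : K4) = -1 ∧ Ep.1.v (ct : K4) = 0) →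
    (E1.1.v (ca : K4) = 0 ∧ E1.1.v (cb : K4) = 0 ∧
      E1.1.v (cs : K4) = 0 ∧ E1.1.v (cu : K4) = 0 ∧ E1.1.v (ct : K4) = -1) →
    (E2.1.v (ca : K4) = 0 ∧ E2.1.v (cb : K4) = 0 ∧
      E2.1.v (cs : K4) = 0 ∧ E2.1.v (cu : K4) = -1 ∧ E2.1.v (ct : K4) = -1 ∧
      E2.1.v (cu + ct : K4) = 0) →
    ∀ D : (Xv h).PrimeDiv, (∀ x ∈ A (0, true, true), 0 ≤ D.1.v (x : K4)) ∨
      D = Ew ∨ D = Ep ∨ D = E1 ∨ D = E2

/-- IRQ.  `X3^4 + X0^4 + X1^4 + 1` is prime in `ℂ[X0, X1, X2, X3]`.  Eisenstein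
(`Polynomial.irreducible_of_eisenstein_criterion`) twice, with `MvPolynomial.finSuccEquiv` (or
another iso with a polynomial ring over a polynomial ring, after renaming variables):
`T^4 + (b^4 + 1)` over `ℂ[b]` at the prime `b - ζ`, `ζ^4 = -1` (a simple root), so
`G = a^4 + b^4 + 1` is prime; then `T^4 + G` over `ℂ[a, b, ..]` at the prime `G`
(`G ∣ G`, `G^2 ∤ G`). -/
def S_IRQ : Prop := Prime (X 3 ^ 4 + X 0 ^ 4 + X 1 ^ 4 + 1 : MvPolynomial (Fin 4) ℂ)

/-- NAG (from KER, IRQ).  `R0 = A (0, true, true)`, `m = u - s^2 = gen 4 - gen 3 ^ 2` is prime in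
`R0`.  `R0 = ℂ[X0..X4] / (FF)` (KER); substituting `X4 = X3^2` in `FF true true` gives
`X3^4 + X2 X3^2 + 1 + X0^4 + X1^4 - X2 X3^2 = X3^4 + X0^4 + X1^4 + 1`.  So
`R0 / (m) = ℂ[X0, X1, X2, X3] / (X3^4 + X0^4 + X1^4 + 1)`, a domain by IRQ: the surjection
`MvPolynomial (Fin 5) ℂ → MvPolynomial (Fin 4) ℂ ⧸ (..)`, `X4 ↦ X3^2`, has kernel
`(X4 - X3^2, FF)`. -/
def S_NAG : Prop :=
  Prime (gA (0, true, true) 4 - gA (0, true, true) 3 ^ 2)

/-- UFD (from NAG, REL).  Kaplansky's criterion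
(`UniqueFactorizationMonoid.iff_exists_prime_mem_of_isPrime`): every nonzero prime ideal `P` of `R0` contains a prime element.  If
`m ∈ P`, use NAG.  Otherwise: `R0 ⊆ ℂ[a,b,s,u][1/m] =: L` (as `ct = -(u^2+hh)/m`), take
`0 ≠ x ∈ P`; `m^k x = p(a,b,s,u)` is a polynomial in `P`, a product of prime polynomials, one of
them, `π`, is in `P` and it is not associated to `m` in `ℂ[a,b,s,u]` (otherwise `m ∈ P`).
`π` may be divisible by `m` in `R0`; write `π = m^l π'` with `π' ∈ R0` not divisible by `m` (`R0`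
is Noetherian), `π' ∈ P` as `m ∉ P`.  `π'` is prime in `R0`: if `π' | x y` in `R0`, then
`π | x y` in `L`, where `π` is prime (a prime polynomial not associated to `m`), say `π | x` in `L`,
i.e. `m^e x = π' z` with `z ∈ R0`; as `m` is prime in `R0` and does not divide `π'`, `m^e | z`, so
`π' | x` in `R0`. -/
def S_UFD : Prop := UniqueFactorizationMonoid (A (0, true, true))

/-- UNT (from NAG, REL).  The units of `R0` are units of `ℂ[a,b,s,u][1/m]`, so `z m^e`, `z ∈ ℂ^*`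
(`m` is a prime polynomial, unique factorisation), and `e = 0` because `m` is not a unit of `R0`
(NAG). -/
def S_UNT : Prop :=
  ∀ x : A (0, true, true), IsUnit x → ∃ z : ℂ, x = algebraMap ℂ (A (0, true, true)) z

/-- CLX (from CLG, EWW, EPP, EE1, EE2, BND, UFD, UNT).  `r = 4`; the four divisors are distinct
(compare the values), and not centred on `A (0, true, true)`: `ca`, `cs`, `ct`, `ct` have negative
order. -/
def S_CLX : Prop := ∀ h : XP, Nonempty ((Xv h).ClassGroup ≃+ (Fin 4 → ℤ))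

/-! ## Part 6: the class group of `Y` -/

/-- YEE (from DVC, LOC).  The divisors `w0 = 0` and `y1 = 0` of `Y`.  First: chart `yc 1 true`,
`π = 1/a` (`B` = the ring of this chart); second: chart `yc 0 false`, `π = 1/t`.
(`t = xx (inl ())`, `a = xx (inr ((), 0))`, `b = xx (inr ((), 1))`; the chart rings are polynomial
rings: `Cone.equivRing` in `Helper419/KS/Chart.lean`, variables are prime.) -/
def S_YEE : Prop :=
  (∃ E : Yv.PrimeDiv, E.1.v (xx (Sum.inl ()) : K3) = -2 ∧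
    E.1.v (xx (Sum.inr ((), 0)) : K3) = -1 ∧ E.1.v (xx (Sum.inr ((), 1)) : K3) = -1) ∧
  (∃ E : Yv.PrimeDiv, E.1.v (xx (Sum.inl ()) : K3) = -1 ∧
    E.1.v (xx (Sum.inr ((), 0)) : K3) = 0 ∧ E.1.v (xx (Sum.inr ((), 1)) : K3) = 0)

/-- YBD (from UNI).  As BND: let `D` be a prime divisor, `yc k j` its chart, coordinates
`X0 = gy (inr ((),0))`, `X1 = gy (inr ((),1))`, `X2 = gy (inl ())` (variables of a polynomial ring,
so primes).  If `k ≠ 0` and `D.v X0 > 0` (`X0 = W 0/W k`): `D = Ew` by UNI.  If `j = false` and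
`D.v X2 > 0`: `D = E1`.  Otherwise `D.v ≥ 0` on `ring (yc 0 true) = ℂ[a, b, t]`. -/
def S_YBD : Prop :=
  ∀ Ew E1 : Yv.PrimeDiv,
    (Ew.1.v (xx (Sum.inl ()) : K3) = -2 ∧
      Ew.1.v (xx (Sum.inr ((), 0)) : K3) = -1 ∧ Ew.1.v (xx (Sum.inr ((), 1)) : K3) = -1) →
    (E1.1.v (xx (Sum.inl ()) : K3) = -1 ∧
      E1.1.v (xx (Sum.inr ((), 0)) : K3) = 0 ∧ E1.1.v (xx (Sum.inr ((), 1)) : K3) = 0) →
    ∀ D : Yv.PrimeDiv, (∀ x ∈ Yv.ring (yc 0 true), 0 ≤ D.1.v (x : K3)) ∨ D = Ew ∨ D = E1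

/-- CLY (from CLG, YEE, YBD).  `c0 = yc 0 true`: a polynomial ring in three variables
(`Cone.equivRing`), a UFD whose units are constants. -/
def S_CLY : Prop := Nonempty (Yv.ClassGroup ≃+ (Fin 2 → ℤ))

/-! ## The result -/

/-- FIN (from XPP, FAN, PHI, DIR, DMF, NRF, CLX, CLY, MOR and `Tower.isFano`). -/
def S_FIN : Prop :=
  ∃ (X Y : SmoothProperVariety) (φ : Y.K →ₐ[ℂ] X.K),
    IsFanoConicBundle φ ∧ Y.IsFano ∧ X.dim = 4 ∧ Y.dim = 3 ∧
    Nonempty (X.ClassGroup ≃+ (Fin 4 → ℤ)) ∧ Nonempty (Y.ClassGroup ≃+ (Fin 2 → ℤ)) ∧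
    HasNonreducedFibre φ

end FB
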