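import Mathlib
import Pool.Agent.T2h12.FB.Stm

set_option autoImplicit false

/-! Auxiliary facts for the tasks PRW, PRP, PRE. -/

namespace FB

open FanoFib FanoFib.Tor MvPolynomial

namespace PrimeAux

/-- The evaluation at the coordinates of the chart, with values in the ring of the chart. -/
noncomputable def ev (c : Ch) : MvPolynomial (Fin 5) ℂ →ₐ[ℂ] A c := aeval (gA c)

lemma ev_coe (c : Ch) (q : MvPolynomial (Fin 5) ℂ) : ((ev c q : A c) : K4) = aeval (gen c) q := by
  have h : ((A c).val.comp (ev c)) = aeval (gen c) := by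
    apply MvPolynomial.algHom_ext
    intro m
    simp [ev, gA]
  exact DFunLike.congr_fun h q

lemma ev_X (c : Ch) (m : Fin 5) : ev c (X m) = gA c m := by simp [ev]

lemma ev_surj (c : Ch) : Function.Surjective (ev c) := by
  intro x
  have hx : (x : K4) ∈ Algebra.adjoin ℂ (Set.range (gen c)) := x.2
  rw [Algebra.adjoin_range_eq_range_aeval] at hx
  obtain ⟨q, hq⟩ := hx
  refine ⟨q, ?_⟩
  apply Subtype.ext
  rw [ev_coe]
  exact hq

lemma ev_ker (hK : S_KER) (c : Ch) :
    RingHom.ker (ev c) = Ideal.span {FF c.2.1 c.2.2} := by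
  rw [← hK c]
  ext q
  rw [RingHom.mem_ker, RingHom.mem_ker]
  rw [← ev_coe]
  constructor
  · intro h
    have : ev c q = 0 := h
    rw [this]; rfl
  · intro h
    exact Subtype.ext h

/-- An endomorphism `X m ↦ s m`: its kernel is `I` if `I` is killed and `X m - s m ∈ I`. -/
lemma ker_endo {n : ℕ} (s : Fin n → MvPolynomial (Fin n) ℂ) (I : Ideal (MvPolynomial (Fin n) ℂ))
    (h1 : ∀ m, X m - s m ∈ I) (h2 : ∀ q ∈ I, aeval s q = 0) : I.IsPrime := by
  have h3 : ∀ q : MvPolynomial (Fin n) ℂ, q - aeval s q ∈ I := by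
    intro q
    induction q using MvPolynomial.induction_on with
    | C a => simp [MvPolynomial.algebraMap_eq]
    | add p q hp hq =>
      rw [map_add]
      have : p + q - (aeval s p + aeval s q) = (p - aeval s p) + (q - aeval s q) := by ring
      rw [this]; exact I.add_mem hp hq
    | mul_X p m hp =>
      rw [map_mul, aeval_X]
      have : p * X m - aeval s p * s m = (p - aeval s p) * X m + aeval s p * (X m - s m) := by ring
      rw [this]; exact I.add_mem (I.mul_mem_right _ hp) (I.mul_mem_left _ (h1 m))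
  have h4 : I = RingHom.ker (aeval s : MvPolynomial (Fin n) ℂ →ₐ[ℂ] MvPolynomial (Fin n) ℂ) := by
    apply le_antisymm
    · intro q hq
      exact h2 q hq
    · intro q hq
      have h5 : aeval s q = 0 := hq
      have := h3 q
      rwa [h5, sub_zero] at this
  rw [h4]
  exact RingHom.ker_isPrime _

/-- Images of prime ideals containing the equation are prime. -/
lemma map_prime (hK : S_KER) (c : Ch) (I : Ideal (MvPolynomial (Fin 5) ℂ)) (hI : I.IsPrime)
    (hF : FF c.2.1 c.2.2 ∈ I) : (I.map (ev c)).IsPrime := by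
  have := hI
  apply Ideal.map_isPrime_of_surjective (ev_surj c)
  rw [ev_ker hK c, Ideal.span_le]
  simpa using hF

lemma gen_ne (hR : S_REL) (c : Ch) (m : Fin 5) (hm : m ≠ 4) : gA c m ≠ 0 := by
  obtain ⟨-, -, hct, hca, hcb, hcs, -⟩ := hR
  have hW : ∀ k, W k ≠ 0 := by
    intro k; fin_cases k <;> simp [W, hca, hcb]
  intro h
  have h' : gen c m = 0 := congrArg Subtype.val h
  obtain ⟨k, j, i⟩ := c
  fin_cases m
  · simp [gen, hW] at h'
  · simp [gen, hW] at h'
  · cases j <;> simp [gen, hW, hct] at h'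
  · cases i <;> simp [gen, hW, hcs] at h'
  · exact hm rfl

end PrimeAux

end FB
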