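import Mathlib
import Pool.Agent.T2h12.FB.PrimeAux

set_option autoImplicit false

namespace FB

open FanoFib FanoFib.Tor MvPolynomial PrimeAux

namespace BNDaux

variable (v : AddValuation K4 (WithTop ℤ))

/-- The order as an integer. -/
noncomputable def o (f : K4) : ℤ := (v f).untopD 0

lemma v_eq {f : K4} (hf : f ≠ 0) : v f = (o v f : WithTop ℤ) := by
  have h : v f ≠ ⊤ := fun h => hf (v.top_iff.1 h)
  unfold o
  obtain ⟨n, hn⟩ := WithTop.ne_top_iff_exists.1 h
  rw [← hn]; rfl

lemma o_of {f : K4} {n : ℤ} (h : v f = (n : WithTop ℤ)) : o v f = n := by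
  unfold o; rw [h]; rfl

lemma o_mul {f g : K4} (hf : f ≠ 0) (hg : g ≠ 0) : o v (f * g) = o v f + o v g := by
  apply o_of
  rw [v.map_mul, v_eq v hf, v_eq v hg]
  norm_cast

lemma o_one : o v 1 = 0 := by
  apply o_of
  rw [v.map_one]; rfl

lemma o_inv {f : K4} (hf : f ≠ 0) : o v f⁻¹ = - o v f := by
  have h := o_mul v hf (inv_ne_zero hf)
  rw [mul_inv_cancel₀ hf, o_one] at h
  omega

lemma o_div {f g : K4} (hf : f ≠ 0) (hg : g ≠ 0) : o v (f / g) = o v f - o v g := by
  rw [div_eq_mul_inv, o_mul v hf (inv_ne_zero hg), o_inv v hg]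
  omega

lemma o_sq {f : K4} (hf : f ≠ 0) : o v (f ^ 2) = 2 * o v f := by
  rw [pow_two, o_mul v hf hf]; omega

lemma nonneg_iff {f : K4} (hf : f ≠ 0) : 0 ≤ v f ↔ 0 ≤ o v f := by
  rw [v_eq v hf]
  exact_mod_cast Iff.rfl

lemma pos_iff {f : K4} (hf : f ≠ 0) : 0 < v f ↔ 0 < o v f := by
  rw [v_eq v hf]
  exact_mod_cast Iff.rfl

/-- The orders of the coordinates. -/
lemma orders (hR : S_REL) (k : Fin 3) (j i : Bool) :
    W k ≠ 0 ∧ (∀ m : Fin 5, gen (k, j, i) m ≠ 0) ∧
    o v (gen (k, j, i) 0) = o v (W (k.succAbove 0)) - o v (W k) ∧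
    o v (gen (k, j, i) 1) = o v (W (k.succAbove 1)) - o v (W k) ∧
    o v (gen (k, j, i) 2) = (if j then o v ct - 2 * o v (W k) else 2 * o v (W k) - o v ct) ∧
    o v (gen (k, j, i) 3) = (if i then o v cs - o v (W k) else o v (W k) - o v cs) ∧
    o v (gen (k, j, i) 4) = o v cu + o v (W k) - ((if j then 2 * o v (W k) else o v ct) +
      (if i then o v (W k) else o v cs)) := by
  obtain ⟨-, -, hct, hca, hcb, hcs, hcu, -⟩ := hR
  have hW : ∀ k, W k ≠ 0 := by
    intro k; fin_cases k <;> simp [W, hca, hcb]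
  have heta : eta (k, j, i) ≠ 0 := by cases j <;> simp [eta, hW, hct]
  have hzeta : zeta (k, j, i) ≠ 0 := by cases i <;> simp [zeta, hW, hcs]
  have g2 : gen (k, j, i) 2 = if j then ct / W k ^ 2 else W k ^ 2 / ct := rfl
  have g3 : gen (k, j, i) 3 = if i then cs / W k else W k / cs := rfl
  have g4 : gen (k, j, i) 4 = cu * W k / (eta (k, j, i) * zeta (k, j, i)) := rfl
  refine ⟨hW k, ?_, ?_, ?_, ?_, ?_, ?_⟩
  · intro m
    fin_cases m
    · exact div_ne_zero (hW _) (hW _)
    · exact div_ne_zero (hW _) (hW _)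
    · show gen (k, j, i) 2 ≠ 0
      rw [g2]; cases j <;> simp [hW, hct]
    · show gen (k, j, i) 3 ≠ 0
      rw [g3]; cases i <;> simp [hW, hcs]
    · show gen (k, j, i) 4 ≠ 0
      rw [g4]; exact div_ne_zero (mul_ne_zero hcu (hW _)) (mul_ne_zero heta hzeta)
  · exact o_div v (hW _) (hW _)
  · exact o_div v (hW _) (hW _)
  · rw [g2]
    cases j
    · simp only [Bool.false_eq_true, if_false]
      rw [o_div v (pow_ne_zero _ (hW _)) hct, o_sq v (hW _)]
    · simp only [if_true]
      rw [o_div v hct (pow_ne_zero _ (hW _)), o_sq v (hW _)]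
  · rw [g3]
    cases i
    · simp only [Bool.false_eq_true, if_false]
      rw [o_div v (hW _) hcs]
    · simp only [if_true]
      rw [o_div v hcs (hW _)]
  · rw [g4, o_div v (mul_ne_zero hcu (hW _)) (mul_ne_zero heta hzeta), o_mul v hcu (hW _),
      o_mul v heta hzeta]
    congr 2
    · cases j
      · simp [eta]
      · simp only [eta, if_true]; rw [o_sq v (hW _)]
    · cases i <;> simp [zeta]

lemma nonneg_A (hconst : ∀ z : ℂ, z ≠ 0 → v (algebraMap ℂ K4 z) = 0) (c : Ch)
    (h : ∀ m, 0 ≤ v (gen c m)) : ∀ x ∈ A c, 0 ≤ v x := by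
  intro x hx
  induction hx using Algebra.adjoin_induction with
  | mem x hx => obtain ⟨m, rfl⟩ := hx; exact h m
  | algebraMap z =>
    by_cases hz : z = 0
    · rw [hz, map_zero, v.map_zero]; exact le_top
    · rw [hconst z hz]
  | add x y _ _ hx hy => exact le_trans (le_min hx hy) (v.map_add x y)
  | mul x y _ _ hx hy => rw [v.map_mul]; exact add_nonneg hx hy

lemma pos_span (c : Ch) (hA : ∀ x ∈ A c, 0 ≤ v x) (S : Set (A c))
    (hS : ∀ s ∈ S, 0 < v (s : K4)) : ∀ x ∈ Ideal.span S, 0 < v (x : K4) := by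
  intro x hx
  induction hx using Submodule.span_induction with
  | mem x hx => exact hS x hx
  | zero =>
    have : ((0 : A c) : K4) = 0 := rfl
    rw [this, v.map_zero]; exact WithTop.coe_lt_top 0
  | add x y _ _ hx hy =>
    exact lt_of_lt_of_le (lt_min hx hy) (v.map_add (x : K4) (y : K4))
  | smul a x _ hx =>
    have : ((a • x : A c) : K4) = (a : K4) * (x : K4) := rfl
    rw [this, v.map_mul]
    exact lt_of_lt_of_le hx (le_add_of_nonneg_left (hA _ a.2))

end BNDaux

open BNDaux

theorem t_BND (hUNI : S_UNI) (hREL : S_REL) (hPRW : S_PRW) (hPRP : S_PRP) (hPRE : S_PRE) :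
    S_BND := by
  intro h Ew Ep E1 E2 hEw hEp hE1 hE2 D
  have hR := hREL
  obtain ⟨-, -, hct, hca, hcb, hcs, hcu, -, hF, -⟩ := hREL
  have hW1 : W 1 = ca := rfl
  have hW2 : W 2 = cb := rfl
  have hW0 : W 0 = 1 := rfl
  -- abstract valuations
  obtain ⟨vw, hvw⟩ : ∃ vw : AddValuation K4 (WithTop ℤ), vw = Ew.1.v := ⟨_, rfl⟩
  obtain ⟨vp, hvp⟩ : ∃ vp : AddValuation K4 (WithTop ℤ), vp = Ep.1.v := ⟨_, rfl⟩
  obtain ⟨v1, hv1⟩ : ∃ v1 : AddValuation K4 (WithTop ℤ), v1 = E1.1.v := ⟨_, rfl⟩
  obtain ⟨v2, hv2⟩ : ∃ v2 : AddValuation K4 (WithTop ℤ), v2 = E2.1.v := ⟨_, rfl⟩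
  obtain ⟨vD, hvD⟩ : ∃ vD : AddValuation K4 (WithTop ℤ), vD = D.1.v := ⟨_, rfl⟩
  have cw : ∀ z : ℂ, z ≠ 0 → vw (algebraMap ℂ K4 z) = 0 := by rw [hvw]; exact Ew.1.const
  have cp : ∀ z : ℂ, z ≠ 0 → vp (algebraMap ℂ K4 z) = 0 := by rw [hvp]; exact Ep.1.const
  have c1 : ∀ z : ℂ, z ≠ 0 → v1 (algebraMap ℂ K4 z) = 0 := by rw [hv1]; exact E1.1.const
  have c2 : ∀ z : ℂ, z ≠ 0 → v2 (algebraMap ℂ K4 z) = 0 := by rw [hv2]; exact E2.1.const
  have cD : ∀ z : ℂ, z ≠ 0 → vD (algebraMap ℂ K4 z) = 0 := by rw [hvD]; exact D.1.const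
  obtain ⟨⟨k, j, i⟩, hc, -⟩ := D.2
  have hAD : ∀ x ∈ A (k, j, i), 0 ≤ vD x := by rw [hvD]; exact hc
  obtain ⟨hWk, hg, g0, g1, g2, g3, g4⟩ := orders vD hR k j i
  have hn : ∀ m, 0 ≤ o vD (gen (k, j, i) m) := fun m =>
    (nonneg_iff vD (hg m)).1 (hAD _ (gen_mem _ m))
  have w0 : o vD (W 0) = 0 := o_one vD
  -- case 1
  by_cases h1 : k ≠ 0 ∧ 0 < vD (gen (k, j, i) 0)
  · right; left
    obtain ⟨hk, hpos⟩ := h1
    obtain ⟨ew1, ew2, ew3, ew4, ew5⟩ := hEw
    rw [← hvw] at ew1 ew2 ew3 ew4 ew5
    obtain ⟨-, hg', g0', g1', g2', g3', g4'⟩ := orders vw hR k j i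
    have q1 : o vw (W 1) = -1 := o_of vw ew1
    have q2 : o vw (W 2) = -1 := o_of vw ew2
    have q3 : o vw cs = -1 := o_of vw ew3
    have q4 : o vw cu = -2 := o_of vw ew4
    have q5 : o vw ct = -2 := o_of vw ew5
    have q0 : o vw (W 0) = 0 := o_one vw
    have hposw : 0 < o vw (gen (k, j, i) 0) := by
      rw [g0']
      fin_cases k
      · exact absurd rfl hk
      · show 0 < o vw (W 0) - o vw (W 1); omega
      · show 0 < o vw (W 0) - o vw (W 2); omega
    have hAw : ∀ x ∈ A (k, j, i), 0 ≤ vw x := by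
      apply nonneg_A vw cw
      intro m
      rw [nonneg_iff vw (hg' m)]
      have hwk : o vw (W k) = -1 := by
        fin_cases k
        · exact absurd rfl hk
        · exact q1
        · exact q2
      fin_cases m
      · exact hposw.le
      · show 0 ≤ o vw (gen (k, j, i) 1)
        rw [g1']
        fin_cases k
        · exact absurd rfl hk
        · show 0 ≤ o vw (W 2) - o vw (W 1); omega
        · show 0 ≤ o vw (W 1) - o vw (W 2); omega
      · show 0 ≤ o vw (gen (k, j, i) 2)
        rw [g2', hwk, q5]; cases j <;> simp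
      · show 0 ≤ o vw (gen (k, j, i) 3)
        rw [g3', hwk, q3]; cases i <;> simp
      · show 0 ≤ o vw (gen (k, j, i) 4)
        rw [g4', hwk, q3, q4, q5]; cases i <;> cases j <;> simp
    refine hUNI (Xv h) D Ew ((k, j, i) : Ch) (Ideal.span {gA (k, j, i) 0}) ?_ ?_ ?_ ?_ ?_ ?_
    · have := hPRW (k, j, i)
      exact (Ideal.span_singleton_prime this.ne_zero).2 this
    · have := hPRW (k, j, i)
      intro hb
      exact this.ne_zero (Ideal.span_singleton_eq_bot.1 hb)
    · exact hc
    · rw [← hvw]; exact hAw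
    · have := pos_span vD (k, j, i) hAD {gA (k, j, i) 0} (by rintro s rfl; exact hpos)
      rw [hvD] at this; exact this
    · have := pos_span vw (k, j, i) hAw {gA (k, j, i) 0}
        (by rintro s rfl; exact (pos_iff vw (hg' 0)).2 hposw)
      rw [hvw] at this; exact this
  have hk0 : o vD (W k) = 0 := by
    by_cases hk : k = 0
    · rw [hk]; exact w0
    · have h2 : ¬ 0 < vD (gen (k, j, i) 0) := fun h3 => h1 ⟨hk, h3⟩
      rw [pos_iff vD (hg 0)] at h2
      have h3 := hn 0
      have h4 : o vD (W (k.succAbove 0)) = 0 := by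
        rw [Fin.succAbove_ne_zero_zero hk]; exact w0
      omega
  -- case 2
  by_cases h2 : i = false ∧ 0 < vD (gen (k, j, i) 3)
  · right; right; left
    obtain ⟨rfl, hpos⟩ := h2
    obtain ⟨ew1, ew2, ew3, ew4, ew5⟩ := hEp
    rw [← hvp] at ew1 ew2 ew3 ew4 ew5
    obtain ⟨-, hg', g0', g1', g2', g3', g4'⟩ := orders vp hR k j false
    have q1 : o vp (W 1) = 0 := o_of vp ew1
    have q2 : o vp (W 2) = 0 := o_of vp ew2
    have q3 : o vp cs = -1 := o_of vp ew3
    have q4 : o vp cu = -1 := o_of vp ew4
    have q5 : o vp ct = 0 := o_of vp ew5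
    have q0 : o vp (W 0) = 0 := o_one vp
    have qW : ∀ l, o vp (W l) = 0 := by
      intro l; fin_cases l
      · exact q0
      · exact q1
      · exact q2
    rw [qW] at g0' g1' g2' g3' g4'
    rw [qW] at g0' g1'
    have hposw : 0 < o vp (gen (k, j, false) 3) := by
      rw [g3', q3]; simp
    have hAw : ∀ x ∈ A (k, j, false), 0 ≤ vp x := by
      apply nonneg_A vp cp
      intro m
      rw [nonneg_iff vp (hg' m)]
      fin_cases m
      · show 0 ≤ o vp (gen (k, j, false) 0)
        rw [g0']; simp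
      · show 0 ≤ o vp (gen (k, j, false) 1)
        rw [g1']; simp
      · show 0 ≤ o vp (gen (k, j, false) 2)
        rw [g2', q5]; cases j <;> simp
      · exact hposw.le
      · show 0 ≤ o vp (gen (k, j, false) 4)
        rw [g4', q3, q4, q5]; cases j <;> simp
    refine hUNI (Xv h) D Ep ((k, j, false) : Ch) (Ideal.span {gA (k, j, false) 3}) ?_ ?_ ?_ ?_ ?_ ?_
    · have := hPRP k j
      exact (Ideal.span_singleton_prime this.ne_zero).2 this
    · have := hPRP k j
      intro hb
      exact this.ne_zero (Ideal.span_singleton_eq_bot.1 hb)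
    · exact hc
    · rw [← hvp]; exact hAw
    · have := pos_span vD (k, j, false) hAD {gA (k, j, false) 3} (by rintro s rfl; exact hpos)
      rw [hvD] at this; exact this
    · have := pos_span vp (k, j, false) hAw {gA (k, j, false) 3}
        (by rintro s rfl; exact (pos_iff vp (hg' 3)).2 hposw)
      rw [hvp] at this; exact this
  have hi0 : i = false → o vD cs = 0 := by
    intro hi
    have h3 : ¬ 0 < vD (gen (k, j, i) 3) := fun h4 => h2 ⟨hi, h4⟩
    rw [pos_iff vD (hg 3)] at h3
    have h4 := hn 3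
    rw [hi] at h3 h4 g3
    simp only [Bool.false_eq_true, if_false] at g3
    omega
  -- case 3
  by_cases h3 : j = false ∧ 0 < vD (gen (k, j, i) 2)
  · right; right; right
    obtain ⟨rfl, hpos⟩ := h3
    obtain ⟨p, hp⟩ : ∃ p : A (k, false, i), p = (if i then 1 else gA (k, false, i) 3) := ⟨_, rfl⟩
    -- the relation
    have hrel : (gA (k, false, i) 4) * (gA (k, false, i) 4 + p) =
        gA (k, false, i) 2 * ((if i then gA (k, false, i) 3 else 1) ^ 2 -
          (1 + gA (k, false, i) 0 ^ 4 + gA (k, false, i) 1 ^ 4) * gA (k, false, i) 2 * p ^ 2) := by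
      apply Subtype.ext
      have h4 := hF (k, false, i)
      rw [hp]
      cases i
      · simp only [FF, map_add, map_sub, map_mul, map_pow, aeval_X, map_one, Bool.false_eq_true,
          if_false] at h4
        simp only [Bool.false_eq_true, if_false]
        push_cast
        show gen (k, false, false) 4 * (gen (k, false, false) 4 + gen (k, false, false) 3) =
          gen (k, false, false) 2 * (1 ^ 2 - (1 + gen (k, false, false) 0 ^ 4 +
            gen (k, false, false) 1 ^ 4) * gen (k, false, false) 2 * gen (k, false, false) 3 ^ 2)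
        linear_combination h4
      · simp only [FF, map_add, map_sub, map_mul, map_pow, aeval_X, map_one, Bool.false_eq_true,
          if_false, if_true] at h4
        simp only [if_true]
        push_cast
        show gen (k, false, true) 4 * (gen (k, false, true) 4 + 1) =
          gen (k, false, true) 2 * (gen (k, false, true) 3 ^ 2 - (1 + gen (k, false, true) 0 ^ 4 +
            gen (k, false, true) 1 ^ 4) * gen (k, false, true) 2 * 1 ^ 2)
        linear_combination h4
    have hpr := hPRE k i
    rw [← hp] at hpr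
    have hdich : 0 < vD (gen (k, false, i) 4) ∨ 0 < vD (gen (k, false, i) 4 + (p : K4)) := by
      by_contra hcon
      push Not at hcon
      obtain ⟨ha, hb⟩ := hcon
      have h4 : vD (gen (k, false, i) 4 * (gen (k, false, i) 4 + (p : K4))) ≤ 0 := by
        rw [vD.map_mul]
        exact add_nonpos ha hb
      have h5 : gen (k, false, i) 4 * (gen (k, false, i) 4 + (p : K4)) =
          (((gA (k, false, i) 4) * (gA (k, false, i) 4 + p) : A (k, false, i)) : K4) := rfl
      rw [h5, hrel] at h4
      have h6 : 0 < vD ((gA (k, false, i) 2 * ((if i then gA (k, false, i) 3 else 1) ^ 2 -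
          (1 + gA (k, false, i) 0 ^ 4 + gA (k, false, i) 1 ^ 4) * gA (k, false, i) 2 * p ^ 2) :
            A (k, false, i)) : K4) := by
        rw [MulMemClass.coe_mul, vD.map_mul]
        refine lt_of_lt_of_le hpos (le_add_of_nonneg_right (hAD _ (Subtype.property _)))
      exact absurd h4 (not_le.2 h6)
    have hne2 : gA (k, false, i) 2 ≠ 0 := gen_ne hR _ 2 (by decide)
    rcases hdich with hd | hd
    · left
      obtain ⟨ew1, ew2, ew3, ew4, ew5⟩ := hE1
      rw [← hv1] at ew1 ew2 ew3 ew4 ew5
      obtain ⟨-, hg', g0', g1', g2', g3', g4'⟩ := orders v1 hR k false i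
      have q1 : o v1 (W 1) = 0 := o_of v1 ew1
      have q2 : o v1 (W 2) = 0 := o_of v1 ew2
      have q3 : o v1 cs = 0 := o_of v1 ew3
      have q4 : o v1 cu = 0 := o_of v1 ew4
      have q5 : o v1 ct = -1 := o_of v1 ew5
      have q0 : o v1 (W 0) = 0 := o_one v1
      have qW : ∀ l, o v1 (W l) = 0 := by
        intro l; fin_cases l
        · exact q0
        · exact q1
        · exact q2
      rw [qW] at g0' g1' g2' g3' g4'
      rw [qW] at g0' g1'
      have hpos2 : 0 < o v1 (gen (k, false, i) 2) := by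
        rw [g2', q5]; simp
      have hpos4 : 0 < o v1 (gen (k, false, i) 4) := by
        rw [g4', q3, q4, q5]; cases i <;> simp
      have hAw : ∀ x ∈ A (k, false, i), 0 ≤ v1 x := by
        apply nonneg_A v1 c1
        intro m
        rw [nonneg_iff v1 (hg' m)]
        fin_cases m
        · show 0 ≤ o v1 (gen (k, false, i) 0)
          rw [g0']; simp
        · show 0 ≤ o v1 (gen (k, false, i) 1)
          rw [g1']; simp
        · exact hpos2.le
        · show 0 ≤ o v1 (gen (k, false, i) 3)
          rw [g3', q3]; cases i <;> simp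
        · exact hpos4.le
      refine hUNI (Xv h) D E1 ((k, false, i) : Ch)
        (Ideal.span {gA (k, false, i) 2, gA (k, false, i) 4}) ?_ ?_ ?_ ?_ ?_ ?_
      · exact hpr.1
      · intro hb
        apply hne2
        have : gA (k, false, i) 2 ∈ Ideal.span {gA (k, false, i) 2, gA (k, false, i) 4} :=
          Ideal.subset_span (by simp)
        have hb' : Ideal.span {gA (k, false, i) 2, gA (k, false, i) 4} = ⊥ := hb
        rw [hb'] at this
        exact this
      · exact hc
      · rw [← hv1]; exact hAw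
      · have := pos_span vD (k, false, i) hAD {gA (k, false, i) 2, gA (k, false, i) 4}
          (by rintro s (rfl | rfl); exacts [hpos, hd])
        rw [hvD] at this; exact this
      · have := pos_span v1 (k, false, i) hAw {gA (k, false, i) 2, gA (k, false, i) 4}
          (by
            rintro s (rfl | rfl)
            · exact (pos_iff v1 (hg' 2)).2 hpos2
            · exact (pos_iff v1 (hg' 4)).2 hpos4)
        rw [hv1] at this; exact this
    · right
      obtain ⟨ew1, ew2, ew3, ew4, ew5, ew6⟩ := hE2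
      rw [← hv2] at ew1 ew2 ew3 ew4 ew5 ew6
      obtain ⟨-, hg', g0', g1', g2', g3', g4'⟩ := orders v2 hR k false i
      have q1 : o v2 (W 1) = 0 := o_of v2 ew1
      have q2 : o v2 (W 2) = 0 := o_of v2 ew2
      have q3 : o v2 cs = 0 := o_of v2 ew3
      have q4 : o v2 cu = -1 := o_of v2 ew4
      have q5 : o v2 ct = -1 := o_of v2 ew5
      have q0 : o v2 (W 0) = 0 := o_one v2
      have qW : ∀ l, o v2 (W l) = 0 := by
        intro l; fin_cases l
        · exact q0
        · exact q1
        · exact q2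
      have ew6' : v2 (cu + ct) = 0 := ew6
      have hut : cu + ct ≠ 0 := by
        intro h0
        rw [h0, v2.map_zero] at ew6'
        exact absurd ew6' (by simp)
      have q6 : o v2 (cu + ct) = 0 := o_of v2 ew6'
      have hsum : gen (k, false, i) 4 + (p : K4) = (cu + ct) / ct * (W k / zeta (k, false, i)) := by
        have g4e : gen (k, false, i) 4 = cu * W k / (ct * zeta (k, false, i)) := rfl
        have hz : zeta (k, false, i) ≠ 0 := by cases i <;> simp [zeta, hWk, hcs]
        have hpe : (p : K4) = W k / zeta (k, false, i) := by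
          rw [hp]
          cases i
          · simp only [Bool.false_eq_true, if_false, zeta]; rfl
          · simp only [if_true, zeta]
            rw [div_self hWk]; rfl
        rw [g4e, hpe]
        field_simp
      have hz : zeta (k, false, i) ≠ 0 := by cases i <;> simp [zeta, hWk, hcs]
      have hsum0 : gen (k, false, i) 4 + (p : K4) ≠ 0 := by
        rw [hsum]
        exact mul_ne_zero (div_ne_zero hut hct) (div_ne_zero hWk hz)
      have hpos4 : 0 < o v2 (gen (k, false, i) 4 + (p : K4)) := by
        rw [hsum, o_mul v2 (div_ne_zero hut hct) (div_ne_zero hWk hz), o_div v2 hut hct,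
          o_div v2 hWk hz, q6, q5, qW]
        have : o v2 (zeta (k, false, i)) = 0 := by
          cases i
          · simp [zeta, q3]
          · simp [zeta, qW]
        rw [this]; simp
      rw [qW] at g0' g1' g2' g3' g4'
      rw [qW] at g0' g1'
      have hpos2 : 0 < o v2 (gen (k, false, i) 2) := by
        rw [g2', q5]; simp
      have hAw : ∀ x ∈ A (k, false, i), 0 ≤ v2 x := by
        apply nonneg_A v2 c2
        intro m
        rw [nonneg_iff v2 (hg' m)]
        fin_cases m
        · show 0 ≤ o v2 (gen (k, false, i) 0)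
          rw [g0']; simp
        · show 0 ≤ o v2 (gen (k, false, i) 1)
          rw [g1']; simp
        · exact hpos2.le
        · show 0 ≤ o v2 (gen (k, false, i) 3)
          rw [g3', q3]; cases i <;> simp
        · show 0 ≤ o v2 (gen (k, false, i) 4)
          rw [g4', q3, q4, q5]; cases i <;> simp
      refine hUNI (Xv h) D E2 ((k, false, i) : Ch)
        (Ideal.span {gA (k, false, i) 2, gA (k, false, i) 4 + p}) ?_ ?_ ?_ ?_ ?_ ?_
      · exact hpr.2
      · intro hb
        apply hne2
        have : gA (k, false, i) 2 ∈ Ideal.span {gA (k, false, i) 2, gA (k, false, i) 4 + p} :=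
          Ideal.subset_span (by simp)
        have hb' : Ideal.span {gA (k, false, i) 2, gA (k, false, i) 4 + p} = ⊥ := hb
        rw [hb'] at this
        exact this
      · exact hc
      · rw [← hv2]; exact hAw
      · have := pos_span vD (k, false, i) hAD {gA (k, false, i) 2, gA (k, false, i) 4 + p}
          (by rintro s (rfl | rfl); exacts [hpos, hd])
        rw [hvD] at this; exact this
      · have := pos_span v2 (k, false, i) hAw {gA (k, false, i) 2, gA (k, false, i) 4 + p}
          (by
            rintro s (rfl | rfl)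
            · exact (pos_iff v2 (hg' 2)).2 hpos2
            · exact (pos_iff v2 hsum0).2 hpos4)
        rw [hv2] at this; exact this
  have hj0 : j = false → o vD ct = 0 := by
    intro hj
    have h4 : ¬ 0 < vD (gen (k, j, i) 2) := fun h4 => h3 ⟨hj, h4⟩
    rw [pos_iff vD (hg 2)] at h4
    have h5 := hn 2
    rw [hj] at h4 h5 g2
    simp only [Bool.false_eq_true, if_false] at g2
    omega
  -- case 4
  left
  have hall : ∀ l, 0 ≤ o vD (W l) := by
    intro l
    by_cases hl : l = k
    · rw [hl]; omega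
    · obtain ⟨m, hm⟩ := Fin.exists_succAbove_eq hl
      rw [← hm]
      fin_cases m
      · have := hn 0
        show 0 ≤ o vD (W (k.succAbove 0)); omega
      · have := hn 1
        show 0 ≤ o vD (W (k.succAbove 1)); omega
  have n2 := hn 2
  have n3 := hn 3
  have n4 := hn 4
  have hcts : 0 ≤ o vD ct := by
    cases j
    · rw [hj0 rfl]
    · simp only [if_true] at g2; omega
  have hcss : 0 ≤ o vD cs := by
    cases i
    · rw [hi0 rfl]
    · simp only [if_true] at g3; omega
  have hcus : 0 ≤ o vD cu := by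
    cases i <;> cases j
    · have a1 := hj0 rfl
      have a2 := hi0 rfl
      simp only [Bool.false_eq_true, if_false] at g4; omega
    · have a2 := hi0 rfl
      simp only [Bool.false_eq_true, if_false, if_true] at g4; omega
    · have a1 := hj0 rfl
      simp only [Bool.false_eq_true, if_false, if_true] at g4; omega
    · simp only [if_true] at g4; omega
  have hfin : ∀ x ∈ A (0, true, true), 0 ≤ vD x := by
    apply nonneg_A vD cD
    intro m
    obtain ⟨-, hg', g0', g1', g2', g3', g4'⟩ := orders vD hR 0 true true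
    rw [nonneg_iff vD (hg' m)]
    simp only [if_true] at g2' g3' g4'
    fin_cases m
    · show 0 ≤ o vD (gen (0, true, true) 0)
      rw [g0', w0]; have := hall ((0 : Fin 3).succAbove 0); omega
    · show 0 ≤ o vD (gen (0, true, true) 1)
      rw [g1', w0]; have := hall ((0 : Fin 3).succAbove 1); omega
    · show 0 ≤ o vD (gen (0, true, true) 2)
      rw [g2', w0]; omega
    · show 0 ≤ o vD (gen (0, true, true) 3)
      rw [g3', w0]; omega
    · show 0 ≤ o vD (gen (0, true, true) 4)
      rw [g4', w0]; omega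
  rw [hvD] at hfin
  exact hfin

end FB
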