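import Pool.Agent.T2h12.FB.ValAux

/-!
# Project FB, task CLG
-/

set_option autoImplicit false

namespace FB

open FanoFib
open Val (exists_int)

namespace Clg

variable {X : SmoothProperVariety}

open Classical in
/-- combinations of given prime divisors -/
noncomputable def cyc {r : ℕ} (E : Fin r → X.PrimeDiv) : (Fin r → ℤ) →+ (X.PrimeDiv →₀ ℤ) where
  toFun n := ∑ i, Finsupp.single (E i) (n i)
  map_zero' := by simp
  map_add' n m := by
    rw [← Finset.sum_add_distrib]
    exact Finset.sum_congr rfl fun i _ => by rw [Pi.add_apply, Finsupp.single_add]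

theorem cyc_apply {r : ℕ} {E : Fin r → X.PrimeDiv} (hE : Function.Injective E) (n : Fin r → ℤ)
    (i : Fin r) : cyc E n (E i) = n i := by
  classical
  show (∑ j, Finsupp.single (E j) (n j)) (E i) = n i
  rw [Finsupp.finsetSum_apply, Finset.sum_eq_single i]
  · exact Finsupp.single_eq_same
  · intro j _ hj
    rw [Finsupp.single_apply, if_neg fun h => hj (hE h)]
  · intro h
    exact absurd (Finset.mem_univ i) h

theorem cyc_ne {r : ℕ} {E : Fin r → X.PrimeDiv} (n : Fin r → ℤ) (D : X.PrimeDiv)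
    (hD : ∀ i, D ≠ E i) : cyc E n D = 0 := by
  classical
  show (∑ j, Finsupp.single (E j) (n j)) D = 0
  rw [Finsupp.finsetSum_apply]
  refine Finset.sum_eq_zero fun j _ => ?_
  rw [Finsupp.single_apply, if_neg fun h => hD j h.symm]

end Clg

open Clg in
theorem t_CLG (hDVC : S_DVC) (hUNI : S_UNI) : S_CLG := by
  intro X c0 hufd hunit r E hE hpole hout
  -- the divisor of a prime element
  have hdiv : ∀ π : X.ring c0, Prime π → ∃ D : X.PrimeDiv, (∀ x ∈ X.ring c0, 0 ≤ D.1.v x) ∧
      (∀ b : X.ring c0, ¬ π ∣ b → D.1.v (b : X.K) = 0) ∧ D.1.v (π : X.K) = 1 := by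
    intro π hπ
    obtain ⟨F, h1, h2, h3, h4⟩ := hDVC X (X.ring c0) (X.fg c0) (X.frac c0) π hπ
    exact ⟨⟨F, c0, fun a ha => h1 ⟨a, ha⟩, h4⟩, fun a ha => h1 ⟨a, ha⟩, h2, h3⟩
  have huniq : ∀ (D D' : X.PrimeDiv) (π : X.ring c0), Prime π → (∀ x ∈ X.ring c0, 0 ≤ D.1.v x) →
      (∀ x ∈ X.ring c0, 0 ≤ D'.1.v x) → 0 < D.1.v (π : X.K) → 0 < D'.1.v (π : X.K) → D = D' := by
    intro D D' π hπ h1 h2 h3 h4
    have hQ : (Ideal.span {π} : Ideal (X.ring c0)).IsPrime :=
      (Ideal.span_singleton_prime hπ.ne_zero).2 hπ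
    refine hUNI X D D' c0 (Ideal.span {π}) hQ ?_ h1 h2 ?_ ?_
    · rw [Ne, Ideal.span_singleton_eq_bot]
      exact hπ.ne_zero
    · intro x hx
      obtain ⟨y, rfl⟩ := Ideal.mem_span_singleton'.1 hx
      show 0 < D.1.v ((y : X.K) * π)
      rw [D.1.v.map_mul]
      exact lt_of_lt_of_le h3 (le_add_of_nonneg_left (h1 y y.2))
    · intro x hx
      obtain ⟨y, rfl⟩ := Ideal.mem_span_singleton'.1 hx
      show 0 < D'.1.v ((y : X.K) * π)
      rw [D'.1.v.map_mul]
      exact lt_of_lt_of_le h4 (le_add_of_nonneg_left (h2 y y.2))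
  -- divisibility
  have hdvd : ∀ b : X.ring c0, b ≠ 0 → ∀ a : X.ring c0,
      (∀ D : X.PrimeDiv, (∀ x ∈ X.ring c0, 0 ≤ D.1.v x) → D.1.v (b : X.K) ≤ D.1.v (a : X.K)) →
      b ∣ a := by
    intro b
    induction b using UniqueFactorizationMonoid.induction_on_prime with
    | h₁ => exact fun h => absurd rfl h
    | h₂ x hx => exact fun _ a _ => hx.dvd
    | h₃ b p hb hp ih =>
      intro _ a ha
      obtain ⟨D, hD1, hD2, hD3⟩ := hdiv p hp
      have hpa : p ∣ a := by
        by_contra hcon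
        have h1 := ha D hD1
        rw [hD2 a hcon] at h1
        have h2 : D.1.v ((p * b : X.ring c0) : X.K) = D.1.v (p : X.K) + D.1.v (b : X.K) :=
          D.1.v.map_mul _ _
        rw [h2, hD3] at h1
        have h3 : (1 : WithTop ℤ) ≤ 1 + D.1.v (b : X.K) := le_add_of_nonneg_right (hD1 b b.2)
        have h4 := h3.trans h1
        exact absurd h4 (not_le.2 zero_lt_one)
      obtain ⟨a', rfl⟩ := hpa
      refine mul_dvd_mul_left p (ih hb a' fun D' hD' => ?_)
      have h1 := ha D' hD'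
      have h2 : D'.1.v ((p * b : X.ring c0) : X.K) = D'.1.v (p : X.K) + D'.1.v (b : X.K) :=
        D'.1.v.map_mul _ _
      have h3 : D'.1.v ((p * a' : X.ring c0) : X.K) = D'.1.v (p : X.K) + D'.1.v (a' : X.K) :=
        D'.1.v.map_mul _ _
      rw [h2, h3] at h1
      obtain ⟨m, hm⟩ := exists_int D'.1.v (f := (p : X.K)) (fun h => hp.ne_zero (Subtype.ext h))
      rw [hm] at h1
      exact (WithTop.add_le_add_iff_left (WithTop.coe_ne_top)).1 h1
  -- regular functions
  have hreg : ∀ f : X.K, f ≠ 0 → (∀ D : X.PrimeDiv, (∀ x ∈ X.ring c0, 0 ≤ D.1.v x) →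
      0 ≤ D.1.v f) → f ∈ X.ring c0 := by
    intro f hf h
    obtain ⟨a, ha, b, hb, hb0, rfl⟩ := X.frac c0 f
    have h1 : (⟨b, hb⟩ : X.ring c0) ∣ ⟨a, ha⟩ := by
      refine hdvd ⟨b, hb⟩ (fun h => hb0 (congrArg Subtype.val h)) ⟨a, ha⟩ fun D hD => ?_
      show D.1.v b ≤ D.1.v a
      have h2 : a = a / b * b := (div_mul_cancel₀ a hb0).symm
      rw [h2, D.1.v.map_mul]
      exact le_add_of_nonneg_left (h D hD)
    obtain ⟨y, hy⟩ := h1
    have h2 : a = b * y := congrArg Subtype.val hy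
    rw [h2, mul_div_cancel_left₀ _ hb0]
    exact y.2
  have hnotE : ∀ D : X.PrimeDiv, (∀ x ∈ X.ring c0, 0 ≤ D.1.v x) → ∀ i, D ≠ E i := by
    rintro D hD i rfl
    obtain ⟨x, hx, hx0⟩ := hpole i
    exact absurd (hD x hx) (not_le.2 hx0)
  obtain ⟨q, hq⟩ : ∃ q : (X.PrimeDiv →₀ ℤ) →+ X.ClassGroup, q = QuotientAddGroup.mk' X.principal :=
    ⟨_, rfl⟩
  have hqz : ∀ D, q D = 0 ↔ D ∈ X.principal := by
    intro D
    rw [hq]
    exact QuotientAddGroup.eq_zero_iff D
  have hinj : Function.Injective (q.comp (cyc E)) := by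
    rw [injective_iff_map_eq_zero]
    intro n hn
    have h1 : q (cyc E n) = 0 := hn
    rw [hqz] at h1
    obtain ⟨f, hf, hfE⟩ := h1
    have h2 : ∀ D : X.PrimeDiv, (∀ x ∈ X.ring c0, 0 ≤ D.1.v x) → D.1.v f = 0 := by
      intro D hD
      rw [hfE D, cyc_ne n D (hnotE D hD)]
      rfl
    have h3 : f ∈ X.ring c0 := hreg f hf fun D hD => (h2 D hD).ge
    have h4 : f⁻¹ ∈ X.ring c0 := hreg f⁻¹ (inv_ne_zero hf) fun D hD => by
      rw [Val.inv_eq (n := 0) (h2 D hD), neg_zero]
      exact le_rfl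
    have h5 : IsUnit (⟨f, h3⟩ : X.ring c0) := by
      refine IsUnit.of_mul_eq_one ⟨f⁻¹, h4⟩ ?_
      apply Subtype.ext
      exact mul_inv_cancel₀ hf
    obtain ⟨z, hz⟩ := hunit _ h5
    have h6 : f = algebraMap ℂ X.K z := congrArg Subtype.val hz
    have hz0 : z ≠ 0 := by
      rintro rfl
      rw [map_zero] at h6
      exact hf h6
    funext i
    have h7 := hfE (E i)
    rw [cyc_apply hE, h6, (E i).1.const z hz0] at h7
    have h8 : (0 : ℤ) = n i := by exact_mod_cast h7
    exact h8.symm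
  have hgen : ∀ D : X.PrimeDiv, ∃ n, q (cyc E n) = q (Finsupp.single D 1) := by
    intro D
    by_cases hDE : ∃ i, D = E i
    · obtain ⟨i, rfl⟩ := hDE
      classical
      refine ⟨Pi.single i 1, ?_⟩
      congr 1
      show ∑ j, Finsupp.single (E j) ((Pi.single i 1 : Fin r → ℤ) j) = _
      rw [Finset.sum_eq_single i]
      · rw [Pi.single_eq_same]
      · intro j _ hj
        rw [Pi.single_eq_of_ne hj, Finsupp.single_zero]
      · intro h
        exact absurd (Finset.mem_univ i) h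
    · have hD : ∀ x ∈ X.ring c0, 0 ≤ D.1.v x := (hout D).resolve_right hDE
      push Not at hDE
      -- a prime element which is positive at `D`
      obtain ⟨π, hπ, hπD⟩ : ∃ π : X.ring c0, Prime π ∧ 0 < D.1.v (π : X.K) := by
        by_contra hcon
        push Not at hcon
        have h1 : ∀ b : X.ring c0, b ≠ 0 → D.1.v (b : X.K) = 0 := by
          intro b
          induction b using UniqueFactorizationMonoid.induction_on_prime with
          | h₁ => exact fun h => absurd rfl h
          | h₂ x hx =>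
            intro hx0
            obtain ⟨z, rfl⟩ := hunit x hx
            exact D.1.const z fun h => hx0 (by rw [h, map_zero])
          | h₃ b p hb hp ih =>
            intro _
            have h2 : D.1.v ((p * b : X.ring c0) : X.K) = D.1.v (p : X.K) + D.1.v (b : X.K) :=
              D.1.v.map_mul _ _
            rw [h2, ih hb, add_zero]
            exact le_antisymm (hcon p hp) (hD p p.2)
        obtain ⟨ϖ, hϖ⟩ := D.1.uniformizer
        obtain ⟨a, ha, b, hb, hb0, rfl⟩ := X.frac c0 ϖ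
        have ha0 : a ≠ 0 := by
          rintro rfl
          rw [zero_div, D.1.v.map_zero] at hϖ
          exact absurd hϖ (by simp)
        have h2 : D.1.v a = ((0 : ℤ) : WithTop ℤ) := h1 ⟨a, ha⟩ fun h => ha0 (congrArg Subtype.val h)
        have h3 : D.1.v b = ((0 : ℤ) : WithTop ℤ) := h1 ⟨b, hb⟩ fun h => hb0 (congrArg Subtype.val h)
        rw [Val.div_eq h2 h3] at hϖ
        have h4 : (0 - 0 : ℤ) = 1 := by exact_mod_cast hϖ
        omega
      have hπ0 : (π : X.K) ≠ 0 := fun h => hπ.ne_zero (Subtype.ext h)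
      obtain ⟨Dπ, hDπ1, hDπ2, hDπ3⟩ := hdiv π hπ
      have hDD : D = Dπ := huniq D Dπ π hπ hD hDπ1 hπD (by rw [hDπ3]; exact zero_lt_one)
      choose m hm using fun i => exists_int (E i).1.v hπ0
      refine ⟨-m, ?_⟩
      rw [← sub_eq_zero, ← map_sub, hqz]
      have h1 : cyc E (-m) - Finsupp.single D 1 = -(cyc E m + Finsupp.single D 1) := by
        rw [map_neg]
        abel
      rw [h1]
      refine X.principal.neg_mem ⟨π, hπ0, fun D' => ?_⟩
      classical
      rw [Finsupp.add_apply]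
      by_cases hD'E : ∃ i, D' = E i
      · obtain ⟨i, rfl⟩ := hD'E
        rw [cyc_apply hE, Finsupp.single_apply, if_neg (hDE i), add_zero, hm]
      · have hD' : ∀ x ∈ X.ring c0, 0 ≤ D'.1.v x := (hout D').resolve_right hD'E
        push Not at hD'E
        rw [cyc_ne m D' hD'E, zero_add, Finsupp.single_apply]
        by_cases hDD' : D = D'
        · rw [if_pos hDD', ← hDD', hDD, hDπ3]
          rfl
        · rw [if_neg hDD']
          by_contra hne
          have h2 : 0 < D'.1.v (π : X.K) := lt_of_le_of_ne (hD' π π.2) (Ne.symm hne)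
          exact hDD' (huniq D D' π hπ hD hD' hπD h2)
  have hsurj : Function.Surjective (q.comp (cyc E)) := by
    intro y
    obtain ⟨D, rfl⟩ : ∃ D, q D = y := by
      rw [hq]
      exact QuotientAddGroup.mk'_surjective _ y
    induction D using Finsupp.induction_linear with
    | zero => exact ⟨0, by rw [map_zero, map_zero]⟩
    | add D D' h h' =>
      obtain ⟨n, hn⟩ := h
      obtain ⟨n', hn'⟩ := h'
      exact ⟨n + n', by rw [map_add, hn, hn', map_add]⟩
    | single D k =>
      obtain ⟨n, hn⟩ := hgen D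
      refine ⟨k • n, ?_⟩
      rw [map_zsmul]
      show k • q (cyc E n) = _
      rw [hn, ← map_zsmul]
      congr 1
      rw [Finsupp.smul_single, smul_eq_mul, mul_one]
  exact ⟨(AddEquiv.ofBijective (q.comp (cyc E)) ⟨hinj, hsurj⟩).symm⟩

end FB
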