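import Pool.Agent.T2h12.FB.Stm

/-!
# Task CLX of project FB
-/

set_option autoImplicit false

namespace FB

open FanoFib FanoFib.Tor MvPolynomial

theorem t_CLX (hCLG : S_CLG) (hEWW : S_EWW) (hEPP : S_EPP) (hEE1 : S_EE1) (hEE2 : S_EE2)
    (hBND : S_BND) (hUFD : S_UFD) (hUNT : S_UNT) : S_CLX := by
  intro h
  obtain ⟨Ew, hw⟩ := hEWW h
  obtain ⟨Ep, hp⟩ := hEPP h
  obtain ⟨E1, h1⟩ := hEE1 h
  obtain ⟨E2, h2⟩ := hEE2 h
  have hb := hBND h Ew Ep E1 E2 hw hp h1 h2
  have n1 : Ew ≠ Ep := by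
    intro e; rw [e] at hw; exact absurd (hw.1.symm.trans hp.1) (by decide)
  have n2 : Ew ≠ E1 := by
    intro e; rw [e] at hw; exact absurd (hw.1.symm.trans h1.1) (by decide)
  have n3 : Ew ≠ E2 := by
    intro e; rw [e] at hw; exact absurd (hw.1.symm.trans h2.1) (by decide)
  have n4 : Ep ≠ E1 := by
    intro e; rw [e] at hp; exact absurd (hp.2.2.1.symm.trans h1.2.2.1) (by decide)
  have n5 : Ep ≠ E2 := by
    intro e; rw [e] at hp; exact absurd (hp.2.2.1.symm.trans h2.2.2.1) (by decide)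
  have n6 : E1 ≠ E2 := by
    intro e; rw [e] at h1; exact absurd (h1.2.2.2.1.symm.trans h2.2.2.2.1) (by decide)
  have hgen : ∀ x : K4, (∃ m, x = gen (0, true, true) m) → x ∈ A (0, true, true) := by
    rintro x ⟨m, rfl⟩
    exact gen_mem _ m
  have hca : ca ∈ A (0, true, true) := by
    apply hgen
    refine ⟨0, ?_⟩
    simp [gen, W]
  have hcs : cs ∈ A (0, true, true) := by
    apply hgen
    refine ⟨3, ?_⟩
    simp [gen, W]
  have hct : ct ∈ A (0, true, true) := by
    apply hgen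
    refine ⟨2, ?_⟩
    simp [gen, W]
  refine hCLG (Xv h) ((0, true, true) : Ch) hUFD hUNT 4 ![Ew, Ep, E1, E2] ?_ ?_ ?_
  · intro i j hij
    fin_cases i <;> fin_cases j <;> first
      | rfl
      | exact absurd hij n1
      | exact absurd hij n2
      | exact absurd hij n3
      | exact absurd hij n4
      | exact absurd hij n5
      | exact absurd hij n6
      | exact absurd hij.symm n1
      | exact absurd hij.symm n2
      | exact absurd hij.symm n3
      | exact absurd hij.symm n4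
      | exact absurd hij.symm n5
      | exact absurd hij.symm n6
  · intro i
    fin_cases i
    · exact ⟨ca, hca, by show Ew.1.v (ca : K4) < 0; rw [hw.1]; decide⟩
    · exact ⟨cs, hcs, by show Ep.1.v (cs : K4) < 0; rw [hp.2.2.1]; decide⟩
    · exact ⟨ct, hct, by show E1.1.v (ct : K4) < 0; rw [h1.2.2.2.2]; decide⟩
    · exact ⟨ct, hct, by show E2.1.v (ct : K4) < 0; rw [h2.2.2.2.2.1]; decide⟩
  · intro D
    rcases hb D with h0 | h0 | h0 | h0 | h0
    · exact Or.inl h0
    · exact Or.inr ⟨0, h0⟩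
    · exact Or.inr ⟨1, h0⟩
    · exact Or.inr ⟨2, h0⟩
    · exact Or.inr ⟨3, h0⟩

end FB
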