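import Pool.Agent.T2h12.FB.Stm

/-! FB: the prime divisors of the threefold outside the affine chart. -/

set_option autoImplicit false

namespace FB

open FanoFib FanoFib.Tor MvPolynomial

namespace YBD

abbrev YI : Type := Unit ⊕ Unit × Fin 2

/-- exponents -/
def ex (k : Fin 3) (j : Bool) (x : YI) : YI → ℤ :=
  FanoFib.Tower.bb (I := Unit) (J := Unit) (fun _ _ => -2) (fun _ => j) (fun _ => k) x

theorem gy_eq (k : Fin 3) (j : Bool) (x : YI) : gy k j x = mon (ex k j x) := rfl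

theorem ex_tab : ∀ (k : Fin 3) (j : Bool),
    (ex k j (Sum.inl ()) (Sum.inl ()) = if j then 1 else -1) ∧
    (ex k j (Sum.inl ()) (Sum.inr ((), 0)) = (if j then 1 else -1) * (if k = 1 then -2 else 0)) ∧
    (ex k j (Sum.inl ()) (Sum.inr ((), 1)) = (if j then 1 else -1) * (if k = 2 then -2 else 0)) ∧
    (ex k j (Sum.inr ((), 0)) (Sum.inl ()) = 0) ∧
    (ex k j (Sum.inr ((), 0)) (Sum.inr ((), 0)) = if k = 0 then 1 else if k = 1 then -1 else 0) ∧
    (ex k j (Sum.inr ((), 0)) (Sum.inr ((), 1)) = if k = 2 then -1 else 0) ∧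
    (ex k j (Sum.inr ((), 1)) (Sum.inl ()) = 0) ∧
    (ex k j (Sum.inr ((), 1)) (Sum.inr ((), 0)) = if k = 1 then -1 else if k = 2 then 1 else 0) ∧
    (ex k j (Sum.inr ((), 1)) (Sum.inr ((), 1)) = if k = 2 then -1 else 1) := by
  decide

section val

variable {Y : SmoothProperVariety}

theorem v_pow (E : Y.DivisorOver) {x : Y.K} {n : ℤ} (h : E.v x = (n : WithTop ℤ)) (m : ℕ) :
    E.v (x ^ m) = ((m * n : ℤ) : WithTop ℤ) := by
  induction m with
  | zero => simp [E.v.map_one]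
  | succ m ih =>
    rw [pow_succ, E.v.map_mul, ih, h, ← WithTop.coe_add]
    congr 1
    push_cast
    ring

theorem v_inv (E : Y.DivisorOver) {x : Y.K} (hx : x ≠ 0) {n : ℤ} (h : E.v x = (n : WithTop ℤ)) :
    E.v x⁻¹ = ((-n : ℤ) : WithTop ℤ) := by
  obtain ⟨m, hm⟩ := E.exists_int (inv_ne_zero hx)
  have h1 : E.v (x * x⁻¹) = E.v x + E.v x⁻¹ := E.v.map_mul _ _
  rw [mul_inv_cancel₀ hx, E.v.map_one, h, hm] at h1
  have h2 : (0 : ℤ) = n + m := by exact_mod_cast h1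
  rw [hm]
  congr 1
  omega

theorem v_zpow (E : Y.DivisorOver) {x : Y.K} (hx : x ≠ 0) {n : ℤ} (h : E.v x = (n : WithTop ℤ))
    (m : ℤ) : E.v (x ^ m) = ((m * n : ℤ) : WithTop ℤ) := by
  obtain ⟨k, rfl | rfl⟩ := m.eq_nat_or_neg
  · rw [zpow_natCast]
    exact v_pow E h k
  · rw [zpow_neg, zpow_natCast, v_inv E (pow_ne_zero _ hx) (v_pow E h k)]
    congr 1
    ring

theorem v_adjoin (E : Y.DivisorOver) (G : Set Y.K) (hG : ∀ g ∈ G, 0 ≤ E.v g) :
    ∀ x ∈ Algebra.adjoin ℂ G, 0 ≤ E.v x := by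
  intro x hx
  induction hx using Algebra.adjoin_induction with
  | mem x hx => exact hG x hx
  | algebraMap z =>
    rcases eq_or_ne z 0 with rfl | hz
    · rw [map_zero, E.v.map_zero]; exact le_top
    · rw [E.const z hz]
  | add x y _ _ hx hy => exact (le_min hx hy).trans (E.v.map_add x y)
  | mul x y _ _ hx hy => rw [E.v.map_mul]; exact add_nonneg hx hy

theorem v_span (E : Y.DivisorOver) (A : Subalgebra ℂ Y.K) (hA : ∀ a ∈ A, 0 ≤ E.v a) (q : A)
    (hq : 0 < E.v (q : Y.K)) : ∀ x ∈ Ideal.span {q}, 0 < E.v (x : Y.K) := by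
  intro x hx
  obtain ⟨y, rfl⟩ := Ideal.mem_span_singleton'.1 hx
  have h1 : E.v ((y * q : A) : Y.K) = E.v (y : Y.K) + E.v (q : Y.K) := E.v.map_mul _ _
  rw [h1]
  exact lt_of_lt_of_le hq (le_add_of_nonneg_left (hA _ y.2))

end val

/-- the order of a monomial -/
theorem v_mon (E : Yv.DivisorOver) (n : YI → ℤ) (hn : ∀ i, E.v (xx i : K3) = (n i : WithTop ℤ))
    (u : YI → ℤ) : E.v (mon u : K3) = ((u (Sum.inl ()) * n (Sum.inl ()) +
      u (Sum.inr ((), 0)) * n (Sum.inr ((), 0)) + u (Sum.inr ((), 1)) * n (Sum.inr ((), 1)) : ℤ) :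
        WithTop ℤ) := by
  have h1 : (mon u : K3) = xx (Sum.inl ()) ^ u (Sum.inl ()) *
      xx (Sum.inr ((), 0)) ^ u (Sum.inr ((), 0)) * xx (Sum.inr ((), 1)) ^ u (Sum.inr ((), 1)) := by
    unfold mon
    rw [Fintype.prod_sum_type, Fintype.prod_prod_type]
    simp [mul_assoc]
  rw [h1]
  have a1 := v_zpow E (xx_ne_zero (ι := YI) (Sum.inl ())) (hn _) (u (Sum.inl ()))
  have a2 := v_zpow E (xx_ne_zero (ι := YI) (Sum.inr ((), 0))) (hn _) (u (Sum.inr ((), 0)))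
  have a3 := v_zpow E (xx_ne_zero (ι := YI) (Sum.inr ((), 1))) (hn _) (u (Sum.inr ((), 1)))
  rw [E.v.map_mul, E.v.map_mul, a1, a2, a3]
  rfl

/-- the orders of the coordinates -/
theorem v_gy (E : Yv.DivisorOver) (n : YI → ℤ) (hn : ∀ i, E.v (xx i : K3) = (n i : WithTop ℤ))
    (k : Fin 3) (j : Bool) :
    E.v (gy k j (Sum.inl ()) : K3) = (((if j then 1 else -1) * (n (Sum.inl ()) -
      (if k = 1 then 2 * n (Sum.inr ((), 0)) else 0) -
      (if k = 2 then 2 * n (Sum.inr ((), 1)) else 0)) : ℤ) : WithTop ℤ) ∧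
    E.v (gy k j (Sum.inr ((), 0)) : K3) = (((if k = 0 then n (Sum.inr ((), 0)) else
      if k = 1 then -n (Sum.inr ((), 0)) else -n (Sum.inr ((), 1))) : ℤ) : WithTop ℤ) ∧
    E.v (gy k j (Sum.inr ((), 1)) : K3) = (((if k = 0 then n (Sum.inr ((), 1)) else
      if k = 1 then n (Sum.inr ((), 1)) - n (Sum.inr ((), 0)) else
        n (Sum.inr ((), 0)) - n (Sum.inr ((), 1))) : ℤ) : WithTop ℤ) := by
  obtain ⟨t1, t2, t3, t4, t5, t6, t7, t8, t9⟩ := ex_tab k j
  refine ⟨?_, ?_, ?_⟩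
  · rw [gy_eq, v_mon E n hn, t1, t2, t3]
    congr 1
    fin_cases k <;> cases j <;> simp <;> ring
  · rw [gy_eq, v_mon E n hn, t4, t5, t6]
    congr 1
    fin_cases k <;> simp
  · rw [gy_eq, v_mon E n hn, t7, t8, t9]
    congr 1
    fin_cases k <;> simp <;> ring

/-- the coordinates as elements of the ring -/
noncomputable def gq (k : Fin 3) (j : Bool) (x : YI) : Yv.ring (yc k j) :=
  (FanoFib.Tower.towerCone (I := Unit) (J := Unit) (fun _ _ => -2) (fun _ => j)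
    (fun _ => k)).equivRing (X x)

theorem gq_coe (k : Fin 3) (j : Bool) (x : YI) : ((gq k j x : Yv.ring (yc k j)) : K3) = gy k j x := by
  show (FanoFib.Tower.towerCone (I := Unit) (J := Unit) (fun _ _ => -2) (fun _ => j)
    (fun _ => k)).toRing (X x) = _
  rw [Cone.toRing, aeval_X]
  rfl

theorem gq_prime (k : Fin 3) (j : Bool) (x : YI) : Prime (gq k j x) :=
  (MulEquiv.prime_iff (FanoFib.Tower.towerCone (I := Unit) (J := Unit) (fun _ _ => -2)
    (fun _ => j) (fun _ => k)).equivRing.toMulEquiv).2 (MvPolynomial.X_prime)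

theorem nonneg (hMOR : S_MOR) (E : Yv.DivisorOver) (k : Fin 3) (j : Bool)
    (h : ∀ x, 0 ≤ E.v (gy k j x : K3)) : ∀ a ∈ Yv.ring (yc k j), 0 ≤ E.v (a : K3) := by
  rw [hMOR.2.1 k j]
  refine v_adjoin E _ ?_
  rintro _ ⟨x, rfl⟩
  exact h x

theorem all_YI {P : YI → Prop} (h1 : P (Sum.inl ())) (h2 : P (Sum.inr ((), 0)))
    (h3 : P (Sum.inr ((), 1))) : ∀ x, P x := by
  rintro (⟨⟩ | ⟨⟨⟩, m⟩)
  · exact h1
  · fin_cases m
    · exact h2
    · exact h3

end YBD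

open YBD in
theorem t_YBD (hUNI : S_UNI) (hMOR : S_MOR) : S_YBD := by
  intro Ew E1 hw h1 D
  obtain ⟨c, hc, -⟩ := D.2
  obtain ⟨k, j, rfl⟩ := hMOR.1 c
  have hexD : ∀ i : YI, ∃ m : ℤ, D.1.v (xx i : K3) = (m : WithTop ℤ) := fun i =>
    D.1.exists_int (xx_ne_zero i)
  choose n hn using hexD
  obtain ⟨g1, g2, g3⟩ := v_gy D.1 n hn k j
  have c1 : 0 ≤ D.1.v (gy k j (Sum.inl ()) : K3) := hc _ (by rw [← gq_coe]; exact (gq k j _).2)
  have c2 : 0 ≤ D.1.v (gy k j (Sum.inr ((), 0)) : K3) :=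
    hc _ (by rw [← gq_coe]; exact (gq k j _).2)
  have c3 : 0 ≤ D.1.v (gy k j (Sum.inr ((), 1)) : K3) :=
    hc _ (by rw [← gq_coe]; exact (gq k j _).2)
  have uni : ∀ (E : Yv.PrimeDiv) (x : YI), 0 < D.1.v (gy k j x : K3) → 0 < E.1.v (gy k j x : K3) →
      (∀ x, 0 ≤ E.1.v (gy k j x : K3)) → D = E := by
    intro E x hD hE hE2
    have hEr := nonneg hMOR E.1 k j hE2
    refine hUNI Yv D E (yc k j) (Ideal.span {gq k j x})
      ((Ideal.span_singleton_prime (gq_prime k j x).ne_zero).2 (gq_prime k j x)) ?_ hc hEr ?_ ?_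
    · rw [Ne, Ideal.span_singleton_eq_bot]
      exact (gq_prime k j x).ne_zero
    · exact v_span D.1 _ hc _ (by rw [gq_coe]; exact hD)
    · exact v_span E.1 _ hEr _ (by rw [gq_coe]; exact hE)
  by_cases hA : k ≠ 0 ∧ 0 < D.1.v (gy k j (Sum.inr ((), 0)) : K3)
  · right; left
    have hnw : ∀ i : YI, Ew.1.v (xx i : K3) =
        (((Sum.elim (fun _ => -2) (fun _ => -1) : YI → ℤ) i : ℤ) : WithTop ℤ) :=
      all_YI hw.1 hw.2.1 hw.2.2
    obtain ⟨e1, e2, e3⟩ := v_gy Ew.1 _ hnw k j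
    have hk := hA.1
    refine uni Ew (Sum.inr ((), 0)) hA.2 ?_ (all_YI ?_ ?_ ?_)
    · rw [e2]
      fin_cases k <;> cases j <;> first | exact absurd rfl hk | simp
    · rw [e1]
      fin_cases k <;> cases j <;> first | exact absurd rfl hk | simp
    · rw [e2]
      fin_cases k <;> cases j <;> first | exact absurd rfl hk | simp
    · rw [e3]
      fin_cases k <;> cases j <;> first | exact absurd rfl hk | simp
  by_cases hB : j = false ∧ 0 < D.1.v (gy k j (Sum.inl ()) : K3)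
  · right; right
    have hnw : ∀ i : YI, E1.1.v (xx i : K3) =
        (((Sum.elim (fun _ => -1) (fun _ => 0) : YI → ℤ) i : ℤ) : WithTop ℤ) :=
      all_YI h1.1 h1.2.1 h1.2.2
    obtain ⟨e1, e2, e3⟩ := v_gy E1.1 _ hnw k j
    have hj := hB.1
    subst hj
    refine uni E1 (Sum.inl ()) hB.2 ?_ (all_YI ?_ ?_ ?_)
    · rw [e1]
      fin_cases k <;> simp
    · rw [e1]
      fin_cases k <;> simp
    · rw [e2]
      fin_cases k <;> simp
    · rw [e3]
      fin_cases k <;> simp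
  · left
    rw [g1] at c1 hB
    rw [g2] at c2 hA
    rw [g3] at c3
    have c1' := WithTop.coe_le_coe.1 c1
    have c2' := WithTop.coe_le_coe.1 c2
    have c3' := WithTop.coe_le_coe.1 c3
    have hA' : ¬ (k ≠ 0 ∧ (0 : ℤ) < _) := fun h => hA ⟨h.1, WithTop.coe_lt_coe.2 h.2⟩
    have hB' : ¬ (j = false ∧ (0 : ℤ) < _) := fun h => hB ⟨h.1, WithTop.coe_lt_coe.2 h.2⟩
    obtain ⟨f1, f2, f3⟩ := v_gy D.1 n hn 0 true
    have key : 0 ≤ n (Sum.inl ()) ∧ 0 ≤ n (Sum.inr ((), 0)) ∧ 0 ≤ n (Sum.inr ((), 1)) := by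
      fin_cases k <;> cases j <;> simp at c1' c2' c3' hA' hB' <;> omega
    refine nonneg hMOR D.1 0 true (all_YI ?_ ?_ ?_)
    · rw [f1]
      refine WithTop.coe_le_coe.2 ?_
      simpa using key.1
    · rw [f2]
      refine WithTop.coe_le_coe.2 ?_
      simpa using key.2.1
    · rw [f3]
      refine WithTop.coe_le_coe.2 ?_
      simpa using key.2.2

end FB
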