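import Pool.Agent.T2h12.FB.Stm
import Pool.Agent.T2h12.FB.T_YBD

/-! FB: the class group of the threefold. -/

set_option autoImplicit false

namespace FB

open FanoFib FanoFib.Tor MvPolynomial

namespace CLY

open YBD

/-- the chart is a polynomial ring -/
noncomputable def eqv : MvPolynomial YI ℂ ≃ₐ[ℂ] Yv.ring (yc 0 true) :=
  (FanoFib.Tower.towerCone (I := Unit) (J := Unit) (fun _ _ => -2) (fun _ => true)
    (fun _ => 0)).equivRing

theorem ufd : UniqueFactorizationMonoid (Yv.ring (yc 0 true)) :=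
  MulEquiv.uniqueFactorizationMonoid eqv.toMulEquiv inferInstance

theorem units (x : Yv.ring (yc 0 true)) (hx : IsUnit x) :
    ∃ z : ℂ, x = algebraMap ℂ (Yv.ring (yc 0 true)) z := by
  have h1 : IsUnit (eqv.symm x) := hx.map eqv.symm
  obtain ⟨z, -, hz⟩ := MvPolynomial.isUnit_iff_eq_C_of_isReduced.1 h1
  refine ⟨z, ?_⟩
  have h2 : eqv (eqv.symm x) = eqv (C z) := by rw [hz]
  rw [AlgEquiv.apply_symm_apply] at h2
  rw [h2, ← MvPolynomial.algebraMap_eq, AlgEquiv.commutes]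

theorem t_mem : (xx (Sum.inl ()) : K3) ∈ Yv.ring (yc 0 true) := by
  have h1 : (gy 0 true (Sum.inl ()) : K3) = xx (Sum.inl ()) := by
    rw [gy_eq]
    have : ex 0 true (Sum.inl ()) = Pi.single (Sum.inl ()) 1 := by decide
    rw [this, mon_single, zpow_one]
  rw [← h1, ← gq_coe]
  exact (gq 0 true _).2

end CLY

open CLY YBD in
theorem t_CLY (hCLG : S_CLG) (hYEE : S_YEE) (hYBD : S_YBD) : S_CLY := by
  obtain ⟨⟨Ew, w1, w2, w3⟩, ⟨E1, f1, f2, f3⟩⟩ := hYEE
  refine hCLG Yv (yc 0 true) ufd units 2 ![Ew, E1] ?_ ?_ ?_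
  · intro i j hij
    have hne : Ew ≠ E1 := by
      intro h
      rw [h, f1] at w1
      have h2 : (((-1 : ℤ)) : WithTop ℤ) = ((-2 : ℤ) : WithTop ℤ) := w1
      have h3 := WithTop.coe_injective h2
      omega
    fin_cases i <;> fin_cases j
    · rfl
    · exact absurd hij hne
    · exact absurd hij.symm hne
    · rfl
  · intro i
    refine ⟨xx (Sum.inl ()), t_mem, ?_⟩
    fin_cases i
    · show Ew.1.v (xx (Sum.inl ()) : K3) < 0
      rw [w1]
      exact WithTop.coe_lt_coe.2 (by norm_num : (-2 : ℤ) < 0)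
    · show E1.1.v (xx (Sum.inl ()) : K3) < 0
      rw [f1]
      exact WithTop.coe_lt_coe.2 (by norm_num : (-1 : ℤ) < 0)
  · intro D
    rcases hYBD Ew E1 ⟨w1, w2, w3⟩ ⟨f1, f2, f3⟩ D with h | h | h
    · left; exact h
    · right; exact ⟨0, h⟩
    · right; exact ⟨1, h⟩

end FB
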