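import Pool.Agent.T2h12.FB.Stm

/-! Project FB, task CMP. -/

set_option autoImplicit false

namespace FB

open FanoFib FanoFib.Tor MvPolynomial

theorem CMP_aeval {O : ValuationSubring K4} (hO : ∀ z : ℂ, algebraMap ℂ K4 z ∈ O)
    {σ : Type} {g : σ → K4} (hg : ∀ m, g m ∈ O) (P : MvPolynomial σ ℂ) : aeval g P ∈ O := by
  induction P using MvPolynomial.induction_on with
  | C a =>
    rw [aeval_C]
    exact hO a
  | add p q hp hq =>
    rw [map_add]
    exact add_mem hp hq
  | mul_X p n hp =>
    rw [map_mul, aeval_X]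
    exact mul_mem hp (hg n)

theorem t_CMP (hREL : S_REL) : S_CMP := by
  intro O hO
  obtain ⟨-, -, hct, hca, hcb, hcs, -, -, -, hvv⟩ := hREL
  have hW : ∀ k, W k ≠ 0 := by
    intro k
    fin_cases k
    · exact one_ne_zero
    · exact hca
    · exact hcb
  obtain ⟨k, hk⟩ := Finite.exists_max (fun k : Fin 3 => O.valuation (W k))
  have hr : ∀ l, W l / W k ∈ O := by
    intro l
    rw [← O.valuation_le_one_iff, map_div₀]
    exact div_le_one_of_le₀ (hk l) zero_le
  obtain ⟨j, hj⟩ : ∃ j : Bool, (if j then ct / W k ^ 2 else W k ^ 2 / ct) ∈ O := by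
    rcases O.mem_or_inv_mem (ct / W k ^ 2) with h | h
    · exact ⟨true, by simpa using h⟩
    · refine ⟨false, ?_⟩
      rw [inv_div] at h
      simpa using h
  obtain ⟨i, hi⟩ : ∃ i : Bool, (if i then cs / W k else W k / cs) ∈ O := by
    rcases O.mem_or_inv_mem (cs / W k) with h | h
    · exact ⟨true, by simpa using h⟩
    · refine ⟨false, ?_⟩
      rw [inv_div] at h
      simpa using h
  have h4 : ∀ m, g4 (k, j, i) m ∈ O := by
    intro m
    fin_cases m
    · exact hr _
    · exact hr _
    · exact hj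
    · exact hi
  have hv : vv (k, j, i) ∈ O := by
    rcases O.mem_or_inv_mem (vv (k, j, i)) with h | h
    · exact h
    · by_cases h0 : vv (k, j, i) = 0
      · rw [h0]
        exact zero_mem _
      · have h1 := hvv (k, j, i)
        have h2 : vv (k, j, i) = -(aeval (g4 (k, j, i)) (BB j i)) -
            aeval (g4 (k, j, i)) (CC j i) * (vv (k, j, i))⁻¹ := by
          have h3 : vv (k, j, i) * (vv (k, j, i))⁻¹ = 1 := mul_inv_cancel₀ h0
          have h5 : vv (k, j, i) ^ 2 + aeval (g4 (k, j, i)) (BB j i) * vv (k, j, i) +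
            aeval (g4 (k, j, i)) (CC j i) = 0 := h1
          linear_combination (vv (k, j, i))⁻¹ * h5 -
            (vv (k, j, i) + aeval (g4 (k, j, i)) (BB j i)) * h3
        rw [h2]
        exact sub_mem (neg_mem (CMP_aeval hO h4 _)) (mul_mem (CMP_aeval hO h4 _) h)
  have hgen : ∀ m, gen (k, j, i) m ∈ O := by
    intro m
    fin_cases m
    · exact h4 0
    · exact h4 1
    · exact h4 2
    · exact h4 3
    · exact hv
  refine ⟨(k, j, i), fun a ha => ?_⟩
  unfold A at ha
  induction ha using Algebra.adjoin_induction with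
  | mem x hx =>
    obtain ⟨m, rfl⟩ := hx
    exact hgen m
  | algebraMap r => exact hO r
  | add x y _ _ hx hy => exact add_mem hx hy
  | mul x y _ _ hx hy => exact mul_mem hx hy

end FB
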