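import Pool.Agent.T2h12.FB.Stm

/-!
# Task CON of project FB
-/

set_option autoImplicit false

namespace FB

open FanoFib FanoFib.Tor MvPolynomial

/-- the reversed exponent -/
noncomputable def rexp (N : ℕ) (m : Fin 4 →₀ ℕ) : Fin 4 →₀ ℕ :=
  Finsupp.equivFunOnFinite.symm ![m 0, m 1, m 2, N - m 3]

lemma rexp_apply (N : ℕ) (m : Fin 4 →₀ ℕ) (i : Fin 4) :
    rexp N m i = ![m 0, m 1, m 2, N - m 3] i := rfl

lemma aeval_mono (g : Fin 4 → K4) (m : Fin 4 →₀ ℕ) (a : ℂ) :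
    aeval g (monomial m a) =
      algebraMap ℂ K4 a * (g 0 ^ m 0 * g 1 ^ m 1 * g 2 ^ m 2 * g 3 ^ m 3) := by
  rw [aeval_monomial, Finsupp.prod_fintype _ _ (fun i => pow_zero _), Fin.prod_univ_four]

lemma con_rev (N : ℕ) (p : MvPolynomial (Fin 4) ℂ) (hp : ∀ m ∈ p.support, m 3 ≤ N) :
    ∃ q : MvPolynomial (Fin 4) ℂ, (∀ m, coeff m q ≠ 0 → m 3 ≤ N) ∧
      ∀ g g' : Fin 4 → K4, g 3 ≠ 0 → g' 0 = g 0 → g' 1 = g 1 → g' 2 = g 2 → g' 3 = (g 3)⁻¹ →
        aeval g' p * g 3 ^ N = aeval g q := by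
  classical
  refine ⟨∑ m ∈ p.support, monomial (rexp N m) (coeff m p), ?_, ?_⟩
  · intro m hm
    rw [coeff_sum] at hm
    obtain ⟨m', _, h2⟩ := Finset.exists_ne_zero_of_sum_ne_zero hm
    rw [coeff_monomial] at h2
    split_ifs at h2 with h3
    · rw [← h3, rexp_apply]
      exact Nat.sub_le _ _
    · exact absurd rfl h2
  · intro g g' hg h0 h1 h2 h3
    conv_lhs => rw [← support_sum_monomial_coeff p]
    rw [map_sum, map_sum, Finset.sum_mul]
    refine Finset.sum_congr rfl fun m hm => ?_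
    rw [aeval_mono, aeval_mono, h0, h1, h2, h3]
    simp only [rexp_apply]
    have hle := hp m hm
    have e : g 3 ^ N = g 3 ^ (N - m 3) * g 3 ^ m 3 := by
      rw [← pow_add, Nat.sub_add_cancel hle]
    have e2 : (g 3)⁻¹ ^ m 3 * g 3 ^ m 3 = 1 := by
      rw [← mul_pow, inv_mul_cancel₀ hg, one_pow]
    rw [e]
    simp only [Matrix.cons_val_zero, Matrix.cons_val_one, Matrix.cons_val]
    linear_combination (algebraMap ℂ K4 (coeff m p) * (g 0 ^ m 0 * g 1 ^ m 1 * g 2 ^ m 2) *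
      g 3 ^ (N - m 3)) * e2

theorem t_CON (hREL : S_REL) (_hAIN : S_AIN) (hNFE : S_NFE) (hNFU : S_NFU) : S_CON := by
  intro k j x hx1 hx2
  obtain ⟨α, β, hαβ⟩ := hNFE (k, j, true) x hx1
  obtain ⟨γ, δ, hγδ⟩ := hNFE (k, j, false) x hx2
  have hcs : cs ≠ 0 := hREL.2.2.2.2.2.1
  have hW : W k ≠ 0 := by
    fin_cases k
    · exact one_ne_zero
    · exact hREL.2.2.2.1
    · exact hREL.2.2.2.2.1
  set g : Fin 4 → K4 := g4 (k, j, true) with hg
  set g' : Fin 4 → K4 := g4 (k, j, false) with hg'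
  have e0 : g' 0 = g 0 := rfl
  have e1 : g' 1 = g 1 := rfl
  have e2 : g' 2 = g 2 := rfl
  have g3 : g 3 = cs / W k := by
    simp only [hg, g4, gen]
    rfl
  have g3' : g' 3 = W k / cs := by
    simp only [hg', g4, gen]
    rfl
  have e3 : g' 3 = (g 3)⁻¹ := by rw [g3, g3', inv_div]
  have hg3 : g 3 ≠ 0 := by rw [g3]; exact div_ne_zero hcs hW
  have hvv : vv (k, j, false) * g 3 = vv (k, j, true) := by
    rw [g3]
    have z1 : zeta (k, j, true) = W k := rfl
    have z2 : zeta (k, j, false) = cs := rfl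
    have z3 : eta (k, j, false) = eta (k, j, true) := rfl
    unfold vv
    rw [z1, z2, z3]
    by_cases he : eta (k, j, true) = 0
    · simp [he]
    · field_simp
  obtain ⟨N, hN1, hN2⟩ : ∃ N : ℕ, (∀ m ∈ γ.support, m 3 ≤ N) ∧ ∀ m ∈ δ.support, m 3 ≤ N := by
    refine ⟨γ.support.sup (fun m => m 3) ⊔ δ.support.sup (fun m => m 3), ?_, ?_⟩
    · intro m hm
      exact (Finset.le_sup (f := fun m : Fin 4 →₀ ℕ => m 3) hm).trans le_sup_left
    · intro m hm
      exact (Finset.le_sup (f := fun m : Fin 4 →₀ ℕ => m 3) hm).trans le_sup_right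
  obtain ⟨γ', hγ', hγe⟩ := con_rev N γ hN1
  obtain ⟨δ', hδ', hδe⟩ := con_rev N δ hN2
  have E1 := hγe g g' hg3 e0 e1 e2 e3
  have E2 := hδe g g' hg3 e0 e1 e2 e3
  have main : aeval g (α * X 3 ^ (N + 1) - γ' * X 3) +
      aeval g (β * X 3 ^ (N + 1) - δ') * vv (k, j, true) = 0 := by
    simp only [map_sub, map_mul, map_pow, aeval_X]
    rw [← E1, ← E2]
    have h1 : aeval g α + aeval g β * vv (k, j, true) =
        aeval g' γ + aeval g' δ * vv (k, j, false) := by rw [← hαβ, ← hγδ]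
    rw [← hvv] at h1 ⊢
    linear_combination g 3 ^ (N + 1) * h1
  obtain ⟨M1, M2⟩ := hNFU (k, j, true) _ _ main
  have M1' : α * X 3 ^ (N + 1) = γ' * X 3 := sub_eq_zero.1 M1
  have M2' : β * X 3 ^ (N + 1) = δ' := sub_eq_zero.1 M2
  have hβ : β = 0 := by
    by_contra hne
    obtain ⟨m, hm⟩ := MvPolynomial.ne_zero_iff.1 hne
    have h1 : coeff (m + Finsupp.single 3 (N + 1)) δ' = coeff m β := by
      rw [← M2', X_pow_eq_monomial, coeff_mul_monomial, mul_one]
    have h2 := hδ' (m + Finsupp.single 3 (N + 1)) (by rw [h1]; exact hm)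
    simp at h2
    omega
  have hα : ∀ m, coeff m α ≠ 0 → m 3 = 0 := by
    intro m hm
    have h1 : coeff (m + Finsupp.single 3 (N + 1)) (γ' * X 3) = coeff m α := by
      rw [← M1', X_pow_eq_monomial, coeff_mul_monomial, mul_one]
    have h2 : m + Finsupp.single 3 (N + 1) = (m + Finsupp.single 3 N) + Finsupp.single 3 1 := by
      rw [add_assoc, ← Finsupp.single_add]
    rw [h2, coeff_mul_X] at h1
    have h3 := hγ' (m + Finsupp.single 3 N) (by rw [h1]; exact hm)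
    simp at h3
    exact h3
  rw [hαβ, hβ, map_zero, zero_mul, add_zero, ← support_sum_monomial_coeff α, map_sum]
  refine Subalgebra.sum_mem _ fun m hm => ?_
  rw [aeval_mono, hα m (mem_support_iff.1 hm), pow_zero, mul_one]
  refine Subalgebra.mul_mem _ (Subalgebra.algebraMap_mem _ _) ?_
  refine Subalgebra.mul_mem _ (Subalgebra.mul_mem _ ?_ ?_) ?_
  · exact Subalgebra.pow_mem _ (Algebra.subset_adjoin (by left; rfl)) _
  · exact Subalgebra.pow_mem _ (Algebra.subset_adjoin (by right; left; rfl)) _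
  · exact Subalgebra.pow_mem _ (Algebra.subset_adjoin (by right; right; rfl)) _

end FB
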