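import Pool.Agent.T2h12.FB.Stm

/-! Task DIR: the direct image of the structure sheaf. -/

set_option autoImplicit false

namespace FB

open FanoFib FanoFib.Tor MvPolynomial

namespace DIR

/-- an element which is regular at all points is regular -/
theorem mem_of_local {K : Type} [Field K] [Algebra ℂ K] (B : Subalgebra ℂ K) (g : K)
    (h : ∀ p : Ideal B, p.IsPrime → g ∈ localRing B p) : g ∈ B := by
  let I : Ideal B :=
    { carrier := {s | (s : K) * g ∈ B}
      add_mem' := by
        intro a b ha hb
        show ((a + b : B) : K) * g ∈ B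
        push_cast
        rw [add_mul]
        exact add_mem ha hb
      zero_mem' := by
        show ((0 : B) : K) * g ∈ B
        push_cast
        rw [zero_mul]
        exact zero_mem _
      smul_mem' := by
        intro c a ha
        show ((c • a : B) : K) * g ∈ B
        rw [smul_eq_mul]
        push_cast
        rw [mul_assoc]
        exact mul_mem c.2 ha }
  by_cases hI : I = ⊤
  · have h1 : (1 : B) ∈ I := by rw [hI]; trivial
    have h2 : ((1 : B) : K) * g ∈ B := h1
    simpa using h2
  · exfalso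
    obtain ⟨m, hm, hle⟩ := Ideal.exists_le_maximal I hI
    obtain ⟨a, s, hs, hg⟩ := h m hm.isPrime
    apply hs
    apply hle
    show (s : K) * g ∈ B
    have hs0 : (s : K) ≠ 0 := by
      intro h0
      apply hs
      have : s = 0 := Subtype.ext h0
      rw [this]
      exact m.zero_mem
    rw [hg, mul_div_cancel₀ _ hs0]
    exact a.2

end DIR

open DIR

theorem t_DIR (hMOR : S_MOR) (hCON : S_CON) : S_DIR := by
  intro h φ hφ d g hg
  obtain ⟨k, j, rfl⟩ := hMOR.1 d
  have hring := hMOR.2.1 k j
  have hgen := hMOR.2.2 φ hφ k j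
  have hmap : ∀ i : Bool, ∀ b ∈ Yv.ring (yc k j), φ b ∈ A (k, j, i) := by
    intro i b hb
    rw [hring] at hb
    obtain ⟨e0, e1, e2⟩ := hgen i
    have h1 : Algebra.adjoin ℂ (Set.range (gy k j)) ≤ (A (k, j, i)).comap φ := by
      rw [Algebra.adjoin_le_iff]
      rintro _ ⟨x, rfl⟩
      rcases x with x | ⟨x, m⟩
      · show φ (gy k j (Sum.inl ())) ∈ A (k, j, i)
        rw [e2]
        exact gen_mem _ _
      · fin_cases m
        · show φ (gy k j (Sum.inr ((), 0))) ∈ A (k, j, i)
          rw [e0]
          exact gen_mem _ _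
        · show φ (gy k j (Sum.inr ((), 1))) ∈ A (k, j, i)
          rw [e1]
          exact gen_mem _ _
    exact h1 hb
  have hmem : ∀ i : Bool, g ∈ A (k, j, i) := by
    intro i
    apply mem_of_local
    intro p hp
    refine hg (k, j, i) p hp ?_
    intro b hb
    refine ⟨⟨φ b, hmap i b hb⟩, 1, ?_, ?_⟩
    · intro h1
      exact hp.ne_top ((Ideal.eq_top_iff_one _).2 h1)
    · exact (div_one (φ b : K4)).symm
  have h2 := hCON k j g (hmem true) (hmem false)
  obtain ⟨e0, e1, e2⟩ := hgen true
  have h3 : Algebra.adjoin ℂ ({gen (k, j, true) 0, gen (k, j, true) 1, gen (k, j, true) 2} :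
      Set K4) ≤ (Algebra.adjoin ℂ (Set.range (gy k j))).map φ := by
    rw [Algebra.adjoin_le_iff]
    have hs : ∀ x, φ (gy k j x) ∈ (Algebra.adjoin ℂ (Set.range (gy k j))).map φ :=
      fun x => ⟨_, Algebra.subset_adjoin ⟨x, rfl⟩, rfl⟩
    rintro y (rfl | rfl | rfl)
    · rw [SetLike.mem_coe, ← e0]
      exact hs _
    · rw [SetLike.mem_coe, ← e1]
      exact hs _
    · rw [SetLike.mem_coe, ← e2]
      exact hs _
  obtain ⟨b, hb, hbg⟩ := h3 h2
  refine ⟨b, ?_, hbg⟩
  rw [hring]
  exact hb

end FB
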