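import Pool.Agent.T2h12.FB.Stm

/-! FB: the fibres have dimension one. -/

set_option autoImplicit false

namespace FB

open FanoFib FanoFib.Tor MvPolynomial

namespace DMF

abbrev YI : Type := Unit ⊕ Unit × Fin 2

/-! ## the dimension of `ℂ[S][V] / (p)` -/

theorem one_le_dim (p : Polynomial (Polynomial ℂ)) (hp : p.Monic) (hd : p.degree ≠ 0) :
    1 ≤ ringKrullDim (AdjoinRoot p) := by
  have hfin : Module.Finite (Polynomial ℂ) (AdjoinRoot p) := hp.finite_adjoinRoot
  have hint : Algebra.IsIntegral (Polynomial ℂ) (AdjoinRoot p) := Algebra.IsIntegral.of_finite _ _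
  have hinj : Function.Injective (algebraMap (Polynomial ℂ) (AdjoinRoot p)) :=
    AdjoinRoot.of.injective_of_degree_ne_zero hd
  have hb : (⊥ : Ideal (AdjoinRoot p)).comap (algebraMap (Polynomial ℂ) (AdjoinRoot p)) ≤ ⊥ := by
    intro x hx
    rw [Ideal.mem_comap, Ideal.mem_bot] at hx
    rw [Ideal.mem_bot]
    exact hinj (hx.trans (map_zero _).symm)
  have hP0 : (⊥ : Ideal (Polynomial ℂ)).IsPrime := Ideal.isPrime_bot
  obtain ⟨Q0, -, hQ0, e0⟩ := Ideal.exists_ideal_over_prime_of_isIntegral ⊥ ⊥ hb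
  have hP1 : (Ideal.span {(Polynomial.X : Polynomial ℂ)}).IsPrime :=
    (Ideal.span_singleton_prime Polynomial.X_ne_zero).2 Polynomial.prime_X
  obtain ⟨Q1, hQ1, hQ1p, e1⟩ := Ideal.exists_ideal_over_prime_of_isIntegral
    (Ideal.span {(Polynomial.X : Polynomial ℂ)}) Q0 (by rw [e0]; exact bot_le)
  rw [ringKrullDim, Order.one_le_krullDim_iff]
  refine ⟨⟨Q0, hQ0⟩, ⟨Q1, hQ1p⟩, lt_of_le_of_ne hQ1 ?_⟩
  intro h
  have h2 : Q0 = Q1 := congrArg PrimeSpectrum.asIdeal h
  rw [h2, e1] at e0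
  have h3 : (Polynomial.X : Polynomial ℂ) ∈ (⊥ : Ideal (Polynomial ℂ)) := by
    rw [← e0]; exact Ideal.mem_span_singleton_self _
  exact Polynomial.X_ne_zero (Ideal.mem_bot.1 h3)

theorem dim_le_one {S : Type} [CommRing S] (f : Polynomial (Polynomial ℂ) →+* S)
    (hf : Function.Surjective f) (p : Polynomial (Polynomial ℂ)) (hp : p ≠ 0) (h : f p = 0) :
    ringKrullDim S ≤ 1 := by
  have h1 := ringKrullDim_succ_le_of_surjective f hf (mem_nonZeroDivisors_of_ne_zero hp) h
  rw [Polynomial.ringKrullDim_of_isNoetherianRing, Polynomial.ringKrullDim_of_isNoetherianRing,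
    ringKrullDim_eq_zero_of_field, zero_add] at h1
  exact (ENat.WithBot.add_le_add_one_right_iff).1 h1

/-! ## specialisation -/

/-- evaluation at the point `z` of the base -/
noncomputable def ez (z : YI → ℂ) : MvPolynomial (Fin 5) ℂ →ₐ[ℂ] Polynomial (Polynomial ℂ) :=
  aeval ![Polynomial.C (Polynomial.C (z (Sum.inr ((), 0)))),
    Polynomial.C (Polynomial.C (z (Sum.inr ((), 1)))),
    Polynomial.C (Polynomial.C (z (Sum.inl ()))), Polynomial.C Polynomial.X, Polynomial.X]

theorem ez_0 (z : YI → ℂ) : ez z (X 0) = Polynomial.C (Polynomial.C (z (Sum.inr ((), 0)))) := by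
  rw [ez, aeval_X]; rfl

theorem ez_1 (z : YI → ℂ) : ez z (X 1) = Polynomial.C (Polynomial.C (z (Sum.inr ((), 1)))) := by
  rw [ez, aeval_X]; rfl

theorem ez_2 (z : YI → ℂ) : ez z (X 2) = Polynomial.C (Polynomial.C (z (Sum.inl ()))) := by
  rw [ez, aeval_X]; rfl

theorem ez_3 (z : YI → ℂ) : ez z (X 3) = Polynomial.C Polynomial.X := by
  rw [ez, aeval_X]; rfl

theorem ez_4 (z : YI → ℂ) : ez z (X 4) = Polynomial.X := by
  rw [ez, aeval_X]; rfl

theorem ez_FF (z : YI → ℂ) (j i : Bool) : ∃ b c : Polynomial ℂ,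
    ez z (FF j i) = Polynomial.X ^ 2 + (Polynomial.C b * Polynomial.X + Polynomial.C c) := by
  refine ⟨(if j then Polynomial.C (z (Sum.inl ())) else 1) * (if i then 1 else Polynomial.X),
    (1 + Polynomial.C (z (Sum.inr ((), 0))) ^ 4 + Polynomial.C (z (Sum.inr ((), 1))) ^ 4) *
      (if j then 1 else Polynomial.C (z (Sum.inl ()))) ^ 2 * (if i then 1 else Polynomial.X) ^ 2 -
      Polynomial.C (z (Sum.inl ())) * (if i then Polynomial.X else 1) ^ 2, ?_⟩
  cases j <;> cases i <;>
    simp only [FF, if_true, if_false, Bool.false_eq_true, map_add, map_mul, map_sub, map_pow,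
      map_one, ez_0, ez_1, ez_2, ez_3, ez_4] <;> ring

theorem ez_monic (z : YI → ℂ) (j i : Bool) : (ez z (FF j i)).Monic ∧ (ez z (FF j i)).degree = 2 := by
  obtain ⟨b, c, h⟩ := ez_FF z j i
  rw [h]
  have hd : (Polynomial.C b * Polynomial.X + Polynomial.C c).degree < 2 :=
    (Polynomial.degree_linear_le).trans_lt (by norm_num)
  refine ⟨Polynomial.monic_X_pow_add hd, ?_⟩
  rw [Polynomial.degree_add_eq_left_of_degree_lt, Polynomial.degree_X_pow]
  · rfl
  · rw [Polynomial.degree_X_pow]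
    exact hd

theorem ez_surj (z : YI → ℂ) : Function.Surjective (ez z) := by
  intro q
  have hC : ∀ a : Polynomial ℂ, ∃ P, ez z P = Polynomial.C a := by
    intro a
    induction a using Polynomial.induction_on' with
    | add a b ha hb =>
      obtain ⟨P, hP⟩ := ha
      obtain ⟨Q, hQ⟩ := hb
      exact ⟨P + Q, by rw [map_add, hP, hQ, map_add]⟩
    | monomial n w =>
      refine ⟨C w * X 3 ^ n, ?_⟩
      rw [map_mul, map_pow, ez_3, ← Polynomial.C_mul_X_pow_eq_monomial, map_mul, map_pow]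
      congr 1
      rw [← MvPolynomial.algebraMap_eq, AlgHom.commutes]
      rfl
  induction q using Polynomial.induction_on' with
  | add a b ha hb =>
    obtain ⟨P, hP⟩ := ha
    obtain ⟨Q, hQ⟩ := hb
    exact ⟨P + Q, by rw [map_add, hP, hQ]⟩
  | monomial n w =>
    obtain ⟨P, hP⟩ := hC w
    refine ⟨P * X 4 ^ n, ?_⟩
    rw [map_mul, map_pow, ez_4, hP, Polynomial.C_mul_X_pow_eq_monomial]

/-- evaluation in the ring of the chart -/
noncomputable def ev (c : Ch) : MvPolynomial (Fin 5) ℂ →ₐ[ℂ] A c := aeval (gA c)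

theorem ev_coe (c : Ch) (P : MvPolynomial (Fin 5) ℂ) : ((ev c P : A c) : K4) = aeval (gen c) P := by
  have h : (A c).val.comp (ev c) = aeval (gen c) := by
    apply MvPolynomial.algHom_ext
    intro m
    show ((ev c (X m) : A c) : K4) = _
    rw [ev, aeval_X, aeval_X]
    rfl
  exact DFunLike.congr_fun h P

theorem ev_surj (c : Ch) : Function.Surjective (ev c) := by
  rintro ⟨x, hx⟩
  have h1 : x ∈ (aeval (gen c) : MvPolynomial (Fin 5) ℂ →ₐ[ℂ] K4).range := by
    rw [← Algebra.adjoin_range_eq_range_aeval]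
    exact hx
  obtain ⟨P, hP⟩ := h1
  exact ⟨P, Subtype.ext ((ev_coe c P).trans hP)⟩

theorem ev_ker (hKER : S_KER) (c : Ch) (P : MvPolynomial (Fin 5) ℂ) (h : ev c P = 0) :
    P ∈ Ideal.span {FF c.2.1 c.2.2} := by
  rw [← hKER c, RingHom.mem_ker, ← ev_coe, h]
  rfl

theorem ev_FF (hKER : S_KER) (c : Ch) : ev c (FF c.2.1 c.2.2) = 0 := by
  have h : FF c.2.1 c.2.2 ∈ RingHom.ker (aeval (gen c) : MvPolynomial (Fin 5) ℂ →ₐ[ℂ] K4) := by
    rw [hKER c]; exact Ideal.mem_span_singleton_self _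
  apply Subtype.ext
  rw [ev_coe]
  exact h

/-- the dimension of the fibre -/
theorem dim_fibre (hKER : S_KER) (c : Ch) {R : Type} [CommRing R] (eqv : MvPolynomial YI ℂ ≃+* R)
    (ψ : R →+* A c) (hC : ∀ w : ℂ, ψ (eqv (C w)) = algebraMap ℂ (A c) w)
    (h0 : ψ (eqv (X (Sum.inr ((), 0)))) = gA c 0) (h1 : ψ (eqv (X (Sum.inr ((), 1)))) = gA c 1)
    (h2 : ψ (eqv (X (Sum.inl ()))) = gA c 2) (n : Ideal R) (hn : n.IsMaximal) :
    ringKrullDim (A c ⧸ n.map ψ) = 1 := by
  -- the point of the base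
  have hn' : (n.comap (eqv : MvPolynomial YI ℂ →+* R)).IsMaximal :=
    Ideal.comap_isMaximal_of_surjective _ eqv.surjective
  obtain ⟨z, hz⟩ := MvPolynomial.isMaximal_iff_eq_vanishingIdeal_singleton.1 hn'
  have hmem : ∀ P, eqv P ∈ n ↔ aeval z P = 0 := by
    intro P
    rw [← MvPolynomial.mem_vanishingIdeal_singleton_iff, ← hz]
    rfl
  set p := ez z (FF c.2.1 c.2.2) with hp
  obtain ⟨hpm, hpd⟩ := ez_monic z c.2.1 c.2.2
  set I := n.map ψ with hI
  -- modulo `I` the first three coordinates are constants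
  have hcon : ∀ (y : YI) (g : A c), ψ (eqv (X y)) = g →
      Ideal.Quotient.mk I g = algebraMap ℂ (A c ⧸ I) (z y) := by
    intro y g hg
    have e1 : eqv (X y - C (z y)) ∈ n := by
      rw [hmem, map_sub, aeval_X, aeval_C]
      exact sub_self _
    have e2 : ψ (eqv (X y - C (z y))) ∈ I := Ideal.mem_map_of_mem ψ e1
    rw [map_sub, map_sub, hg, hC] at e2
    exact (Ideal.Quotient.eq.2 e2)
  apply le_antisymm
  · -- upper bound
    let f : Polynomial (Polynomial ℂ) →+* A c ⧸ I :=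
      Polynomial.eval₂RingHom (Polynomial.eval₂RingHom (algebraMap ℂ (A c ⧸ I))
        (Ideal.Quotient.mk I (gA c 3))) (Ideal.Quotient.mk I (gA c 4))
    have hf : ∀ P, f (ez z P) = Ideal.Quotient.mk I (ev c P) := by
      intro P
      have : (f.comp (ez z).toRingHom) = (Ideal.Quotient.mk I).comp (ev c).toRingHom := by
        apply MvPolynomial.ringHom_ext
        · intro w
          show f (ez z (C w)) = Ideal.Quotient.mk I (ev c (C w))
          rw [← MvPolynomial.algebraMap_eq, AlgHom.commutes, AlgHom.commutes]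
          show f (Polynomial.C (Polynomial.C w)) = _
          simp only [f, Polynomial.coe_eval₂RingHom, Polynomial.eval₂_C]
          rfl
        · intro m
          show f (ez z (X m)) = Ideal.Quotient.mk I (ev c (X m))
          have em : ev c (X m) = gA c m := by rw [ev, aeval_X]
          rw [em]
          fin_cases m
          · show f (ez z (X 0)) = Ideal.Quotient.mk I (gA c 0)
            rw [ez_0, hcon _ _ h0]
            simp only [f, Polynomial.coe_eval₂RingHom, Polynomial.eval₂_C]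
          · show f (ez z (X 1)) = Ideal.Quotient.mk I (gA c 1)
            rw [ez_1, hcon _ _ h1]
            simp only [f, Polynomial.coe_eval₂RingHom, Polynomial.eval₂_C]
          · show f (ez z (X 2)) = Ideal.Quotient.mk I (gA c 2)
            rw [ez_2, hcon _ _ h2]
            simp only [f, Polynomial.coe_eval₂RingHom, Polynomial.eval₂_C]
          · show f (ez z (X 3)) = Ideal.Quotient.mk I (gA c 3)
            rw [ez_3]
            simp only [f, Polynomial.coe_eval₂RingHom, Polynomial.eval₂_C, Polynomial.eval₂_X]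
          · show f (ez z (X 4)) = Ideal.Quotient.mk I (gA c 4)
            rw [ez_4]
            simp only [f, Polynomial.coe_eval₂RingHom, Polynomial.eval₂_X]
      exact DFunLike.congr_fun this P
    refine @dim_le_one (A c ⧸ I) _ f ?_ p hpm.ne_zero ?_
    · intro x
      obtain ⟨y, rfl⟩ := Ideal.Quotient.mk_surjective x
      obtain ⟨P, rfl⟩ := ev_surj c y
      exact ⟨ez z P, hf P⟩
    · rw [hp, hf, ev_FF hKER, map_zero]
  · -- lower bound
    have hker : RingHom.ker (ev c).toRingHom ≤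
        RingHom.ker ((AdjoinRoot.mk p).comp (ez z).toRingHom) := by
      intro P hP
      have hP' := ev_ker hKER c P hP
      obtain ⟨Q, rfl⟩ := Ideal.mem_span_singleton'.1 hP'
      rw [RingHom.mem_ker]
      show AdjoinRoot.mk p (ez z (Q * FF c.2.1 c.2.2)) = 0
      rw [map_mul, map_mul, ← hp, AdjoinRoot.mk_self, mul_zero]
    let χ : A c →+* AdjoinRoot p :=
      (ev c).toRingHom.liftOfSurjective (ev_surj c) ⟨(AdjoinRoot.mk p).comp (ez z).toRingHom, hker⟩
    have hχ : ∀ P, χ (ev c P) = AdjoinRoot.mk p (ez z P) := fun P =>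
      RingHom.liftOfSurjective_comp_apply (ev c).toRingHom (ev_surj c)
        ⟨(AdjoinRoot.mk p).comp (ez z).toRingHom, hker⟩ P
    have hχψ : ∀ P, χ (ψ (eqv P)) = AdjoinRoot.mk p (Polynomial.C (Polynomial.C (aeval z P))) := by
      intro P
      have : (χ.comp (ψ.comp (eqv : MvPolynomial YI ℂ →+* R))) =
          (AdjoinRoot.mk p).comp (Polynomial.C.comp (Polynomial.C.comp
            (aeval z : MvPolynomial YI ℂ →ₐ[ℂ] ℂ).toRingHom)) := by
        apply MvPolynomial.ringHom_ext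
        · intro w
          show χ (ψ (eqv (C w))) = AdjoinRoot.mk p (Polynomial.C (Polynomial.C (aeval z (C w))))
          rw [hC, ← (ev c).commutes w, hχ, AlgHom.commutes, aeval_C]
          rfl
        · have eX : ∀ m : Fin 5, gA c m = ev c (X m) := fun m => by rw [ev, aeval_X]
          rintro (⟨⟩ | ⟨⟨⟩, m⟩)
          · show χ (ψ (eqv (X (Sum.inl ())))) =
              AdjoinRoot.mk p (Polynomial.C (Polynomial.C (aeval z (X (Sum.inl ())))))
            rw [h2, eX, hχ, ez_2, aeval_X]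
          · fin_cases m
            · show χ (ψ (eqv (X (Sum.inr ((), 0))))) =
                AdjoinRoot.mk p (Polynomial.C (Polynomial.C (aeval z (X (Sum.inr ((), 0))))))
              rw [h0, eX, hχ, ez_0, aeval_X]
            · show χ (ψ (eqv (X (Sum.inr ((), 1))))) =
                AdjoinRoot.mk p (Polynomial.C (Polynomial.C (aeval z (X (Sum.inr ((), 1))))))
              rw [h1, eX, hχ, ez_1, aeval_X]
      exact DFunLike.congr_fun this P
    have hIχ : ∀ x ∈ I, χ x = 0 := by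
      intro x hx
      have h3 : I ≤ RingHom.ker χ := by
        rw [hI, Ideal.map_le_iff_le_comap]
        intro r hr
        obtain ⟨P, rfl⟩ := eqv.surjective r
        rw [Ideal.mem_comap, RingHom.mem_ker, hχψ, (hmem P).1 hr]
        simp
      exact h3 hx
    have hsurj : Function.Surjective (Ideal.Quotient.lift I χ hIχ) := by
      apply Ideal.Quotient.lift_surjective_of_surjective
      intro y
      obtain ⟨q, rfl⟩ := AdjoinRoot.mk_surjective y
      obtain ⟨P, rfl⟩ := ez_surj z q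
      exact ⟨ev c P, hχ P⟩
    refine (one_le_dim p hpm ?_).trans (ringKrullDim_le_of_surjective _ hsurj)
    rw [hp, hpd]
    norm_num

theorem dim_fibre_Y (hKER : S_KER) (h : XP) (c : Ch) (Y : SmoothProperVariety) (d : Y.Chart)
    (φ : Y.K →ₐ[ℂ] K4) (hm : MapsTo (X := Xv h) (Y := Y) φ c d)
    (eqv : MvPolynomial YI ℂ ≃+* Y.ring d)
    (hC : ∀ w : ℂ, φ ((eqv (C w) : Y.ring d) : Y.K) = algebraMap ℂ K4 w)
    (h0 : φ ((eqv (X (Sum.inr ((), 0))) : Y.ring d) : Y.K) = gen c 0)
    (h1 : φ ((eqv (X (Sum.inr ((), 1))) : Y.ring d) : Y.K) = gen c 1)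
    (h2 : φ ((eqv (X (Sum.inl ())) : Y.ring d) : Y.K) = gen c 2)
    (n : Ideal (Y.ring d)) (hn : n.IsMaximal) :
    ringKrullDim (FibreRing (X := Xv h) (Y := Y) φ hm n) = 1 := by
  refine dim_fibre hKER c (R := Y.ring d) eqv (chartHom (X := Xv h) (Y := Y) φ hm) ?_ ?_ ?_ ?_ n hn
  · intro w
    exact Subtype.ext (hC w)
  · exact Subtype.ext h0
  · exact Subtype.ext h1
  · exact Subtype.ext h2

/-- the chart is a polynomial ring -/
noncomputable def eqv (k : Fin 3) (j : Bool) : MvPolynomial YI ℂ ≃+* Yv.ring (yc k j) :=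
  (FanoFib.Tower.towerCone (I := Unit) (J := Unit) (fun _ _ => -2) (fun _ => j)
    (fun _ => k)).equivRing.toRingEquiv

theorem eqv_X (k : Fin 3) (j : Bool) (x : YI) : ((eqv k j (X x) : Yv.ring (yc k j)) : K3) =
    gy k j x := by
  show (FanoFib.Tower.towerCone (I := Unit) (J := Unit) (fun _ _ => -2) (fun _ => j)
    (fun _ => k)).toRing (X x) = _
  rw [Cone.toRing, aeval_X]
  rfl

theorem eqv_C (k : Fin 3) (j : Bool) (w : ℂ) : ((eqv k j (C w) : Yv.ring (yc k j)) : K3) =
    algebraMap ℂ K3 w := by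
  show (FanoFib.Tower.towerCone (I := Unit) (J := Unit) (fun _ _ => -2) (fun _ => j)
    (fun _ => k)).toRing (C w) = _
  rw [← MvPolynomial.algebraMap_eq, AlgHom.commutes]

end DMF

open DMF in
/-- from `S_KER` and `S_MOR` -/
theorem t_DMF (hKER : S_KER) (hMOR : S_MOR) : S_DMF := by
  intro h φ hφ k j i
  obtain ⟨m0, m1, m2⟩ := hMOR.2.2 φ hφ k j i
  have hm : MapsTo (X := Xv h) (Y := Yv) φ ((k, j, i) : Ch) (yc k j) := by
    intro b hb
    rw [hMOR.2.1 k j] at hb
    have h1 : Algebra.adjoin ℂ (Set.range (gy k j)) ≤ (A (k, j, i)).comap φ := by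
      rw [Algebra.adjoin_le_iff]
      rintro _ ⟨⟨⟩ | ⟨⟨⟩, m⟩, rfl⟩
      · show φ (gy k j (Sum.inl ())) ∈ A (k, j, i)
        rw [m2]; exact gen_mem _ _
      · fin_cases m
        · show φ (gy k j (Sum.inr ((), 0))) ∈ A (k, j, i)
          rw [m0]; exact gen_mem _ _
        · show φ (gy k j (Sum.inr ((), 1))) ∈ A (k, j, i)
          rw [m1]; exact gen_mem _ _
    exact h1 hb
  have hC : ∀ w : ℂ, φ ((eqv k j (C w) : Yv.ring (yc k j)) : K3) = algebraMap ℂ K4 w := by
    intro w
    rw [eqv_C]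
    exact φ.commutes w
  have e0 : φ ((eqv k j (X (Sum.inr ((), 0))) : Yv.ring (yc k j)) : K3) = gen (k, j, i) 0 := by
    rw [eqv_X, m0]
  have e1 : φ ((eqv k j (X (Sum.inr ((), 1))) : Yv.ring (yc k j)) : K3) = gen (k, j, i) 1 := by
    rw [eqv_X, m1]
  have e2 : φ ((eqv k j (X (Sum.inl ())) : Yv.ring (yc k j)) : K3) = gen (k, j, i) 2 := by
    rw [eqv_X, m2]
  exact ⟨hm, fun n hn => dim_fibre_Y hKER h (k, j, i) Yv (yc k j) φ hm (eqv k j) hC e0 e1 e2 n hn⟩

end FB
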