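import Pool.Agent.T2h12.FB.Stm
import Pool.Agent.Helper419.KS.Adic

/-!
DVC: the order along a prime element of an affine coordinate ring.
-/

set_option autoImplicit false

namespace FB

open FanoFib FanoFib.Tor

/-- the order along a prime element `p` of a Noetherian domain on the fraction field -/
theorem dvc_adic {B K : Type} [CommRing B] [IsDomain B] [WfDvdMonoid B] [Field K] [Algebra B K]
    [IsFractionRing B K] {p : B} (hp : Prime p) : ∃ v : AddValuation K (WithTop ℤ),
    ∀ b : B, v (algebraMap B K b) = fZ9735 (emultiplicity p b) := by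
  set v0 : AddValuation B (WithTop ℤ) :=
    (multiplicity_addValuation hp).map fZ9735 fZ9735_top fZ9735_mono with hv0
  have hv0' : ∀ q, v0 q = fZ9735 (emultiplicity p q) := fun q => rfl
  set w0 : Valuation B (Multiplicative (WithTop ℤ)ᵒᵈ) :=
    AddValuation.toValuation v0 with hw0
  have hS : nonZeroDivisors B ≤ w0.supp.primeCompl := by
    intro q hq hmem
    have hq0 : q ≠ 0 := nonZeroDivisors.ne_zero hq
    have h1 : w0 q = 0 := (Valuation.mem_supp_iff w0 q).mp hmem
    have h2 : v0 q = ⊤ := h1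
    rw [hv0'] at h2
    have h3 := FiniteMultiplicity.of_prime_left hp hq0
    rw [h3.emultiplicity_eq_multiplicity, fZ9735_coe] at h2
    exact WithTop.coe_ne_top h2
  refine ⟨AddValuation.ofValuation (w0.extendToLocalization hS K), fun b => ?_⟩
  rw [AddValuation.ofValuation_apply, Valuation.extendToLocalization_apply_map_apply]
  rfl

theorem t_DVC : S_DVC := by
  intro X B hfg hfr π hp
  have hft : Algebra.FiniteType ℂ B := B.fg_iff_finiteType.1 hfg
  have hN : IsNoetherianRing B := Algebra.FiniteType.isNoetherianRing ℂ B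
  have hfrac : IsFractionRing B X.K := by
    refine IsFractionRing.of_field B X.K fun z => ?_
    obtain ⟨a, ha, b, hb, -, h⟩ := hfr z
    exact ⟨⟨a, ha⟩, ⟨b, hb⟩, h⟩
  obtain ⟨v, hv⟩ := dvc_adic (K := X.K) hp
  have hv' : ∀ b : B, v (b : X.K) = fZ9735 (emultiplicity π b) := hv
  have hnd : ∀ b : B, ¬ π ∣ b → v (b : X.K) = 0 := by
    intro b hb
    rw [hv', emultiplicity_eq_zero.mpr hb, _root_.map_zero]
  have h0 : ∀ b : B, 0 ≤ v (b : X.K) := by
    intro b
    rw [hv']
    exact fZ9735_nonneg _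
  have h1 : v (π : X.K) = 1 := by
    rw [hv', (FiniteMultiplicity.of_prime_left hp hp.ne_zero).emultiplicity_self]
    rfl
  have hfin : ∀ f : X.K, 0 ≤ v f → ∃ a ∈ B, ∃ s ∈ B, v s = 0 ∧ f = a / s := by
    intro f hf
    obtain ⟨p, hpB, q, hqB, hqK, rfl⟩ := hfr f
    have hq0 : (⟨q, hqB⟩ : B) ≠ 0 := fun h => hqK (congrArg Subtype.val h)
    obtain ⟨s, hs1, hs2⟩ :=
      (FiniteMultiplicity.of_prime_left hp hq0).exists_eq_pow_mul_and_not_dvd
    have hs0 : v (s : X.K) = 0 := hnd s hs2
    set l := multiplicity π (⟨q, hqB⟩ : B) with hl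
    have hvq : v q = ((l : ℤ) : WithTop ℤ) := by
      have := hv' ⟨q, hqB⟩
      rw [(FiniteMultiplicity.of_prime_left hp hq0).emultiplicity_eq_multiplicity, fZ9735_coe] at this
      exact this
    have hvp : ((l : ℤ) : WithTop ℤ) ≤ v p := by
      have h1 : p = (p / q) * q := by
        rw [div_mul_cancel₀ _ hqK]
      rw [h1, AddValuation.map_mul, hvq]
      exact le_add_of_nonneg_left hf
    have hdvd : π ^ l ∣ (⟨p, hpB⟩ : B) := by
      apply pow_dvd_of_le_emultiplicity
      have h2 := hv' ⟨p, hpB⟩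
      change v p = _ at h2
      rw [h2] at hvp
      by_contra hcon
      push Not at hcon
      obtain ⟨m, hm⟩ := ENat.ne_top_iff_exists.mp (ne_top_of_lt hcon)
      rw [← hm] at hcon hvp
      rw [fZ9735_coe] at hvp
      have h3 : (l : ℤ) ≤ m := by exact_mod_cast hvp
      have h4 : m < l := by exact_mod_cast hcon
      omega
    obtain ⟨p', hp'⟩ := hdvd
    have hp'' : p = (π : X.K) ^ l * (p' : X.K) := by
      have := congrArg Subtype.val hp'
      simpa using this
    have hq'' : q = (π : X.K) ^ l * (s : X.K) := by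
      have := congrArg Subtype.val hs1
      simpa using this
    refine ⟨p', p'.2, s, s.2, hs0, ?_⟩
    have hXl : (π : X.K) ^ l ≠ 0 := by
      apply pow_ne_zero
      intro h
      exact hp.ne_zero (Subtype.ext h)
    rw [hp'', hq'', mul_div_mul_left _ _ hXl]
  refine ⟨⟨v, ?_, ⟨π, h1⟩, ⟨B, hfg, fun b hb => h0 ⟨b, hb⟩, hfin⟩⟩, h0, hnd, h1, hfin⟩
  intro z hz
  have h2 := hnd (algebraMap ℂ B z) (by
    intro h
    exact hp.not_isUnit (isUnit_of_dvd_unit h ((isUnit_iff_ne_zero.mpr hz).map (algebraMap ℂ B))))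
  exact h2

end FB
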