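import Pool.Agent.T2h12.FB.H7Div

/-!
EE1: the first component of `y1 = 0` in `X`.
-/

set_option autoImplicit false

namespace FB

open FanoFib FanoFib.Tor MvPolynomial

theorem t_EE1 (hDVC : S_DVC) (hLOC : S_LOC) (hREL : S_REL) : S_EE1 := by
  intro h
  obtain ⟨hms, hhh, hct, hca, hcb, hcs, hcu, -⟩ := hREL
  obtain ⟨g, hg⟩ : ∃ g : Fin 4 → K4, g = ![ca, cb, cs, cu - cs ^ 2] := ⟨_, rfl⟩
  have g0 : g 0 = ca := by rw [hg]; rfl
  have g1 : g 1 = cb := by rw [hg]; rfl
  have g2 : g 2 = cs := by rw [hg]; rfl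
  have g3 : g 3 = cu - cs ^ 2 := by rw [hg]; rfl
  have hm : ∀ i, H7.Fr (Algebra.adjoin ℂ (Set.range g)) (g i) := fun i =>
    H7.Fr.of_mem (Algebra.subset_adjoin ⟨i, rfl⟩)
  have hf : ∀ i, H7.Fr (Algebra.adjoin ℂ (Set.range g)) (xx i) := by
    intro i
    fin_cases i
    · have e : (xx 0 : K4) = g 0 := by
        rw [g0]; rfl
      exact e ▸ (hm 0)
    · have e : (xx 1 : K4) = g 1 := by
        rw [g1]; rfl
      exact e ▸ (hm 1)
    · have e : (xx 2 : K4) = g 2 := by
        rw [g2]; rfl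
      exact e ▸ (hm 2)
    · have e : (xx 3 : K4) = g 3 + g 2 * g 2 := by
        rw [g2, g3]; change cu = _; ring
      exact e ▸ (hm 3).add ((hm 2).mul (hm 2))
  obtain ⟨v, h1, v3, hE⟩ := H7.exists_div4 hDVC hLOC h g hf 3
  have v0 : H7.V v (g 0) 0 := by
    have := h1 (X 0) ![1, 1, 1, 0] rfl (by simp)
    rwa [aeval_X] at this
  have v1 : H7.V v (g 1) 0 := by
    have := h1 (X 1) ![1, 1, 1, 0] rfl (by simp)
    rwa [aeval_X] at this
  have v2 : H7.V v (g 2) 0 := by
    have := h1 (X 2) ![1, 1, 1, 0] rfl (by simp)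
    rwa [aeval_X] at this
  have vN : H7.V v ((g 3 + g 2 ^ 2) ^ 2 + (1 + g 0 ^ 4 + g 1 ^ 4)) 0 := by
    have := h1 ((X 3 + X 2 ^ 2) ^ 2 + (1 + X 0 ^ 4 + X 1 ^ 4)) ![0, 0, 0, 0] rfl (by simp)
    simpa only [_root_.map_add, _root_.map_mul, _root_.map_pow, aeval_X, _root_.map_one] using this
  have vU : H7.V v (g 3 + g 2 ^ 2) 0 := by
    have := h1 (X 3 + X 2 ^ 2) ![0, 0, 1, 0] rfl (by simp)
    simpa only [_root_.map_add, _root_.map_mul, _root_.map_pow, aeval_X, _root_.map_one] using this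
  have vM : H7.V v ((g 3 + g 2 ^ 2) * g 2 ^ 2 + (1 + g 0 ^ 4 + g 1 ^ 4)) 0 := by
    have := h1 ((X 3 + X 2 ^ 2) * X 2 ^ 2 + (1 + X 0 ^ 4 + X 1 ^ 4)) ![0, 0, 0, 0] rfl (by simp)
    simpa only [_root_.map_add, _root_.map_mul, _root_.map_pow, aeval_X, _root_.map_one] using this
  have va : H7.V v ca 0 := v0.congr g0
  have vb : H7.V v cb 0 := v1.congr g1
  have vs : H7.V v cs 0 := v2.congr g2
  have vu : H7.V v cu 0 := vU.congr (by rw [g2, g3]; ring)
  have eN : (g 3 + g 2 ^ 2) ^ 2 + (1 + g 0 ^ 4 + g 1 ^ 4) = cu ^ 2 + hh := by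
    rw [g0, g1, g2, g3]
    unfold hh
    ring
  have eM : (g 3 + g 2 ^ 2) * g 2 ^ 2 + (1 + g 0 ^ 4 + g 1 ^ 4) = cu * cs ^ 2 + hh := by
    rw [g0, g1, g2, g3]
    unfold hh
    ring
  have hN0 : cu ^ 2 + hh ≠ 0 := eN ▸ vN.ne_zero
  have vt : H7.V v ct (-1) := (vN.div v3).neg.congr (by
    rw [eN, g3]
    unfold ct
    ring)
  have vW : H7.V v (cu / ct + 1) 0 := (vM.div vN).congr (by
    rw [eN, eM]
    unfold ct
    field_simp
    ring)
  obtain ⟨E, hE⟩ := hE (0, false, true) (by
    intro m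
    fin_cases m
    · have e : gen (0, false, true) 0 = ca / 1 := rfl
      change 0 ≤ v (gen (0, false, true) 0)
      rw [e, div_one]
      exact va.nonneg (by norm_num)
    · have e : gen (0, false, true) 1 = cb / 1 := rfl
      change 0 ≤ v (gen (0, false, true) 1)
      rw [e, div_one]
      exact vb.nonneg (by norm_num)
    · have e : gen (0, false, true) 2 = 1 ^ 2 / ct := rfl
      change 0 ≤ v (gen (0, false, true) 2)
      rw [e, one_pow]
      exact (H7.V.one.div vt).nonneg (by norm_num)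
    · have e : gen (0, false, true) 3 = cs / 1 := rfl
      change 0 ≤ v (gen (0, false, true) 3)
      rw [e, div_one]
      exact vs.nonneg (by norm_num)
    · have e : gen (0, false, true) 4 = cu * 1 / (ct * 1) := rfl
      change 0 ≤ v (gen (0, false, true) 4)
      rw [e, mul_one, mul_one]
      exact (vu.div vt).nonneg (by norm_num)) (by
    intro i
    have key : ∀ m : Fin 5, gen (0, false, true) m = g i →
        ∃ a ∈ A (0, false, true), ∃ s ∈ A (0, false, true), H7.V v s 0 ∧ g i = a / s := by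
      intro m hm
      exact ⟨_, gen_mem _ m, 1, one_mem _, H7.V.one, by rw [hm, div_one]⟩
    have m0 : ca ∈ A (0, false, true) := by
      have := gen_mem (0, false, true) 0
      rwa [show gen (0, false, true) 0 = ca / 1 from rfl, div_one] at this
    have m1 : cb ∈ A (0, false, true) := by
      have := gen_mem (0, false, true) 1
      rwa [show gen (0, false, true) 1 = cb / 1 from rfl, div_one] at this
    have m2 : ct⁻¹ ∈ A (0, false, true) := by
      have := gen_mem (0, false, true) 2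
      rwa [show gen (0, false, true) 2 = 1 ^ 2 / ct from rfl, one_pow, one_div] at this
    have m3 : cs ∈ A (0, false, true) := by
      have := gen_mem (0, false, true) 3
      rwa [show gen (0, false, true) 3 = cs / 1 from rfl, div_one] at this
    have m4 : cu / ct ∈ A (0, false, true) := by
      have := gen_mem (0, false, true) 4
      rwa [show gen (0, false, true) 4 = cu * 1 / (ct * 1) from rfl, mul_one, mul_one] at this
    have mh : hh ∈ A (0, false, true) := by
      unfold hh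
      exact add_mem (add_mem (one_mem _) (pow_mem m0 4)) (pow_mem m1 4)
    fin_cases i
    · refine key 0 ?_
      change ca / 1 = g 0
      rw [g0, div_one]
    · refine key 1 ?_
      change cb / 1 = g 1
      rw [g1, div_one]
    · refine key 3 ?_
      change cs / 1 = g 2
      rw [g2, div_one]
    · refine ⟨-(hh * ct⁻¹) - cs ^ 2 * (cu / ct),
        sub_mem (neg_mem (mul_mem mh m2)) (mul_mem (pow_mem m3 2) m4), cu / ct + 1,
        add_mem m4 (one_mem _), vW, ?_⟩
      change g 3 = _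
      have h8 : cu / ct + 1 ≠ 0 := vW.ne_zero
      rw [g3, eq_div_iff h8]
      have e1 : ct * (cu - cs ^ 2) = -(cu ^ 2 + hh) := by
        unfold ct
        field_simp
      field_simp
      linear_combination e1)
  exact ⟨E, hE _ _ va, hE _ _ vb, hE _ _ vs, hE _ _ vu, hE _ _ vt⟩

end FB
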