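import Pool.Agent.T2h12.FB.H7Div

/-!
EPP: the prime divisor `p = 0` of `X`.
-/

set_option autoImplicit false

namespace FB

open FanoFib FanoFib.Tor MvPolynomial

theorem t_EPP (hDVC : S_DVC) (hLOC : S_LOC) (hREL : S_REL) : S_EPP := by
  intro h
  obtain ⟨hms, hhh, hct, hca, hcb, hcs, hcu, -⟩ := hREL
  obtain ⟨g, hg⟩ : ∃ g : Fin 4 → K4, g = ![ca, cb, 1 / cs, cu / cs] := ⟨_, rfl⟩
  have g0 : g 0 = ca := by rw [hg]; rfl
  have g1 : g 1 = cb := by rw [hg]; rfl
  have g2 : g 2 = 1 / cs := by rw [hg]; rfl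
  have g3 : g 3 = cu / cs := by rw [hg]; rfl
  have hm : ∀ i, H7.Fr (Algebra.adjoin ℂ (Set.range g)) (g i) := fun i =>
    H7.Fr.of_mem (Algebra.subset_adjoin ⟨i, rfl⟩)
  have hf : ∀ i, H7.Fr (Algebra.adjoin ℂ (Set.range g)) (xx i) := by
    intro i
    fin_cases i
    · have e : (xx 0 : K4) = g 0 := by
        rw [g0]; rfl
      exact e ▸ (hm 0)
    · have e : (xx 1 : K4) = g 1 := by
        rw [g1]; rfl
      exact e ▸ (hm 1)
    · have e : (xx 2 : K4) = (g 2)⁻¹ := by
        rw [g2]; change cs = _; simp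
      exact e ▸ (hm 2).inv
    · have e : (xx 3 : K4) = g 3 / g 2 := by
        rw [g2, g3]; change cu = _; field_simp
      exact e ▸ (hm 3).div (hm 2)
  obtain ⟨v, h1, v2, hE⟩ := H7.exists_div4 hDVC hLOC h g hf 2
  have v0 : H7.V v (g 0) 0 := by
    have := h1 (X 0) ![1, 1, 0, 1] rfl (by simp)
    rwa [aeval_X] at this
  have v1 : H7.V v (g 1) 0 := by
    have := h1 (X 1) ![1, 1, 0, 1] rfl (by simp)
    rwa [aeval_X] at this
  have v3 : H7.V v (g 3) 0 := by
    have := h1 (X 3) ![1, 1, 0, 1] rfl (by simp)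
    rwa [aeval_X] at this
  have vN : H7.V v (g 3 ^ 2 + (1 + g 0 ^ 4 + g 1 ^ 4) * g 2 ^ 2) 0 := by
    have := h1 (X 3 ^ 2 + (1 + X 0 ^ 4 + X 1 ^ 4) * X 2 ^ 2) ![0, 0, 0, 1] rfl (by simp)
    simpa only [_root_.map_add, _root_.map_mul, _root_.map_pow, aeval_X, _root_.map_one] using this
  have vD : H7.V v (g 3 * g 2 - 1) 0 := by
    have := h1 (X 3 * X 2 - 1) ![0, 0, 0, 1] rfl (by simp)
    simpa only [_root_.map_sub, _root_.map_mul, _root_.map_pow, aeval_X, _root_.map_one] using this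
  have va : H7.V v ca 0 := v0.congr g0
  have vb : H7.V v cb 0 := v1.congr g1
  have vs : H7.V v cs (-1) := v2.inv.congr (by rw [g2]; simp)
  have vu : H7.V v cu (-1) := (v3.div v2).congr (by rw [g2, g3]; field_simp)
  have vt : H7.V v ct 0 := (vN.div vD).neg.congr (by
    rw [g0, g1, g2, g3]
    unfold ct
    have h6 : cu / cs * (1 / cs) - 1 = (cu - cs ^ 2) / cs ^ 2 := by
      field_simp
    rw [h6]
    unfold hh
    field_simp)
  obtain ⟨E, hE⟩ := hE (0, true, false) (by
    intro m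
    fin_cases m
    · have e : gen (0, true, false) 0 = ca / 1 := rfl
      change 0 ≤ v (gen (0, true, false) 0)
      rw [e, div_one]
      exact va.nonneg (by norm_num)
    · have e : gen (0, true, false) 1 = cb / 1 := rfl
      change 0 ≤ v (gen (0, true, false) 1)
      rw [e, div_one]
      exact vb.nonneg (by norm_num)
    · have e : gen (0, true, false) 2 = ct / 1 ^ 2 := rfl
      change 0 ≤ v (gen (0, true, false) 2)
      rw [e, one_pow, div_one]
      exact vt.nonneg (by norm_num)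
    · have e : gen (0, true, false) 3 = 1 / cs := rfl
      change 0 ≤ v (gen (0, true, false) 3)
      rw [e, ← g2]
      exact v2.nonneg (by norm_num)
    · have e : gen (0, true, false) 4 = cu * 1 / (1 ^ 2 * cs) := rfl
      change 0 ≤ v (gen (0, true, false) 4)
      rw [e, mul_one, one_pow, one_mul]
      exact (vu.div vs).nonneg (by norm_num)) (by
    intro i
    have key : ∀ m : Fin 5, gen (0, true, false) m = g i →
        ∃ a ∈ A (0, true, false), ∃ s ∈ A (0, true, false), H7.V v s 0 ∧ g i = a / s := by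
      intro m hm
      exact ⟨_, gen_mem _ m, 1, one_mem _, H7.V.one, by rw [hm, div_one]⟩
    fin_cases i
    · refine key 0 ?_
      change ca / 1 = g 0
      rw [g0, div_one]
    · refine key 1 ?_
      change cb / 1 = g 1
      rw [g1, div_one]
    · exact key 3 g2.symm
    · refine key 4 ?_
      change cu * 1 / (1 ^ 2 * cs) = g 3
      rw [g3]
      field_simp)
  exact ⟨E, hE _ _ va, hE _ _ vb, hE _ _ vs, hE _ _ vu, hE _ _ vt⟩

end FB
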