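import Pool.Agent.T2h12.FB.H7Div

/-!
EWW: the prime divisor `w0 = 0` of `X`.
-/

set_option autoImplicit false

namespace FB

open FanoFib FanoFib.Tor MvPolynomial

theorem t_EWW (hDVC : S_DVC) (hLOC : S_LOC) (hREL : S_REL) : S_EWW := by
  intro h
  obtain ⟨hms, hhh, hct, hca, hcb, hcs, hcu, -⟩ := hREL
  obtain ⟨g, hg⟩ : ∃ g : Fin 4 → K4, g = ![1 / ca, cb / ca, cs / ca, cu / ca ^ 2] := ⟨_, rfl⟩
  have g0 : g 0 = 1 / ca := by rw [hg]; rfl
  have g1 : g 1 = cb / ca := by rw [hg]; rfl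
  have g2 : g 2 = cs / ca := by rw [hg]; rfl
  have g3 : g 3 = cu / ca ^ 2 := by rw [hg]; rfl
  have hm : ∀ i, H7.Fr (Algebra.adjoin ℂ (Set.range g)) (g i) := fun i =>
    H7.Fr.of_mem (Algebra.subset_adjoin ⟨i, rfl⟩)
  have hf : ∀ i, H7.Fr (Algebra.adjoin ℂ (Set.range g)) (xx i) := by
    intro i
    fin_cases i
    · have e : (xx 0 : K4) = (g 0)⁻¹ := by
        rw [g0]; unfold ca; simp
      exact e ▸ (hm 0).inv
    · have e : (xx 1 : K4) = g 1 / g 0 := by
        rw [g0, g1]; change cb = _; field_simp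
      exact e ▸ (hm 1).div (hm 0)
    · have e : (xx 2 : K4) = g 2 / g 0 := by
        rw [g0, g2]; change cs = _; field_simp
      exact e ▸ (hm 2).div (hm 0)
    · have e : (xx 3 : K4) = g 3 / (g 0 * g 0) := by
        rw [g0, g3]; change cu = _; field_simp
      exact e ▸ (hm 3).div ((hm 0).mul (hm 0))
  obtain ⟨v, h1, v0, hE⟩ := H7.exists_div4 hDVC hLOC h g hf 0
  have v1 : H7.V v (g 1) 0 := by
    have := h1 (X 1) ![0, 1, 1, 1] rfl (by simp)
    rwa [aeval_X] at this
  have v2 : H7.V v (g 2) 0 := by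
    have := h1 (X 2) ![0, 1, 1, 1] rfl (by simp)
    rwa [aeval_X] at this
  have v3 : H7.V v (g 3) 0 := by
    have := h1 (X 3) ![0, 1, 1, 1] rfl (by simp)
    rwa [aeval_X] at this
  have vN : H7.V v (g 3 ^ 2 + (g 0 ^ 4 + 1 + g 1 ^ 4)) 0 := by
    have := h1 (X 3 ^ 2 + (X 0 ^ 4 + 1 + X 1 ^ 4)) ![0, 0, 0, 0] rfl (by simp)
    simpa only [_root_.map_add, _root_.map_mul, _root_.map_pow, aeval_X, _root_.map_one] using this
  have vD : H7.V v (g 3 - g 2 ^ 2) 0 := by
    have := h1 (X 3 - X 2 ^ 2) ![0, 0, 0, 1] rfl (by simp)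
    simpa only [_root_.map_sub, _root_.map_mul, _root_.map_pow, aeval_X, _root_.map_one] using this
  have va : H7.V v ca (-1) := v0.inv.congr (by rw [g0]; simp)
  have vb : H7.V v cb (-1) := (v1.div v0).congr (by rw [g0, g1]; field_simp)
  have vs : H7.V v cs (-1) := (v2.div v0).congr (by rw [g0, g2]; field_simp)
  have vu : H7.V v cu (-2) := (v3.div (v0.pow 2)).congr (by rw [g0, g3]; field_simp)
  have vt : H7.V v ct (-2) := ((vN.div vD).neg.div (v0.pow 2)).congr (by
    rw [g0, g1, g2, g3]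
    unfold ct
    have h5 : cu / ca ^ 2 - (cs / ca) ^ 2 ≠ 0 := by
      have := vD.ne_zero
      rwa [g2, g3] at this
    have h6 : cu / ca ^ 2 - (cs / ca) ^ 2 = (cu - cs ^ 2) / ca ^ 2 := by
      field_simp
    rw [h6]
    unfold hh
    field_simp)
  obtain ⟨E, hE⟩ := hE (1, true, true) (by
    intro m
    fin_cases m
    · have e : gen (1, true, true) 0 = 1 / ca := rfl
      change 0 ≤ v (gen (1, true, true) 0)
      rw [e, ← g0]
      exact v0.nonneg (by norm_num)
    · have e : gen (1, true, true) 1 = cb / ca := rfl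
      change 0 ≤ v (gen (1, true, true) 1)
      rw [e, ← g1]
      exact v1.nonneg (by norm_num)
    · have e : gen (1, true, true) 2 = ct / ca ^ 2 := rfl
      change 0 ≤ v (gen (1, true, true) 2)
      rw [e]
      exact (vt.div (va.pow 2)).nonneg (by norm_num)
    · have e : gen (1, true, true) 3 = cs / ca := rfl
      change 0 ≤ v (gen (1, true, true) 3)
      rw [e, ← g2]
      exact v2.nonneg (by norm_num)
    · have e : gen (1, true, true) 4 = cu * ca / (ca ^ 2 * ca) := rfl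
      change 0 ≤ v (gen (1, true, true) 4)
      rw [e]
      exact ((vu.mul va).div ((va.pow 2).mul va)).nonneg (by norm_num)) (by
    intro i
    have key : ∀ m : Fin 5, gen (1, true, true) m = g i →
        ∃ a ∈ A (1, true, true), ∃ s ∈ A (1, true, true), H7.V v s 0 ∧ g i = a / s := by
      intro m hm
      exact ⟨_, gen_mem _ m, 1, one_mem _, H7.V.one, by rw [hm, div_one]⟩
    fin_cases i
    · exact key 0 g0.symm
    · exact key 1 g1.symm
    · exact key 3 g2.symm
    · refine key 4 ?_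
      change cu * ca / (ca ^ 2 * ca) = g 3
      rw [g3]
      field_simp)
  exact ⟨E, hE _ _ va, hE _ _ vb, hE _ _ vs, hE _ _ vu, hE _ _ vt⟩

end FB
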