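import Pool.Agent.T2h12.FB.Stm

/-! FB: the fourfold is a Fano variety. -/

set_option autoImplicit false

namespace FB

open FanoFib FanoFib.Tor MvPolynomial

namespace FAN

/-- evaluation in the ring of the chart -/
noncomputable def ev (c : Ch) : MvPolynomial (Fin 5) ℂ →ₐ[ℂ] A c := aeval (gA c)

theorem ev_coe (c : Ch) (P : MvPolynomial (Fin 5) ℂ) : ((ev c P : A c) : K4) = aeval (gen c) P := by
  have h : (A c).val.comp (ev c) = aeval (gen c) := by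
    apply MvPolynomial.algHom_ext
    intro m
    show ((ev c (X m) : A c) : K4) = _
    rw [ev, aeval_X, aeval_X]
    rfl
  exact DFunLike.congr_fun h P

theorem W_ne (hREL : S_REL) (k : Fin 3) : W k ≠ 0 := by
  obtain ⟨r1, r2, r3, r4, r5, r6, r7, -⟩ := hREL
  fin_cases k
  · exact one_ne_zero
  · exact r4
  · exact r5

theorem eta_ne (hREL : S_REL) (c : Ch) : eta c ≠ 0 := by
  have hW := W_ne hREL c.1
  obtain ⟨r1, r2, r3, r4, r5, r6, r7, -⟩ := hREL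
  unfold eta
  split_ifs
  · exact pow_ne_zero _ hW
  · exact r3

theorem zeta_ne (hREL : S_REL) (c : Ch) : zeta c ≠ 0 := by
  have hW := W_ne hREL c.1
  obtain ⟨r1, r2, r3, r4, r5, r6, r7, -⟩ := hREL
  unfold zeta
  split_ifs
  · exact hW
  · exact r6

theorem sig_ne (hREL : S_REL) (c : Ch) : sig c ≠ 0 :=
  mul_ne_zero (mul_ne_zero (W_ne hREL _) (eta_ne hREL c)) (zeta_ne hREL c)

theorem kap_ne (hREL : S_REL) : kap ≠ 0 := by
  obtain ⟨r1, r2, r3, r4, r5, r6, r7, -⟩ := hREL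
  exact div_ne_zero r1 (mul_ne_zero (mul_ne_zero (mul_ne_zero r4 r5) r6) r7)

theorem UU_ne (hREL : S_REL) (m : Fin 5) : UU m ≠ 0 := by
  obtain ⟨r1, r2, r3, r4, r5, r6, r7, -⟩ := hREL
  fin_cases m
  · exact r3
  · exact mul_ne_zero r3 r6
  · exact r7
  · exact r6
  · exact one_ne_zero

theorem sec_ne (hREL : S_REL) (m : Fin 5) (k l : Fin 3) : sec m k l ≠ 0 :=
  mul_ne_zero (mul_ne_zero (UU_ne hREL m) (pow_ne_zero _ (W_ne hREL k))) (W_ne hREL l)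

/-- the Jacobians of regular functions -/
theorem jac_mem (hJAC : S_JAC) (hACG : S_ACG) (c : Ch) (t : Fin 4 → K4) (ht : ∀ i, t i ∈ A c) :
    kap * sig c * tjac t ∈ A c := by
  refine hACG (gen c) (kap * sig c) (fun m => ?_) t ht
  obtain ⟨ε, -, h⟩ := hJAC c
  rw [h m, ← ev_coe]
  exact mul_mem (intCast_mem _ _) (ev c _).2

theorem sec_mem (hREL : S_REL) (hSEC : S_SEC) (hJAC : S_JAC) (hACG : S_ACG) (c : Ch) (m : Fin 5)
    (k l : Fin 3) (t : Fin 4 → K4) (ht : ∀ i, t i ∈ A c) :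
    kap * sec m k l * tjac t ∈ A c := by
  have h1 := mul_mem (hSEC.1 c m k l) (jac_mem hJAC hACG c t ht)
  have h2 : sec m k l / sig c * (kap * sig c * tjac t) = kap * sec m k l * tjac t := by
    have := sig_ne hREL c
    field_simp
  rwa [h2] at h1

/-- some Jacobian does not vanish -/
theorem nonvan (hREL : S_REL) (hNCZ : S_NCZ) (c : Ch) (p : Ideal (A c)) (hp : p.IsPrime) :
    ∃ m : Fin 5, ev c (pderiv m (FF c.2.1 c.2.2)) ∉ p := by
  by_contra hcon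
  push Not at hcon
  obtain ⟨q, r, hqr⟩ := hNCZ c.2.1 c.2.2
  have h0 : ev c (FF c.2.1 c.2.2) = 0 := by
    apply Subtype.ext
    rw [ev_coe]
    exact hREL.2.2.2.2.2.2.2.2.1 c
  have h1 := congrArg (ev c) hqr
  rw [map_add, map_mul, h0, mul_zero, zero_add, map_one, map_sum] at h1
  apply hp.ne_top
  rw [Ideal.eq_top_iff_one, ← h1]
  refine Ideal.sum_mem _ fun m _ => ?_
  rw [map_mul]
  exact p.mul_mem_left _ (hcon m)

theorem unit_notMem (c : Ch) (p : Ideal (A c)) (ε : ℤ) (hε : ε = 1 ∨ ε = -1) (m : ℕ) (x : A c)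
    (hx : x ∉ p) : ((ε * (-1) ^ m : ℤ) : A c) * x ∉ p := by
  intro hmem
  have hu : IsUnit (ε * (-1) ^ m : ℤ) := by
    rcases hε with rfl | rfl
    · rw [one_mul]; exact (isUnit_one.neg).pow _
    · exact (isUnit_one.neg).mul ((isUnit_one.neg).pow _)
  obtain ⟨z, hz⟩ := hu.exists_left_inv
  apply hx
  have h2 := p.mul_mem_left ((z : ℤ) : A c) hmem
  rwa [← mul_assoc, ← Int.cast_mul, hz, Int.cast_one, one_mul] at h2

theorem coe_eq (c : Ch) (z : ℤ) (P : MvPolynomial (Fin 5) ℂ) :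
    (((z : A c) * ev c P : A c) : K4) = (z : K4) * aeval (gen c) P := by
  rw [← ev_coe]
  rfl

theorem part_a (hREL : S_REL) (hNCZ : S_NCZ) (hJAC : S_JAC) (c : Ch) (p : Ideal (A c))
    (hp : p.IsPrime) : ∃ (t : Fin 1 → Fin 4 → K4) (a : A c), (∀ k i, t k i ∈ A c) ∧ a ∉ p ∧
      kap * sig c * ∏ k, tjac (t k) = (a : K4) := by
  obtain ⟨m, hm⟩ := nonvan hREL hNCZ c p hp
  obtain ⟨ε, hε, hj⟩ := hJAC c
  refine ⟨fun _ n => gen c (m.succAbove n),
    ((ε * (-1) ^ (m : ℕ) : ℤ) : A c) * ev c (pderiv m (FF c.2.1 c.2.2)), ?_, ?_, ?_⟩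
  · intro _ i
    exact gen_mem c _
  · exact unit_notMem c p ε hε m _ hm
  · rw [Fin.prod_univ_one, hj m]
    exact (coe_eq c (ε * (-1) ^ (m : ℕ)) (pderiv m (FF c.2.1 c.2.2))).symm

/-- the sections -/
noncomputable def SS : Finset K4 := by
  classical
  exact (Finset.univ : Finset (Fin 5 × Fin 3 × Fin 3)).image
    (fun x => (kap * sec x.1 x.2.1 x.2.2 : K4))

theorem mem_SS (x : K4) : x ∈ SS ↔ ∃ m k l, kap * sec m k l = x := by
  classical
  unfold SS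
  rw [Finset.mem_image]
  constructor
  · rintro ⟨⟨m, k, l⟩, -, h⟩; exact ⟨m, k, l, h⟩
  · rintro ⟨m, k, l, h⟩; exact ⟨(m, k, l), Finset.mem_univ _, h⟩

theorem part_b (hREL : S_REL) (hSEC : S_SEC) (c : Ch) :
    Algebra.adjoin ℂ {r : K4 | ∃ t ∈ SS, r = t / (kap * sig c)} ≤ A c := by
  rw [Algebra.adjoin_le_iff]
  rintro _ ⟨t, ht, rfl⟩
  obtain ⟨m, k, l, rfl⟩ := (mem_SS t).1 ht
  show (kap * sec m k l : K4) / (kap * sig c) ∈ A c
  rw [mul_div_mul_left _ _ (kap_ne hREL)]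
  exact hSEC.1 c m k l

theorem part_c (hREL : S_REL) (hSEC : S_SEC) (c : Ch) :
    A c ≤ Algebra.adjoin ℂ {r : K4 | ∃ t ∈ SS, r = t / (kap * sig c)} := by
  rw [A, Algebra.adjoin_le_iff]
  rintro _ ⟨n, rfl⟩
  obtain ⟨m, k, l, e⟩ := hSEC.2.2 c n
  refine Algebra.subset_adjoin ⟨kap * sec m k l, (mem_SS _).2 ⟨m, k, l, rfl⟩, ?_⟩
  rw [← e, mul_div_mul_left _ _ (kap_ne hREL), mul_div_assoc, div_self (sig_ne hREL c), mul_one]

theorem localRing_one (c : Ch) (p : Ideal (A c)) (hp : p.IsPrime) (f : K4) (hf : f ∈ A c) :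
    f ∈ localRing (A c) p := by
  refine ⟨⟨f, hf⟩, 1, ?_, ?_⟩
  · intro h; exact hp.ne_top ((Ideal.eq_top_iff_one _).2 h)
  · show f = f / 1
    rw [div_one]

theorem part_d (hREL : S_REL) (hSEC : S_SEC) (c : Ch) (p : Ideal (A c)) (f : K4)
    (hf : f ∈ localRing (A c) p) :
    ∃ a ∈ Algebra.adjoin ℂ {r : K4 | ∃ t ∈ SS, r = t / (kap * sig c)},
      ∃ b ∈ Algebra.adjoin ℂ {r : K4 | ∃ t ∈ SS, r = t / (kap * sig c)},
        b ≠ 0 ∧ b⁻¹ ∈ localRing (A c) p ∧ f = a / b := by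
  obtain ⟨a, s, hs, rfl⟩ := hf
  have h1 := part_c hREL hSEC c
  have hs0 : (s : K4) ≠ 0 := by
    intro h
    apply hs
    have : s = 0 := Subtype.ext h
    rw [this]
    exact p.zero_mem
  refine ⟨a, h1 a.2, s, h1 s.2, hs0, ⟨1, s, hs, ?_⟩, rfl⟩
  show (s : K4)⁻¹ = (1 : K4) / (s : K4)
  rw [one_div]

end FAN

open FAN in
theorem t_FAN (hREL : S_REL) (hSEC : S_SEC) (hNCZ : S_NCZ) (hJAC : S_JAC) (hACG : S_ACG) :
    S_FAN := by
  intro h
  refine ⟨1, le_rfl, SS, ?_, ?_⟩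
  · intro s hs
    obtain ⟨m, k, l, rfl⟩ := (mem_SS s).1 hs
    have h0 : (kap * sec m k l : K4) ≠ 0 := mul_ne_zero (kap_ne hREL) (sec_ne hREL m k l)
    refine ⟨h0, ?_⟩
    intro c t ht
    show (kap * sec m k l : K4) * ∏ i : Fin 1, tjac (ι := Fin 4) (t i) ∈ A c
    rw [Fin.prod_univ_one]
    exact sec_mem hREL hSEC hJAC hACG c m k l (t 0) (ht 0)
  · intro c p hp
    obtain ⟨m0, k0, l0, hs0⟩ := hSEC.2.1 c
    refine ⟨(kap * sig c : K4), (mem_SS _).2 ⟨m0, k0, l0, by rw [hs0]⟩,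
      part_a hREL hNCZ hJAC c p hp, ?_, ?_⟩
    · intro f hf
      exact localRing_one c p hp f (part_b hREL hSEC c hf)
    · intro f hf
      exact part_d hREL hSEC c p f hf

end FB
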