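import Pool.Agent.T2h12.FB.Stm

set_option autoImplicit false

namespace FB

open FanoFib FanoFib.Tor MvPolynomial

/-- the fractions of elements of the ring of the chart -/
def FrX (c : Ch) (f : K4) : Prop := ∃ a ∈ A c, ∃ b ∈ A c, b ≠ 0 ∧ f = a / b

theorem FrX.of {c : Ch} {f : K4} (h : f ∈ A c) : FrX c f :=
  ⟨f, h, 1, (A c).one_mem, one_ne_zero, by simp⟩

theorem FrX.mul {c : Ch} {f g : K4} (hf : FrX c f) (hg : FrX c g) : FrX c (f * g) := by
  obtain ⟨a, ha, b, hb, hb0, rfl⟩ := hf
  obtain ⟨a', ha', b', hb', hb0', rfl⟩ := hg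
  exact ⟨a * a', (A c).mul_mem ha ha', b * b', (A c).mul_mem hb hb', mul_ne_zero hb0 hb0', by
    field_simp⟩

theorem FrX.add {c : Ch} {f g : K4} (hf : FrX c f) (hg : FrX c g) : FrX c (f + g) := by
  obtain ⟨a, ha, b, hb, hb0, rfl⟩ := hf
  obtain ⟨a', ha', b', hb', hb0', rfl⟩ := hg
  exact ⟨a * b' + a' * b, (A c).add_mem ((A c).mul_mem ha hb') ((A c).mul_mem ha' hb), b * b',
    (A c).mul_mem hb hb', mul_ne_zero hb0 hb0', by field_simp⟩

theorem FrX.inv {c : Ch} {f : K4} (hf : FrX c f) : FrX c f⁻¹ := by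
  obtain ⟨a, ha, b, hb, hb0, rfl⟩ := hf
  by_cases h : a = 0
  · subst h
    simp only [zero_div, inv_zero]
    exact FrX.of (A c).zero_mem
  · exact ⟨b, hb, a, ha, h, by rw [inv_div]⟩

theorem FrX.div {c : Ch} {f g : K4} (hf : FrX c f) (hg : FrX c g) : FrX c (f / g) := by
  rw [div_eq_mul_inv]
  exact hf.mul hg.inv

theorem t_FRX (hREL : S_REL) : S_FRX := by
  obtain ⟨-, -, hct, hca, hcb, hcs, -, -, -, -⟩ := hREL
  intro c f
  change FrX c f
  have hW : ∀ l, W l ≠ 0 := by
    intro l
    fin_cases l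
    · exact one_ne_zero
    · exact hca
    · exact hcb
  have hrat : ∀ l, FrX c (W l / W c.1) := by
    intro l
    by_cases h : l = c.1
    · subst h
      rw [div_self (hW _)]
      exact FrX.of (A c).one_mem
    · obtain ⟨m, rfl⟩ := Fin.exists_succAbove_eq h
      fin_cases m
      · exact FrX.of (gen_mem c 0)
      · exact FrX.of (gen_mem c 1)
  have hWF : ∀ l, FrX c (W l) := by
    intro l
    have h0 : W 0 = 1 := rfl
    have : W l = (W l / W c.1) / (W 0 / W c.1) := by
      rw [h0]
      have := hW c.1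
      field_simp
    rw [this]
    exact (hrat l).div (hrat 0)
  have hctF : FrX c ct := by
    have h2 := FrX.of (gen_mem c 2)
    have hk := hW c.1
    cases hj : c.2.1
    · have e : gen c 2 = W c.1 ^ 2 / ct := by simp [gen, hj]
      rw [e] at h2
      have : ct = W c.1 * W c.1 / (W c.1 ^ 2 / ct) := by field_simp
      rw [this]
      exact ((hWF _).mul (hWF _)).div h2
    · have e : gen c 2 = ct / W c.1 ^ 2 := by simp [gen, hj]
      rw [e] at h2
      have : ct = (ct / W c.1 ^ 2) * (W c.1 * W c.1) := by field_simp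
      rw [this]
      exact h2.mul ((hWF _).mul (hWF _))
  have hcsF : FrX c cs := by
    have h2 := FrX.of (gen_mem c 3)
    have hk := hW c.1
    cases hj : c.2.2
    · have e : gen c 3 = W c.1 / cs := by simp [gen, hj]
      rw [e] at h2
      have : cs = W c.1 / (W c.1 / cs) := by field_simp
      rw [this]
      exact (hWF _).div h2
    · have e : gen c 3 = cs / W c.1 := by simp [gen, hj]
      rw [e] at h2
      have : cs = (cs / W c.1) * W c.1 := by field_simp
      rw [this]
      exact h2.mul (hWF _)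
  have heta : FrX c (eta c) ∧ eta c ≠ 0 := by
    unfold eta
    split_ifs
    · rw [pow_two]
      exact ⟨(hWF _).mul (hWF _), mul_ne_zero (hW _) (hW _)⟩
    · exact ⟨hctF, hct⟩
  have hzeta : FrX c (zeta c) ∧ zeta c ≠ 0 := by
    unfold zeta
    split_ifs
    · exact ⟨hWF _, hW _⟩
    · exact ⟨hcsF, hcs⟩
  have hcuF : FrX c cu := by
    have h2 := FrX.of (gen_mem c 4)
    have e : gen c 4 = cu * W c.1 / (eta c * zeta c) := rfl
    rw [e] at h2
    have hk := hW c.1
    have he := heta.2
    have hz := hzeta.2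
    have : cu = (cu * W c.1 / (eta c * zeta c)) * (eta c * zeta c) / W c.1 := by field_simp
    rw [this]
    exact (h2.mul (heta.1.mul hzeta.1)).div (hWF _)
  have hpoly : ∀ P : MvPolynomial (Fin 4) ℂ, FrX c (algebraMap (MvPolynomial (Fin 4) ℂ) K4 P) := by
    intro P
    induction P using MvPolynomial.induction_on with
    | C a => exact FrX.of ((A c).algebraMap_mem a)
    | add p q hp hq =>
      rw [map_add]
      exact hp.add hq
    | mul_X p n hp =>
      rw [map_mul]
      refine hp.mul ?_
      fin_cases n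
      · exact hWF 1
      · exact hWF 2
      · exact hcsF
      · exact hcuF
  obtain ⟨p, q, hq, rfl⟩ := IsFractionRing.div_surjective (A := MvPolynomial (Fin 4) ℂ) f
  exact (hpoly p).div (hpoly q)

end FB
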