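import Pool.Agent.T2h12.FB.Stm

/-! Task IRQ: `X3^4 + X0^4 + X1^4 + 1` is prime (Eisenstein twice). -/

set_option autoImplicit false

namespace FB.IRQ

open Polynomial in
theorem eis {R : Type*} [CommRing R] [IsDomain R] {G π : R} (hπ : Prime π) (h1 : π ∣ G) (h2 : ¬ π ^ 2 ∣ G) :
    Irreducible (X ^ 4 + C G : R[X]) := by
  have hm : (X ^ 4 + C G : R[X]).Monic := by monicity!
  have hdeg : (X ^ 4 + C G : R[X]).natDegree = 4 := by compute_degree!
  refine Polynomial.irreducible_of_eisenstein_criterion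
    ((Ideal.span_singleton_prime hπ.ne_zero).2 hπ) ?_ ?_ ?_ ?_ ?_
  · rw [hm.leadingCoeff]
    intro h
    rw [Ideal.mem_span_singleton] at h
    exact hπ.not_isUnit (isUnit_of_dvd_one h)
  · intro n hn
    rw [Polynomial.degree_eq_natDegree hm.ne_zero, hdeg] at hn
    have hn4 : n < 4 := by exact_mod_cast hn
    rw [Ideal.mem_span_singleton, coeff_add, coeff_X_pow, coeff_C]
    rw [if_neg (by omega), zero_add]
    split_ifs
    · exact h1
    · exact dvd_zero _
  · rw [Polynomial.degree_eq_natDegree hm.ne_zero, hdeg]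
    norm_num
  · rw [coeff_add, coeff_X_pow, coeff_C_zero, if_neg (by norm_num), zero_add, Ideal.span_singleton_pow,
      Ideal.mem_span_singleton]
    exact h2
  · exact hm.isPrimitive

end FB.IRQ

namespace FB

open MvPolynomial in
theorem t_IRQ : S_IRQ := by
  unfold S_IRQ
  have h0 : ∃ π : MvPolynomial (Fin 2) ℂ, Prime π ∧ π ∣ X 1 ^ 4 + 1 ∧ ¬ π ^ 2 ∣ X 1 ^ 4 + 1 := by
    have hne : (X 1 ^ 4 + 1 : MvPolynomial (Fin 2) ℂ) ≠ 0 := by
      intro h
      have := congrArg (MvPolynomial.eval (fun _ => (0 : ℂ))) h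
      simp at this
    have hnu : ¬ IsUnit (X 1 ^ 4 + 1 : MvPolynomial (Fin 2) ℂ) := by
      intro h
      obtain ⟨z, hz⟩ : ∃ z : ℂ, z ^ 4 = -1 := by
        obtain ⟨z, hz⟩ := IsAlgClosed.exists_pow_nat_eq (-1 : ℂ) (show 0 < 4 by norm_num)
        exact ⟨z, hz⟩
      have := h.map (MvPolynomial.eval (fun _ => z))
      simp [hz] at this
    obtain ⟨π, hπ, hd⟩ := WfDvdMonoid.exists_irreducible_factor hnu hne
    refine ⟨π, hπ.prime, hd, ?_⟩
    rintro ⟨q, hq⟩
    have hder := congrArg (pderiv (1 : Fin 2)) hq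
    have h3 : π ∣ X 1 := by
      have h4 : π ∣ 4 * X 1 ^ 3 := by
        have e : pderiv (1 : Fin 2) (X 1 ^ 4 + 1 : MvPolynomial (Fin 2) ℂ) = 4 * X 1 ^ 3 := by
          simp [Derivation.leibniz_pow]
        rw [← e, hder]
        rw [Derivation.leibniz, Derivation.leibniz_pow]
        refine ⟨π * pderiv 1 q + q * (2 • pderiv 1 π), ?_⟩
        simp only [smul_eq_mul, nsmul_eq_mul]
        ring
      have h5 : π ∣ X 1 ^ 3 := by
        have h6 : (X 1 ^ 3 : MvPolynomial (Fin 2) ℂ) = C (1/4) * (4 * X 1 ^ 3) := by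
          have : (4 : MvPolynomial (Fin 2) ℂ) = C 4 := (map_ofNat C 4).symm
          rw [this, ← mul_assoc, ← C_mul]
          norm_num
        rw [h6]
        exact h4.mul_left _
      exact hπ.prime.dvd_of_dvd_pow h5
    have h7 : π ∣ 1 := by
      have h8 : π ∣ X 1 ^ 4 := h3.trans (dvd_pow_self _ (by norm_num))
      exact (dvd_add_right h8).1 hd
    exact hπ.not_isUnit (isUnit_of_dvd_one h7)
  obtain ⟨π, hπ, hd, hd2⟩ := h0
  have h1 : Prime (X 0 ^ 4 + X 2 ^ 4 + 1 : MvPolynomial (Fin 3) ℂ) := by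
    have h2 := (IRQ.eis hπ hd hd2).prime
    rw [← MulEquiv.prime_iff (finSuccEquiv ℂ 2)]
    convert h2 using 1
    rw [map_add, map_add, map_pow, map_pow, map_one, finSuccEquiv_X_zero,
      show (2 : Fin 3) = (1 : Fin 2).succ from rfl, finSuccEquiv_X_succ]
    rw [Polynomial.C_add, Polynomial.C_pow, Polynomial.C_1]
    ring
  have h2 : ¬ (X 0 ^ 4 + X 2 ^ 4 + 1 : MvPolynomial (Fin 3) ℂ) ^ 2 ∣ (X 0 ^ 4 + X 2 ^ 4 + 1) := by
    rintro ⟨q, hq⟩
    have : (X 0 ^ 4 + X 2 ^ 4 + 1 : MvPolynomial (Fin 3) ℂ) * q = 1 := by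
      apply mul_left_cancel₀ h1.ne_zero
      rw [mul_one, ← mul_assoc, ← pow_two]
      exact hq.symm
    exact h1.not_isUnit (IsUnit.of_mul_eq_one _ this)
  have h3 := (IRQ.eis h1 dvd_rfl h2).prime
  rw [← MulEquiv.prime_iff (finSuccEquiv ℂ 3)]
  convert h3 using 1
  rw [map_add, map_add, map_add, map_pow, map_pow, map_pow, map_one, finSuccEquiv_X_zero,
    show (3 : Fin 4) = (2 : Fin 3).succ from rfl, show (1 : Fin 4) = (0 : Fin 3).succ from rfl,
    finSuccEquiv_X_succ, finSuccEquiv_X_succ]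
  rw [Polynomial.C_add, Polynomial.C_add, Polynomial.C_pow, Polynomial.C_pow, Polynomial.C_1]
  ring

end FB
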