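import Pool.Agent.T2h12.FB.Stm

/-! Task KER: the kernel of the presentation of the charts. -/

set_option autoImplicit false

namespace FB

open FanoFib FanoFib.Tor MvPolynomial

namespace KER

theorem FF_eq (j i : Bool) : FF j i = X 4 ^ 2 + rename Fin.castSucc (BB j i) * X 4 +
    rename Fin.castSucc (CC j i) := by
  cases j <;> cases i <;>
    simp [FF, BB, CC] <;> ring

/-- division by the monic quadratic equation -/
theorem norm (j i : Bool) (p : MvPolynomial (Fin 5) ℂ) :
    ∃ (α β : MvPolynomial (Fin 4) ℂ) (q : MvPolynomial (Fin 5) ℂ),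
      p = rename Fin.castSucc α + rename Fin.castSucc β * X 4 + q * FF j i := by
  induction p using MvPolynomial.induction_on with
  | C a => exact ⟨C a, 0, 0, by simp⟩
  | add p q hp hq =>
    obtain ⟨α, β, r, h⟩ := hp
    obtain ⟨γ, δ, s, h'⟩ := hq
    refine ⟨α + γ, β + δ, r + s, ?_⟩
    rw [h, h', map_add, map_add]
    ring
  | mul_X p n hp =>
    obtain ⟨α, β, r, h⟩ := hp
    refine Fin.lastCases ?_ (fun n => ?_) n
    · refine ⟨- β * CC j i, α - β * BB j i, r * X 4 + rename Fin.castSucc β, ?_⟩
      have h4 : (Fin.last 4 : Fin 5) = 4 := rfl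
      rw [h4, h, FF_eq]
      simp only [map_sub, map_mul, map_neg]
      ring
    · refine ⟨α * X n, β * X n, r * X n.castSucc, ?_⟩
      rw [h]
      simp only [map_mul, rename_X]
      ring

theorem aeval_ren (c : Ch) (α : MvPolynomial (Fin 4) ℂ) :
    aeval (gen c) (rename Fin.castSucc α) = aeval (g4 c) α := by
  rw [aeval_rename]
  rfl

end KER

open KER

theorem t_KER (hREL : S_REL) (hNFU : S_NFU) : S_KER := by
  intro c
  have hF := hREL.2.2.2.2.2.2.2.2.1 c
  apply le_antisymm
  · intro p hp
    rw [RingHom.mem_ker] at hp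
    obtain ⟨α, β, q, h⟩ := norm c.2.1 c.2.2 p
    have h1 : aeval (g4 c) α + aeval (g4 c) β * vv c = 0 := by
      have h2 : aeval (gen c) p = 0 := hp
      rw [h] at h2
      simp only [map_add, map_mul, aeval_ren, hF, mul_zero, add_zero, aeval_X] at h2
      exact h2
    obtain ⟨hα, hβ⟩ := hNFU c α β h1
    rw [hα, hβ] at h
    simp only [map_zero, zero_mul, zero_add] at h
    rw [h, mul_comm]
    exact Ideal.mem_span_singleton.2 ⟨q, rfl⟩
  · rw [Ideal.span_le, Set.singleton_subset_iff, SetLike.mem_coe, RingHom.mem_ker]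
    exact hF

end FB
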