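import Pool.Agent.T2h12.FB.ValAux

/-!
# Project FB, task LOC
-/

set_option autoImplicit false

namespace FB

open FanoFib

theorem t_LOC : S_LOC := by
  intro X E c G h0 h1 h2
  have key : ∀ x ∈ Algebra.adjoin ℂ G, ∃ a ∈ X.ring c, ∃ s ∈ X.ring c, E.v s = 0 ∧ x = a / s := by
    intro x hx
    induction hx using Algebra.adjoin_induction with
    | mem x hx => exact h2 x hx
    | algebraMap r =>
      exact ⟨algebraMap ℂ X.K r, (X.ring c).algebraMap_mem r, 1, (X.ring c).one_mem, E.v.map_one,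
        (div_one _).symm⟩
    | add x y _ _ hx hy =>
      obtain ⟨a, ha, s, hs, hvs, rfl⟩ := hx
      obtain ⟨b, hb, t, ht, hvt, rfl⟩ := hy
      refine ⟨a * t + s * b, (X.ring c).add_mem ((X.ring c).mul_mem ha ht)
        ((X.ring c).mul_mem hs hb), s * t, (X.ring c).mul_mem hs ht, ?_, ?_⟩
      · rw [E.v.map_mul, hvs, hvt, add_zero]
      · rw [div_add_div _ _ (Val.ne_zero' hvs) (Val.ne_zero' hvt)]
    | mul x y _ _ hx hy =>
      obtain ⟨a, ha, s, hs, hvs, rfl⟩ := hx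
      obtain ⟨b, hb, t, ht, hvt, rfl⟩ := hy
      refine ⟨a * b, (X.ring c).mul_mem ha hb, s * t, (X.ring c).mul_mem hs ht, ?_, ?_⟩
      · rw [E.v.map_mul, hvs, hvt, add_zero]
      · rw [div_mul_div_comm]
  refine ⟨⟨E, c, h0, ?_⟩, rfl⟩
  intro f hf
  obtain ⟨x, hx, y, hy, hvy, rfl⟩ := h1 f hf
  obtain ⟨a, ha, s, hs, hvs, rfl⟩ := key x hx
  obtain ⟨b, hb, t, ht, hvt, rfl⟩ := key y hy
  have hs0 := Val.ne_zero' hvs
  have ht0 := Val.ne_zero' hvt
  have hvb : E.v b = 0 := by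
    have h3 : E.v (b / t * t) = 0 := by rw [E.v.map_mul, hvy, hvt, add_zero]
    rwa [div_mul_cancel₀ _ ht0] at h3
  refine ⟨a * t, (X.ring c).mul_mem ha ht, s * b, (X.ring c).mul_mem hs hb, ?_, ?_⟩
  · rw [E.v.map_mul, hvs, hvb, add_zero]
  · rw [div_div_div_eq]

end FB
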