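import Pool.Agent.T2h12.FB.Stm

/-! Task MOR: the charts of `Y` and the morphism. -/

set_option autoImplicit false

namespace FB

open FanoFib FanoFib.Tor MvPolynomial

namespace MOR

/-- the homogeneous coordinates of the plane -/
noncomputable def Wy : Fin 3 → K3 := ![1, xx (Sum.inr ((), 0)), xx (Sum.inr ((), 1))]

theorem mon_tt (k : Fin 3) : (mon (Tower.tt (I := Unit) () k) : K3) = Wy k := by
  refine Fin.cases ?_ (fun m => ?_) k
  · have : Tower.tt (I := Unit) () 0 = 0 := by
      funext x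
      rcases x with x | ⟨x, m⟩
      · rfl
      · show (if x = () ∧ (0 : Fin 3) = m.succ then (1 : ℤ) else 0) = 0
        rw [if_neg]
        rintro ⟨_, h⟩
        exact (Fin.succ_ne_zero m) h.symm
    rw [this, mon_zero]
    rfl
  · have : Tower.tt (I := Unit) () m.succ = Pi.single (Sum.inr ((), m)) 1 := by
      funext x
      rcases x with x | ⟨x, m'⟩
      · rw [Pi.single_eq_of_ne (by simp)]
        rfl
      · show (if x = () ∧ m.succ = m'.succ then (1 : ℤ) else 0) = _
        by_cases h : m = m'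
        · subst h
          simp
        · rw [if_neg, Pi.single_eq_of_ne]
          · intro h'
            simp only [Sum.inr.injEq, Prod.mk.injEq] at h'
            exact h h'.2.symm
          · rintro ⟨_, h'⟩
            exact h (Fin.succ_injective _ h')
    rw [this, mon_single, zpow_one]
    fin_cases m <;> rfl

theorem Wy_ne (k : Fin 3) : Wy k ≠ 0 := by
  rw [← mon_tt]
  exact mon_ne_zero _

theorem gy_inr (k : Fin 3) (j : Bool) (m : Fin 2) :
    gy k j (Sum.inr ((), m)) = Wy (k.succAbove m) / Wy k := by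
  rw [← mon_tt, ← mon_tt, ← mon_sub]
  rfl

theorem gy_inl (k : Fin 3) (j : Bool) :
    gy k j (Sum.inl ()) = (xx (Sum.inl ()) * (Wy k ^ 2)⁻¹) ^ (Tower.sg j) := by
  rw [← mon_tt, ← mon_nsmul, ← mon_neg]
  conv_rhs => rw [← zpow_one (xx (Sum.inl ())), ← mon_single]
  rw [← mon_add, ← mon_zsmul]
  show mon (Tower.sg j • (Pi.single (Sum.inl ()) 1 + ∑ j : Unit, (-2 : ℤ) • Tower.tt j k)) = _
  congr 2
  rw [Fintype.sum_unique]
  congr 1
  simp

end MOR

open MOR

theorem t_MOR : S_MOR := by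
  refine ⟨fun d => ⟨d.2 (), d.1 (), rfl⟩, fun k j => rfl, ?_⟩
  intro φ hφ k j i
  have hW : ∀ k, φ (Wy k) = W k := by
    intro k
    fin_cases k
    · exact map_one φ
    · exact hφ.a
    · exact hφ.b
  have hW0 : ∀ k, W k ≠ 0 := by
    intro k
    rw [← hW]
    exact (map_ne_zero φ).2 (Wy_ne k)
  refine ⟨?_, ?_, ?_⟩
  · rw [gy_inr, map_div₀, hW, hW]
    rfl
  · rw [gy_inr, map_div₀, hW, hW]
    rfl
  · rw [gy_inl, map_zpow₀, map_mul, map_inv₀, map_pow, hW, hφ.t]
    cases j
    · show (ct * (W k ^ 2)⁻¹) ^ (-1 : ℤ) = W k ^ 2 / ct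
      rw [zpow_neg, zpow_one, mul_inv, inv_inv, div_eq_mul_inv, mul_comm]
    · show (ct * (W k ^ 2)⁻¹) ^ (1 : ℤ) = ct / W k ^ 2
      rw [zpow_one, div_eq_mul_inv]

end FB
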