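import Pool.Agent.T2h12.FB.Stm

/-! Task NAG: `u - s^2` is prime in the coordinate ring of the chart `(0, true, true)`. -/

set_option autoImplicit false

namespace FB.NAG

open MvPolynomial

abbrev c0 : Ch := (0, true, true)

noncomputable def th : MvPolynomial (Fin 5) ℂ →ₐ[ℂ] MvPolynomial (Fin 4) ℂ :=
  aeval ![X 0, X 1, X 2, X 3, X 3 ^ 2]

noncomputable def th' : MvPolynomial (Fin 4) ℂ →ₐ[ℂ] MvPolynomial (Fin 5) ℂ :=
  aeval ![X 0, X 1, X 2, X 3]

noncomputable def gg : MvPolynomial (Fin 4) ℂ := X 3 ^ 4 + X 0 ^ 4 + X 1 ^ 4 + 1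

noncomputable def pp : MvPolynomial (Fin 5) ℂ →ₐ[ℂ] A c0 := aeval (gA c0)

theorem pp_val (P : MvPolynomial (Fin 5) ℂ) : ((pp P : A c0) : K4) = aeval (gen c0) P := by
  have := MvPolynomial.comp_aeval_apply (gA c0) (A c0).val P
  exact this

theorem pp_surj : Function.Surjective pp := by
  rintro ⟨x, hx⟩
  have hx' : x ∈ (aeval (gen c0) : MvPolynomial (Fin 5) ℂ →ₐ[ℂ] K4).range := by
    rw [← Algebra.adjoin_range_eq_range_aeval]
    exact hx
  obtain ⟨P, hP⟩ := hx'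
  refine ⟨P, Subtype.ext ?_⟩
  rw [pp_val]
  exact hP

theorem pp_eq (hKER : S_KER) (P : MvPolynomial (Fin 5) ℂ) (h : pp P = 0) :
    FF true true ∣ P := by
  have h1 : P ∈ RingHom.ker (aeval (gen c0) : MvPolynomial (Fin 5) ℂ →ₐ[ℂ] K4) := by
    rw [RingHom.mem_ker]
    have := pp_val P
    rw [h] at this
    exact this.symm
  rw [hKER c0, Ideal.mem_span_singleton] at h1
  exact h1

theorem pp_FF (hKER : S_KER) : pp (FF true true) = 0 := by
  have h1 : FF true true ∈ RingHom.ker (aeval (gen c0) : MvPolynomial (Fin 5) ℂ →ₐ[ℂ] K4) := by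
    rw [hKER c0]
    exact Ideal.mem_span_singleton_self _
  rw [RingHom.mem_ker] at h1
  apply Subtype.ext
  rw [pp_val]
  exact h1

theorem th_FF : th (FF true true) = gg := by
  simp [th, FF, gg]
  ring

theorem th_m : th (X 4 - X 3 ^ 2) = 0 := by
  simp [th]

theorem th'_gg : th' gg = FF true true - (X 4 - X 3 ^ 2) * (X 4 + X 3 ^ 2 + X 2) := by
  simp [th', FF, gg]
  ring

theorem sub_dvd (P : MvPolynomial (Fin 5) ℂ) : (X 4 - X 3 ^ 2) ∣ P - th' (th P) := by
  have h : (Ideal.Quotient.mkₐ ℂ (Ideal.span {(X 4 - X 3 ^ 2 : MvPolynomial (Fin 5) ℂ)})).comp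
      (th'.comp th) = Ideal.Quotient.mkₐ ℂ (Ideal.span {(X 4 - X 3 ^ 2 : MvPolynomial (Fin 5) ℂ)}) := by
    apply MvPolynomial.algHom_ext
    intro i
    rw [AlgHom.comp_apply, AlgHom.comp_apply, Ideal.Quotient.mkₐ_eq_mk, Ideal.Quotient.eq,
      Ideal.mem_span_singleton]
    fin_cases i
    · simp [th, th']
    · simp [th, th']
    · simp [th, th']
    · simp [th, th']
    · refine ⟨-1, ?_⟩
      simp [th, th']
  have h1 := DFunLike.congr_fun h P
  rw [AlgHom.comp_apply, AlgHom.comp_apply, Ideal.Quotient.mkₐ_eq_mk] at h1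
  have h2 := Ideal.Quotient.eq.1 h1.symm
  rwa [Ideal.mem_span_singleton] at h2

theorem dvd_iff (hKER : S_KER) (P : MvPolynomial (Fin 5) ℂ) :
    pp (X 4 - X 3 ^ 2) ∣ pp P ↔ gg ∣ th P := by
  constructor
  · rintro ⟨x, hx⟩
    obtain ⟨Q, rfl⟩ := pp_surj x
    have h1 : pp (P - (X 4 - X 3 ^ 2) * Q) = 0 := by
      rw [map_sub, map_mul, hx, sub_self]
    obtain ⟨R, hR⟩ := pp_eq hKER _ h1
    have h2 : P = (X 4 - X 3 ^ 2) * Q + FF true true * R := by
      linear_combination hR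
    rw [h2, map_add, map_mul, map_mul, th_m, th_FF, zero_mul, zero_add]
    exact dvd_mul_right _ _
  · rintro ⟨S, hS⟩
    obtain ⟨Q, hQ⟩ := sub_dvd P
    have h1 : P = (X 4 - X 3 ^ 2) * (Q - (X 4 + X 3 ^ 2 + X 2) * th' S) + FF true true * th' S := by
      have h2 : th' (th P) = th' gg * th' S := by rw [hS, map_mul]
      rw [th'_gg] at h2
      linear_combination hQ + h2
    rw [h1, map_add, map_mul, map_mul, pp_FF hKER, zero_mul, add_zero]
    exact dvd_mul_right _ _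

theorem prime_pp (hKER : S_KER) (hg : Prime gg) : Prime (pp (X 4 - X 3 ^ 2)) := by
  refine ⟨?_, ?_, ?_⟩
  · intro h
    obtain ⟨R, hR⟩ := pp_eq hKER _ h
    have h1 := congrArg (eval ![0, 0, 0, 0, Complex.I]) hR
    simp [FF] at h1
  · intro h
    have h1 : pp (X 4 - X 3 ^ 2) ∣ pp 1 := by
      rw [map_one]
      exact isUnit_iff_dvd_one.1 h
    rw [dvd_iff hKER, map_one] at h1
    exact hg.not_isUnit (isUnit_of_dvd_one h1)
  · intro a b hab
    obtain ⟨P, rfl⟩ := pp_surj a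
    obtain ⟨Q, rfl⟩ := pp_surj b
    rw [← map_mul, dvd_iff hKER, map_mul] at hab
    rw [dvd_iff hKER, dvd_iff hKER]
    exact hg.2.2 _ _ hab

end FB.NAG

namespace FB

open MvPolynomial

theorem t_NAG (hKER : S_KER) (hIRQ : S_IRQ) : S_NAG := by
  have h := NAG.prime_pp hKER hIRQ
  have e : NAG.pp (X 4 - X 3 ^ 2) = gA (0, true, true) 4 - gA (0, true, true) 3 ^ 2 := by
    simp [NAG.pp]
  rw [e] at h
  exact h

end FB
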