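import Pool.Agent.T2h12.FB.Stm

/-! Task NCZ: the charts have no singular point. -/

set_option autoImplicit false

namespace FB.NCZ

open MvPolynomial

theorem nullst (F : MvPolynomial (Fin 5) ℂ)
    (h : ∀ x : Fin 5 → ℂ, eval x F = 0 → (∀ m, eval x (pderiv m F) = 0) → False) :
    ∃ (q : MvPolynomial (Fin 5) ℂ) (r : Fin 5 → MvPolynomial (Fin 5) ℂ),
      q * F + ∑ m, r m * pderiv m F = 1 := by
  have hJ : Ideal.span {F} ⊔ Ideal.span (Set.range fun m => pderiv m F) = ⊤ := by
    by_contra hne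
    obtain ⟨M, hM, hle⟩ := Ideal.exists_le_maximal _ hne
    obtain ⟨x, hx⟩ := MvPolynomial.isMaximal_iff_eq_vanishingIdeal_singleton.1 hM
    rw [hx] at hle
    refine h x ?_ fun m => ?_
    · have h1 := hle (Ideal.mem_sup_left (Ideal.mem_span_singleton_self F))
      rw [mem_vanishingIdeal_singleton_iff] at h1
      simpa [aeval_eq_eval] using h1
    · have h1 := hle (Ideal.mem_sup_right (Ideal.subset_span ⟨m, rfl⟩))
      rw [mem_vanishingIdeal_singleton_iff] at h1
      simpa [aeval_eq_eval] using h1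
  have h1 : (1 : MvPolynomial (Fin 5) ℂ) ∈
      Ideal.span {F} ⊔ Ideal.span (Set.range fun m => pderiv m F) := by
    rw [hJ]; trivial
  obtain ⟨a, ha, b, hb, hab⟩ := Submodule.mem_sup.1 h1
  obtain ⟨q, rfl⟩ := Ideal.mem_span_singleton'.1 ha
  obtain ⟨r, rfl⟩ := (Submodule.mem_span_range_iff_exists_fun _).1 hb
  exact ⟨q, r, by simpa [smul_eq_mul] using hab⟩

theorem tt (x : Fin 5 → ℂ) (h0 : eval x (FF true true) = 0)
    (h : ∀ m, eval x (pderiv m (FF true true)) = 0) : False := by
  have e0 := h 0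
  have e1 := h 1
  have e2 := h 2
  have e3 := h 3
  have e4 := h 4
  simp [FF, Derivation.leibniz, Derivation.leibniz_pow, pderiv_X] at h0 e0 e1 e2 e3 e4
  have h4 : x 4 = 0 := by
    rcases e3 with e3 | e3
    · linear_combination (1 / 2) * e4 - (1 / 2) * e3
    · rw [e3] at e2
      linear_combination e2
  have h2 : x 2 = 0 := by linear_combination e4 - 2 * h4
  rw [h2, h4, e0, e1] at h0
  norm_num at h0

theorem tf (x : Fin 5 → ℂ) (h0 : eval x (FF true false) = 0)
    (h : ∀ m, eval x (pderiv m (FF true false)) = 0) : False := by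
  have e0 := h 0
  have e1 := h 1
  have e2 := h 2
  have e3 := h 3
  have e4 := h 4
  simp [FF, Derivation.leibniz, Derivation.leibniz_pow, pderiv_X] at h0 e0 e1 e2 e3 e4
  have h3 : x 3 ≠ 0 := by
    intro h3
    rw [h3] at e2
    norm_num at e2
  have e0 := e0.resolve_left h3
  have e1 := e1.resolve_left h3
  rw [e0, e1] at h0 e3
  have a1 : x 2 = -2 * x 4 ^ 2 := by linear_combination x 4 * e4 - x 2 * e2
  have a2 : x 3 = x 4 ^ 3 := by
    rw [a1] at e3
    linear_combination (1 / 2) * e3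
  have a3 : 2 * x 4 ^ 2 = 0 := by
    rw [a1, a2] at h0
    rw [a2] at e2
    linear_combination h0 + 2 * x 4 ^ 2 * e2 - x 4 ^ 2 * e2
  have a4 : x 4 = 0 := by
    have : x 4 ^ 2 = 0 := by linear_combination (1 / 2) * a3
    exact pow_eq_zero_iff (two_ne_zero) |>.1 this
  rw [a4] at e2
  norm_num at e2

theorem ft (x : Fin 5 → ℂ) (h0 : eval x (FF false true) = 0)
    (h : ∀ m, eval x (pderiv m (FF false true)) = 0) : False := by
  have e0 := h 0
  have e1 := h 1
  have e2 := h 2
  have e3 := h 3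
  have e4 := h 4
  simp [FF, Derivation.leibniz, Derivation.leibniz_pow, pderiv_X] at h0 e0 e1 e2 e3 e4
  have a4 : x 4 = -1 / 2 := by linear_combination (1 / 2) * e4
  have h2 : x 2 ≠ 0 := by
    intro h2
    rw [h2, a4] at h0
    norm_num at h0
  have e0 := e0.resolve_left h2
  have e1 := e1.resolve_left h2
  have e3 := e3.resolve_left h2
  rw [e0, e1, e3] at e2
  apply h2
  linear_combination (1 / 2) * e2

theorem ff (x : Fin 5 → ℂ) (h0 : eval x (FF false false) = 0)
    (h : ∀ m, eval x (pderiv m (FF false false)) = 0) : False := by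
  have e0 := h 0
  have e1 := h 1
  have e2 := h 2
  have e3 := h 3
  have e4 := h 4
  simp [FF, Derivation.leibniz, Derivation.leibniz_pow, pderiv_X] at h0 e0 e1 e2 e3 e4
  generalize (1 + x 0 ^ 4 + x 1 ^ 4) = H at h0 e2 e3
  have h3 : x 3 ≠ 0 := by
    intro h3
    rw [h3] at e2
    norm_num at e2
  have a4 : x 4 = -x 3 / 2 := by linear_combination (1 / 2) * e4
  rw [a4] at h0 e3
  have a5 : 4 * H * x 2 ^ 2 = 1 := by
    apply mul_left_cancel₀ h3
    linear_combination 2 * e3
  have a6 : x 2 = x 3 ^ 2 / 2 := by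
    linear_combination (1 / 2) * x 3 ^ 2 * a5 - x 2 * e2
  have a7 : x 2 = 0 := by
    linear_combination (1 / 4) * x 3 ^ 2 * a5 - h0
  rw [a7] at e2
  norm_num at e2

end FB.NCZ

namespace FB

open MvPolynomial

theorem t_NCZ : S_NCZ := by
  intro j i
  apply NCZ.nullst
  intro x h0 h
  rcases j <;> rcases i
  · exact NCZ.ff x h0 h
  · exact NCZ.ft x h0 h
  · exact NCZ.tf x h0 h
  · exact NCZ.tt x h0 h

end FB
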