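import Pool.Agent.T2h12.FB.Stm

/-! Task NFE: normal form in the charts, existence. -/

set_option autoImplicit false

namespace FB

open FanoFib FanoFib.Tor MvPolynomial

theorem t_NFE (hREL : S_REL) : S_NFE := by
  intro c x hx
  have hq := hREL.2.2.2.2.2.2.2.2.2 c
  induction hx using Algebra.adjoin_induction with
  | mem x hx =>
    obtain ⟨m, rfl⟩ := hx
    refine Fin.lastCases ?_ (fun n => ?_) m
    · refine ⟨0, 1, ?_⟩
      rw [map_zero, map_one, zero_add, one_mul]
      rfl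
    · refine ⟨X n, 0, ?_⟩
      rw [map_zero, zero_mul, add_zero, aeval_X]
      rfl
  | algebraMap z =>
    refine ⟨C z, 0, ?_⟩
    rw [map_zero, zero_mul, add_zero]
    simp
  | add x y hx hy ihx ihy =>
    obtain ⟨α, β, h⟩ := ihx
    obtain ⟨γ, δ, h'⟩ := ihy
    refine ⟨α + γ, β + δ, ?_⟩
    rw [h, h', map_add, map_add]
    ring
  | mul x y hx hy ihx ihy =>
    obtain ⟨α, β, h⟩ := ihx
    obtain ⟨γ, δ, h'⟩ := ihy
    refine ⟨α * γ - β * δ * CC c.2.1 c.2.2, α * δ + β * γ - β * δ * BB c.2.1 c.2.2, ?_⟩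
    rw [h, h']
    simp only [map_sub, map_add, map_mul]
    linear_combination (aeval (g4 c) β * aeval (g4 c) δ) * hq

end FB
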