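import Pool.Agent.T2h12.FB.Stm

/-! Task NFU: normal form in the charts, uniqueness. -/

set_option autoImplicit false

namespace FB

open FanoFib FanoFib.Tor MvPolynomial

theorem t_NFU (hREL : S_REL) (hAIN : S_AIN) (hNRT : S_NRT) : S_NFU := by
  intro c α β h
  have hq := hREL.2.2.2.2.2.2.2.2.2 c
  have hinj : Function.Injective (aeval (g4 c) : MvPolynomial (Fin 4) ℂ →ₐ[ℂ] K4) := hAIN c
  by_cases hβ : β = 0
  · subst hβ
    refine ⟨?_, rfl⟩
    rw [map_zero, zero_mul, add_zero] at h
    exact hinj (by rw [h, map_zero])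
  · exfalso
    -- the quadratic relation between `α` and `β`
    have hβ' : aeval (g4 c) β ≠ 0 := by
      intro h0
      exact hβ (hinj (by rw [h0, map_zero]))
    have hrel : α ^ 2 - BB c.2.1 c.2.2 * α * β + CC c.2.1 c.2.2 * β ^ 2 = 0 := by
      apply hinj
      simp only [map_sub, map_add, map_mul, map_pow, map_zero]
      have h1 : aeval (g4 c) α = - (aeval (g4 c) β * vv c) := by linear_combination h
      rw [h1]
      linear_combination (aeval (g4 c) β) ^ 2 * hq
    let R := MvPolynomial (Fin 4) ℂ
    let K := FractionRing (MvPolynomial (Fin 4) ℂ)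
    have hβK : algebraMap (MvPolynomial (Fin 4) ℂ) (FractionRing (MvPolynomial (Fin 4) ℂ)) β ≠ 0 := by
      rw [Ne, FaithfulSMul.algebraMap_eq_zero_iff]
      exact hβ
    let P : Polynomial (MvPolynomial (Fin 4) ℂ) :=
      Polynomial.X ^ 2 + (Polynomial.C (BB c.2.1 c.2.2) * Polynomial.X +
        Polynomial.C (CC c.2.1 c.2.2))
    have hP : P.Monic := by
      apply Polynomial.monic_X_pow_add
      refine lt_of_le_of_lt Polynomial.degree_linear_le ?_
      norm_num
    have hroot : Polynomial.aeval (-(algebraMap (MvPolynomial (Fin 4) ℂ)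
        (FractionRing (MvPolynomial (Fin 4) ℂ)) α /
        algebraMap (MvPolynomial (Fin 4) ℂ) (FractionRing (MvPolynomial (Fin 4) ℂ)) β)) P = 0 := by
      simp only [P, map_add, map_mul, map_pow, Polynomial.aeval_X, Polynomial.aeval_C]
      have h2 := congrArg (algebraMap (MvPolynomial (Fin 4) ℂ)
        (FractionRing (MvPolynomial (Fin 4) ℂ))) hrel
      simp only [map_sub, map_add, map_mul, map_pow, map_zero] at h2
      field_simp
      linear_combination h2
    obtain ⟨g, hg⟩ := isInteger_of_is_root_of_monic hP hroot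
    have h3 : g ^ 2 + BB c.2.1 c.2.2 * g + CC c.2.1 c.2.2 = X 0 * 0 := by
      apply FaithfulSMul.algebraMap_injective (MvPolynomial (Fin 4) ℂ)
        (FractionRing (MvPolynomial (Fin 4) ℂ))
      rw [← hg] at hroot
      simp only [P, map_add, map_mul, map_pow, Polynomial.aeval_X, Polynomial.aeval_C] at hroot
      simp only [map_add, map_mul, map_pow, map_zero, mul_zero]
      linear_combination hroot
    exact hNRT _ _ g 0 h3

end FB
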