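import Pool.Agent.T2h12.FB.Stm

/-!
# Task NRF of project FB
-/

set_option autoImplicit false

namespace FB

open FanoFib FanoFib.Tor MvPolynomial

/-- the homomorphism to the coordinate ring -/
noncomputable def toA (c : Ch) : MvPolynomial (Fin 5) ℂ →+* A c :=
  ((aeval (gen c) : MvPolynomial (Fin 5) ℂ →ₐ[ℂ] K4).codRestrict (A c) (fun p => by
    have : (aeval (gen c) p : K4) ∈ (aeval (gen c) : MvPolynomial (Fin 5) ℂ →ₐ[ℂ] K4).range :=
      ⟨p, rfl⟩
    rw [← Algebra.adjoin_range_eq_range_aeval] at this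
    exact this)).toRingHom

lemma toA_coe (c : Ch) (p : MvPolynomial (Fin 5) ℂ) : ((toA c p : A c) : K4) = aeval (gen c) p :=
  rfl

lemma toA_surj (c : Ch) : Function.Surjective (toA c) := by
  intro x
  have hx : (x : K4) ∈ (aeval (gen c) : MvPolynomial (Fin 5) ℂ →ₐ[ℂ] K4).range := by
    rw [← Algebra.adjoin_range_eq_range_aeval]
    exact x.2
  obtain ⟨p, hp⟩ := hx
  exact ⟨p, Subtype.ext hp⟩

lemma toA_X (c : Ch) (m : Fin 5) : toA c (X m) = gA c m := by
  apply Subtype.ext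
  rw [toA_coe]
  simp [gA]

lemma toA_ker (hKER : S_KER) (c : Ch) : RingHom.ker (toA c) = Ideal.span {FF c.2.1 c.2.2} := by
  rw [← hKER c]
  ext p
  rw [RingHom.mem_ker, RingHom.mem_ker]
  constructor
  · intro h
    have := congrArg (fun x : A c => (x : K4)) h
    exact this
  · intro h
    exact Subtype.ext h

lemma nonred_aux {R S : Type} [CommRing R] [CommRing S] (f : R →+* S) (ψ : S →+* DualNumber ℂ)
    (hconst : ∀ y, ∃ z : ℂ, ψ (f y) = algebraMap ℂ (DualNumber ℂ) z)
    (hsurj : ∀ z : ℂ, ∃ y, ψ (f y) = algebraMap ℂ (DualNumber ℂ) z) (V : S) (t w : R) (P Q : S)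
    (hV : V ^ 2 = f t * P + f w * Q) (ht : ψ (f t) = 0) (hw : ψ (f w) = 0) (hne : ψ V ≠ 0) :
    ∃ n : Ideal R, n.IsMaximal ∧ ¬ IsReduced (S ⧸ n.map f) := by
  set ev0 : R →+* ℂ := (TrivSqZeroExt.fstHom ℂ ℂ ℂ).toRingHom.comp (ψ.comp f) with hev0
  have hev0a : ∀ y, ev0 y = TrivSqZeroExt.fst (ψ (f y)) := fun y => rfl
  have hs : Function.Surjective ev0 := by
    intro z
    obtain ⟨y, hy⟩ := hsurj z
    refine ⟨y, ?_⟩
    rw [hev0a, hy]
    rfl
  refine ⟨RingHom.ker ev0, RingHom.ker_isMaximal_of_surjective ev0 hs, ?_⟩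
  intro hred
  have hle : (RingHom.ker ev0).map f ≤ RingHom.ker ψ := by
    rw [Ideal.map_le_iff_le_comap]
    intro y hy
    obtain ⟨z, hz⟩ := hconst y
    have h6 : ev0 y = z := by
      rw [hev0a, hz]
      rfl
    rw [RingHom.mem_ker, h6] at hy
    rw [Ideal.mem_comap, RingHom.mem_ker, hz, hy, map_zero]
  have mt : f t ∈ (RingHom.ker ev0).map f := by
    apply Ideal.mem_map_of_mem
    rw [RingHom.mem_ker, hev0a, ht]
    simp
  have mw : f w ∈ (RingHom.ker ev0).map f := by
    apply Ideal.mem_map_of_mem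
    rw [RingHom.mem_ker, hev0a, hw]
    simp
  have hsq : V ^ 2 ∈ (RingHom.ker ev0).map f := by
    rw [hV]
    exact add_mem (Ideal.mul_mem_right _ _ mt) (Ideal.mul_mem_right _ _ mw)
  have hnil : IsNilpotent (Ideal.Quotient.mk ((RingHom.ker ev0).map f) V) := by
    refine ⟨2, ?_⟩
    rw [← map_pow]
    exact Ideal.Quotient.eq_zero_iff_mem.2 hsq
  have h8 := hred.eq_zero _ hnil
  have h9 := Ideal.Quotient.eq_zero_iff_mem.1 h8
  exact hne (RingHom.mem_ker.1 (hle h9))

theorem t_NRF (hKER : S_KER) (hMOR : S_MOR) (hREL : S_REL) : S_NRF := by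
  intro h φ hφ
  obtain ⟨α, hα⟩ : ∃ α : ℂ, α ^ 4 = -1 := IsAlgClosed.exists_pow_nat_eq (-1) (by norm_num)
  set c : Ch := (0, true, true) with hc
  -- MapsTo
  have hm : MapsTo (X := Xv h) (Y := Yv) φ c (yc 0 true) := by
    intro b hb
    rw [hMOR.2.1 0 true] at hb
    have : Algebra.adjoin ℂ (Set.range (gy 0 true)) ≤ (A c).comap φ := by
      apply Algebra.adjoin_le
      rintro _ ⟨x, rfl⟩
      obtain ⟨h1, h2, h3⟩ := hMOR.2.2 φ hφ 0 true true
      show φ _ ∈ A c
      rcases x with x | ⟨x, y⟩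
      · rw [h3]; exact gen_mem c 2
      · fin_cases y
        · exact (h1 ▸ gen_mem c 0)
        · exact (h2 ▸ gen_mem c 1)
    exact this hb
  -- the homomorphism to the dual numbers
  set ev : MvPolynomial (Fin 5) ℂ →+* DualNumber ℂ :=
    (aeval ![algebraMap ℂ (DualNumber ℂ) α, 0, 0, 0, DualNumber.eps] :
      MvPolynomial (Fin 5) ℂ →ₐ[ℂ] DualNumber ℂ).toRingHom with hev
  have hker : RingHom.ker (toA c) ≤ RingHom.ker ev := by
    rw [toA_ker hKER c, Ideal.span_singleton_le_iff_mem, RingHom.mem_ker]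
    have hα' : (algebraMap ℂ (DualNumber ℂ) α) ^ 4 = -1 := by
      rw [← map_pow, hα]; simp
    simp only [hev, FF, hc, if_true, AlgHom.toRingHom_eq_coe, RingHom.coe_coe, map_add, map_sub,
      map_mul, map_pow, aeval_X, map_one]
    simp [Matrix.cons_val_zero, Matrix.cons_val_one, hα', pow_two, DualNumber.eps_mul_eps]
  set ψ : A c →+* DualNumber ℂ :=
    RingHom.liftOfSurjective (toA c) (toA_surj c) ⟨ev, hker⟩ with hψ
  have hψc : ∀ p, ψ (toA c p) = ev p := fun p =>
    RingHom.liftOfRightInverse_comp_apply _ _ (Function.rightInverse_surjInv _) _ _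
  set χ : Yv.ring (yc 0 true) →+* DualNumber ℂ :=
    ψ.comp (chartHom (X := Xv h) (Y := Yv) φ hm) with hχ
  have hψg : ∀ m, ψ (gA c m) = ![algebraMap ℂ (DualNumber ℂ) α, 0, 0, 0, DualNumber.eps] m := by
    intro m
    rw [← toA_X c m, hψc]
    simp [hev]
  have hψa : ∀ z : ℂ, ψ (algebraMap ℂ (A c) z) = algebraMap ℂ (DualNumber ℂ) z := by
    intro z
    have : algebraMap ℂ (A c) z = toA c (C z) := by
      apply Subtype.ext
      rw [toA_coe, aeval_C]
      rfl
    rw [this, hψc]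
    simp [hev]
  obtain ⟨h1, h2, h3⟩ := hMOR.2.2 φ hφ 0 true true
  have hmemy : ∀ x, gy 0 true x ∈ Yv.ring (yc 0 true) := by
    intro x
    rw [hMOR.2.1 0 true]
    exact Algebra.subset_adjoin ⟨x, rfl⟩
  -- the values on the generators
  have e0 : chartHom (X := Xv h) (Y := Yv) φ hm ⟨gy 0 true (Sum.inr ((), 0)), hmemy _⟩ = gA c 0 :=
    Subtype.ext h1
  have e1 : chartHom (X := Xv h) (Y := Yv) φ hm ⟨gy 0 true (Sum.inr ((), 1)), hmemy _⟩ = gA c 1 :=
    Subtype.ext h2
  have e2 : chartHom (X := Xv h) (Y := Yv) φ hm ⟨gy 0 true (Sum.inl ()), hmemy _⟩ = gA c 2 :=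
    Subtype.ext h3
  have hconst : ∀ y : Yv.ring (yc 0 true), ∃ z : ℂ, χ y = algebraMap ℂ (DualNumber ℂ) z := by
    rintro ⟨y, hy⟩
    have hy' := hy
    rw [hMOR.2.1 0 true] at hy'
    have key : ∀ (y : K3) (hy' : y ∈ Algebra.adjoin ℂ (Set.range (gy 0 true))),
        ∀ hy : y ∈ Yv.ring (yc 0 true), ∃ z : ℂ, χ ⟨y, hy⟩ = algebraMap ℂ (DualNumber ℂ) z := by
      intro y hy'
      induction hy' using Algebra.adjoin_induction with
      | mem x hx =>
        intro hx'
        obtain ⟨m, rfl⟩ := hx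
        rcases m with m | ⟨m, n⟩
        · refine ⟨0, ?_⟩
          have : χ ⟨gy 0 true (Sum.inl m), hx'⟩ = ψ (gA c 2) := by
            show ψ _ = _
            rw [← e2]
            rfl
          rw [this, hψg, map_zero]
          rfl
        · fin_cases n
          · refine ⟨α, ?_⟩
            have : χ ⟨gy 0 true (Sum.inr (m, 0)), hx'⟩ = ψ (gA c 0) := by
              show ψ _ = _
              rw [← e0]
              rfl
            refine this.trans ?_
            rw [hψg]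
            rfl
          · refine ⟨0, ?_⟩
            have : χ ⟨gy 0 true (Sum.inr (m, 1)), hx'⟩ = ψ (gA c 1) := by
              show ψ _ = _
              rw [← e1]
              rfl
            refine this.trans ?_
            rw [hψg, map_zero]
            rfl
      | algebraMap z =>
        intro hx
        refine ⟨z, ?_⟩
        have : chartHom (X := Xv h) (Y := Yv) φ hm ⟨algebraMap ℂ _ z, hx⟩ = algebraMap ℂ (A c) z := by
          apply Subtype.ext
          show φ (algebraMap ℂ _ z) = algebraMap ℂ K4 z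
          exact φ.commutes z
        exact (congrArg ψ this).trans (hψa z)
      | add a b ha hb iha ihb =>
        intro hx
        obtain ⟨z, hz⟩ := iha (by rw [hMOR.2.1 0 true]; exact ha)
        obtain ⟨w, hw⟩ := ihb (by rw [hMOR.2.1 0 true]; exact hb)
        refine ⟨z + w, ?_⟩
        rw [map_add, ← hz, ← hw, ← map_add]
        rfl
      | mul a b ha hb iha ihb =>
        intro hx
        obtain ⟨z, hz⟩ := iha (by rw [hMOR.2.1 0 true]; exact ha)
        obtain ⟨w, hw⟩ := ihb (by rw [hMOR.2.1 0 true]; exact hb)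
        refine ⟨z * w, ?_⟩
        rw [map_mul, ← hz, ← hw, ← map_mul]
        rfl
    exact key y hy' hy
  have hsurj : ∀ z : ℂ, ∃ y, χ y = algebraMap ℂ (DualNumber ℂ) z := by
    intro z
    refine ⟨algebraMap ℂ _ z, ?_⟩
    have h5 : chartHom (X := Xv h) (Y := Yv) φ hm (algebraMap ℂ _ z) = algebraMap ℂ (A c) z := by
      apply Subtype.ext
      show φ (algebraMap ℂ _ z) = algebraMap ℂ K4 z
      exact φ.commutes z
    exact (congrArg ψ h5).trans (hψa z)
  have hrel : gA c 4 ^ 2 = gA c 2 * (gA c 3 ^ 2 - gA c 4) +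
      (1 + gA c 0 ^ 4 + gA c 1 ^ 4) * (-1) := by
    have h7 : toA c (FF true true) = 0 := by
      apply Subtype.ext
      rw [toA_coe]
      exact hREL.2.2.2.2.2.2.2.2.1 c
    simp only [FF, if_true, map_add, map_sub, map_mul, map_pow, toA_X, map_one] at h7
    linear_combination h7
  set f : Yv.ring (yc 0 true) →+* A c := chartHom (X := Xv h) (Y := Yv) φ hm with hf
  have hw : f (1 + ⟨gy 0 true (Sum.inr ((), 0)), hmemy _⟩ ^ 4 +
      ⟨gy 0 true (Sum.inr ((), 1)), hmemy _⟩ ^ 4) = 1 + gA c 0 ^ 4 + gA c 1 ^ 4 := by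
    rw [map_add, map_add, map_one, map_pow, map_pow]
    exact congrArg₂ (fun a b => 1 + a ^ 4 + b ^ 4) e0 e1
  have hpair := nonred_aux f ψ hconst hsurj (gA c 4) ⟨gy 0 true (Sum.inl ()), hmemy _⟩
    (1 + ⟨gy 0 true (Sum.inr ((), 0)), hmemy _⟩ ^ 4 +
      ⟨gy 0 true (Sum.inr ((), 1)), hmemy _⟩ ^ 4) (gA c 3 ^ 2 - gA c 4) (-1)
    (by
      rw [hw, hrel]
      congr 2
      exact e2.symm)
    ((congrArg ψ e2).trans (by rw [hψg]; rfl))
    (by
      rw [hw, map_add, map_add, map_one, map_pow, map_pow, hψg, hψg]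
      have hα' : (algebraMap ℂ (DualNumber ℂ) α) ^ 4 = -1 := by
        rw [← map_pow, hα]; simp
      show 1 + (algebraMap ℂ (DualNumber ℂ) α) ^ 4 + 0 ^ 4 = 0
      rw [hα']
      ring)
    (by
      rw [hψg]
      intro h10
      have h10' : (DualNumber.eps : DualNumber ℂ) = 0 := h10
      have h11 : (1 : ℂ) = 0 := congrArg TrivSqZeroExt.snd h10'
      exact one_ne_zero h11)
  exact ⟨c, yc 0 true, hm, hpair⟩

end FB
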