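import Pool.Agent.T2h12.FB.Stm

/-! Project FB, task NRT. -/

set_option autoImplicit false

namespace FB

open FanoFib FanoFib.Tor MvPolynomial

theorem NRT_sq {P Q : Polynomial ℂ} (h : P ^ 2 = Q) {ζ : ℂ} (hζ : Q.eval ζ = 0) :
    (Polynomial.derivative Q).eval ζ = 0 := by
  have h1 : P.eval ζ = 0 := by
    have h2 : (P.eval ζ) ^ 2 = 0 := by
      rw [← Polynomial.eval_pow, h, hζ]
    exact pow_eq_zero_iff (two_ne_zero) |>.1 h2
  rw [← h, Polynomial.derivative_pow]
  simp [h1]

theorem t_NRT : S_NRT := by
  intro j i g q hg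
  have key : ∀ v : Fin 4 → Polynomial ℂ, v 0 = 0 →
      (aeval v g) ^ 2 + aeval v (BB j i) * aeval v g + aeval v (CC j i) = 0 := by
    intro v hv
    have h1 := congrArg (aeval v) hg
    rw [map_add, map_add, map_mul, map_pow, map_mul, aeval_X, hv, zero_mul] at h1
    exact h1
  cases j with
  | true =>
    cases i with
    | true =>
      have h1 := key ![0, Polynomial.X, 0, 0] rfl
      simp [BB, CC] at h1
      have h2 : (aeval ![0, Polynomial.X, 0, 0] g : Polynomial ℂ) ^ 2 = -(1 + Polynomial.X ^ 4) :=
        eq_neg_of_add_eq_zero_left h1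
      obtain ⟨ζ, hζ⟩ := IsAlgClosed.exists_pow_nat_eq (-1 : ℂ) (n := 4) (by norm_num)
      have h3 := NRT_sq h2 (ζ := ζ) (by simp [hζ])
      have h4 : ζ = 0 := by
        simp at h3
        rcases h3 with h3 | h3
        · norm_num at h3
        · exact h3
      rw [h4] at hζ
      norm_num at hζ
    | false =>
      have h1 := key ![0, 0, Polynomial.X, 0] rfl
      simp [BB, CC] at h1
      have h2 : (aeval ![0, 0, Polynomial.X, 0] g : Polynomial ℂ) ^ 2 = Polynomial.X := by
        linear_combination h1
      have h3 := NRT_sq h2 (ζ := 0) (by simp)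
      simp at h3
  | false =>
    cases i with
    | true =>
      have h1 := key ![0, 0, 1, Polynomial.X] rfl
      simp [BB, CC] at h1
      have h2 : (2 * (aeval ![0, 0, 1, Polynomial.X] g : Polynomial ℂ) + 1) ^ 2 =
          4 * Polynomial.X ^ 2 - 3 := by
        linear_combination 4 * h1
      obtain ⟨ζ, hζ⟩ := IsAlgClosed.exists_pow_nat_eq (3 / 4 : ℂ) (n := 2) (by norm_num)
      have h3 := NRT_sq h2 (ζ := ζ) (by simp [hζ]; norm_num)
      have h4 : ζ = 0 := by
        simpa using h3
      rw [h4] at hζ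
      norm_num at hζ
    | false =>
      have h1 := key ![0, 0, Polynomial.X, 0] rfl
      simp [BB, CC] at h1
      have h2 : (aeval ![0, 0, Polynomial.X, 0] g : Polynomial ℂ) ^ 2 = Polynomial.X := by
        linear_combination h1
      have h3 := NRT_sq h2 (ζ := 0) (by simp)
      simp at h3

end FB
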