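import Pool.Agent.T2h12.FB.Stm

/-! Task PHI: the inclusion of the function fields. -/

set_option autoImplicit false

namespace FB

open FanoFib FanoFib.Tor MvPolynomial

namespace PHI

/-- the images of the coordinates -/
noncomputable def ff : Unit ⊕ Unit × Fin 2 → K4
  | .inl _ => ct
  | .inr p => if p.2 = 0 then ca else cb

def ee : Unit ⊕ Unit × Fin 2 → Fin 4
  | .inl _ => 2
  | .inr p => if p.2 = 0 then 0 else 1

theorem ee_inj : Function.Injective ee := by decide

theorem ff_eq : ff = g4 (0, true, true) ∘ ee := by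
  funext x
  rcases x with x | ⟨x, m⟩
  · simp [ff, ee, g4, gen, W]
  · fin_cases m
    · simp [ff, ee, g4, gen, W]
    · simp [ff, ee, g4, gen, W]

end PHI

open PHI

theorem t_PHI (hAIN : S_AIN) : S_PHI := by
  have h1 : AlgebraicIndependent ℂ ff := by
    rw [ff_eq]
    exact (hAIN (0, true, true)).comp _ ee_inj
  have hinj : Function.Injective (aeval ff : MvPolynomial (Unit ⊕ Unit × Fin 2) ℂ →ₐ[ℂ] K4) := h1
  let ψ : K3 →ₐ[ℂ] K4 := IsFractionRing.liftAlgHom hinj
  have hψ : ∀ i, ψ (xx i) = ff i := by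
    intro i
    unfold xx
    rw [IsFractionRing.liftAlgHom_apply, IsFractionRing.lift_algebraMap]
    simp
  refine ⟨ψ, ?_, ?_, ?_⟩
  · exact hψ _
  · rw [hψ]; rfl
  · rw [hψ]; rfl

end FB
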