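import Mathlib
import Pool.Agent.T2h12.FB.PrimeAux

set_option autoImplicit false

namespace FB

open FanoFib FanoFib.Tor MvPolynomial PrimeAux

namespace PREaux

/-- The ideal `(X 2, X 4 + p)`, `p = 0, 1` or `X 3`. -/
lemma prime_span (p : MvPolynomial (Fin 5) ℂ) (hp : aeval ![X 0, X 1, 0, X 3, -p] p = p) :
    (Ideal.span {X 2, X 4 + p} : Ideal (MvPolynomial (Fin 5) ℂ)).IsPrime := by
  apply ker_endo ![X 0, X 1, 0, X 3, -p]
  · intro m
    fin_cases m
    · simp
    · simp
    · simp only [Matrix.cons_val, sub_zero]
      exact Ideal.subset_span (by simp)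
    · simp
    · show (X 4 - -p : MvPolynomial (Fin 5) ℂ) ∈ _
      rw [sub_neg_eq_add]
      exact Ideal.subset_span (by simp)
  · intro q hq
    rw [← RingHom.mem_ker]
    revert q
    show _ ≤ RingHom.ker _
    rw [Ideal.span_le]
    rintro x (rfl | rfl)
    · simp [RingHom.mem_ker]
    · rw [SetLike.mem_coe, RingHom.mem_ker, map_add, hp, aeval_X]
      simp

lemma map_span (c : Ch) (p : MvPolynomial (Fin 5) ℂ) :
    Ideal.map (ev c) (Ideal.span {X 2, X 4 + p}) = Ideal.span {gA c 2, gA c 4 + ev c p} := by
  rw [Ideal.map_span, Set.image_pair, map_add, ev_X, ev_X]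

end PREaux

open PREaux

theorem t_PRE (hKER : S_KER) : S_PRE := by
  intro k i
  constructor
  · have h := map_prime hKER (k, false, i) _ (prime_span 0 (by simp)) (by
      show FF false i ∈ _
      have : FF false i = (X 4 + 0) * (X 4 + (if i then 1 else X 3)) + X 2 *
          ((1 + X 0 ^ 4 + X 1 ^ 4) * X 2 * (if i then 1 else X 3) ^ 2 - (if i then X 3 else 1) ^ 2) := by
        cases i <;> simp [FF] <;> ring
      rw [this]
      exact add_mem (Ideal.mul_mem_right _ _ (Ideal.subset_span (by simp)))
        (Ideal.mul_mem_right _ _ (Ideal.subset_span (by simp))))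
    rw [map_span, map_zero, add_zero] at h
    exact h
  · have h := map_prime hKER (k, false, i) _ (prime_span (if i then 1 else X 3)
      (by cases i <;> simp)) (by
      show FF false i ∈ _
      have : FF false i = (X 4 + (if i then 1 else X 3)) * X 4 + X 2 *
          ((1 + X 0 ^ 4 + X 1 ^ 4) * X 2 * (if i then 1 else X 3) ^ 2 - (if i then X 3 else 1) ^ 2) := by
        cases i <;> simp [FF] <;> ring
      rw [this]
      exact add_mem (Ideal.mul_mem_right _ _ (Ideal.subset_span (by simp)))
        (Ideal.mul_mem_right _ _ (Ideal.subset_span (by simp))))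
    rw [map_span] at h
    have h2 : ev (k, false, i) (if i then 1 else X 3) = (if i then 1 else gA (k, false, i) 3) := by
      cases i
      · simp only [Bool.false_eq_true, if_false]; exact ev_X _ _
      · simp
    rw [h2] at h
    exact h

end FB
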