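import Mathlib
import Pool.Agent.T2h12.FB.PrimeAux

set_option autoImplicit false

namespace FB

open FanoFib FanoFib.Tor MvPolynomial PrimeAux

namespace PRWaux

/-- Setting `X 0 = 0`. -/
noncomputable def rho : MvPolynomial (Fin 4) ℂ →ₐ[ℂ] MvPolynomial (Fin 4) ℂ :=
  aeval ![0, X 1, X 2, X 3]

noncomputable def theta : MvPolynomial (Fin 5) ℂ →ₐ[ℂ] Polynomial (MvPolynomial (Fin 4) ℂ) :=
  aeval ![0, Polynomial.C (X 1), Polynomial.C (X 2), Polynomial.C (X 3), Polynomial.X]

/-- The section. -/
noncomputable def sg : Polynomial (MvPolynomial (Fin 4) ℂ) →+* MvPolynomial (Fin 5) ℂ :=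
  Polynomial.eval₂RingHom (aeval ![X 0, X 1, X 2, X 3] :
    MvPolynomial (Fin 4) ℂ →ₐ[ℂ] MvPolynomial (Fin 5) ℂ).toRingHom (X 4)

lemma sg_theta (q : MvPolynomial (Fin 5) ℂ) : q - sg (theta q) ∈ Ideal.span {X 0} := by
  induction q using MvPolynomial.induction_on with
  | C a =>
    have h1 : theta (C a) = Polynomial.C (C a) := by
      have := theta.commutes a
      rw [MvPolynomial.algebraMap_eq] at this
      rw [this]; rfl
    rw [h1]
    have h2 : sg (Polynomial.C (C a)) = C a := by
      simp [sg, MvPolynomial.algebraMap_eq]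
    rw [h2, sub_self]
    exact zero_mem _
  | add p q hp hq =>
    rw [map_add, map_add]
    have : p + q - (sg (theta p) + sg (theta q)) = (p - sg (theta p)) + (q - sg (theta q)) := by ring
    rw [this]; exact add_mem hp hq
  | mul_X p m hp =>
    rw [map_mul, map_mul]
    have h1 : X m - sg (theta (X m)) ∈ (Ideal.span {X 0} : Ideal (MvPolynomial (Fin 5) ℂ)) := by
      fin_cases m
      · simp [theta, Ideal.mem_span_singleton_self]
      · simp [theta, sg]
      · simp [theta, sg]
      · simp [theta, sg]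
      · simp [theta, sg]
    have : p * X m - sg (theta p) * sg (theta (X m)) =
      (p - sg (theta p)) * X m + sg (theta p) * (X m - sg (theta (X m))) := by ring
    rw [this]; exact add_mem (Ideal.mul_mem_right _ _ hp) (Ideal.mul_mem_left _ _ h1)

noncomputable def F0 (j i : Bool) : Polynomial (MvPolynomial (Fin 4) ℂ) :=
  Polynomial.X ^ 2 + Polynomial.C (rho (BB j i)) * Polynomial.X + Polynomial.C (rho (CC j i))

lemma theta_FF (j i : Bool) : theta (FF j i) = F0 j i := by
  cases j <;> cases i <;> simp [theta, FF, F0, BB, CC, rho] <;> ring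

lemma F0_monic (j i : Bool) : (F0 j i).Monic := by
  unfold F0
  monicity!

lemma F0_deg (j i : Bool) : (F0 j i).natDegree = 2 := by
  unfold F0
  compute_degree!

lemma rho_sub (q : MvPolynomial (Fin 4) ℂ) : q - rho q ∈ Ideal.span {X 0} := by
  induction q using MvPolynomial.induction_on with
  | C a =>
    simp [rho, MvPolynomial.algebraMap_eq]
  | add p q hp hq =>
    rw [map_add]
    have : p + q - (rho p + rho q) = (p - rho p) + (q - rho q) := by ring
    rw [this]; exact add_mem hp hq
  | mul_X p m hp =>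
    rw [map_mul]
    have h1 : X m - rho (X m) ∈ (Ideal.span {X 0} : Ideal (MvPolynomial (Fin 4) ℂ)) := by
      fin_cases m
      · simp [rho, Ideal.mem_span_singleton_self]
      · simp [rho]
      · simp [rho]
      · simp [rho]
    have : p * X m - rho p * rho (X m) =
      (p - rho p) * X m + rho p * (X m - rho (X m)) := by ring
    rw [this]; exact add_mem (Ideal.mul_mem_right _ _ hp) (Ideal.mul_mem_left _ _ h1)

lemma F0_irr (hN : S_NRT) (j i : Bool) : Irreducible (F0 j i) := by
  rw [Polynomial.Monic.irreducible_iff_roots_eq_zero_of_degree_le_three (F0_monic j i)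
    (by rw [F0_deg]) (by rw [F0_deg]; norm_num)]
  rw [Multiset.eq_zero_iff_forall_notMem]
  intro g hg
  have hg' := Polynomial.isRoot_of_mem_roots hg
  have h0 : g ^ 2 + rho (BB j i) * g + rho (CC j i) = 0 := by
    have : Polynomial.eval g (F0 j i) = 0 := hg'
    simpa [F0] using this
  obtain ⟨b, hb⟩ := Ideal.mem_span_singleton'.1 (rho_sub (BB j i))
  obtain ⟨c, hc⟩ := Ideal.mem_span_singleton'.1 (rho_sub (CC j i))
  apply hN j i g (b * g + c)
  linear_combination h0 - g * hb - hc

end PRWaux

open PRWaux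

theorem t_PRW (hREL : S_REL) (hKER : S_KER) (hNRT : S_NRT) : S_PRW := by
  intro c
  rw [← Ideal.span_singleton_prime (gen_ne hREL c 0 (by decide))]
  have hp : Prime (F0 c.2.1 c.2.2) := (F0_irr hNRT _ _).prime
  have hpI : (Ideal.span {F0 c.2.1 c.2.2}).IsPrime :=
    (Ideal.span_singleton_prime hp.ne_zero).2 hp
  have hI : ((Ideal.span {F0 c.2.1 c.2.2}).comap theta).IsPrime := Ideal.IsPrime.comap theta
  have hFm : FF c.2.1 c.2.2 ∈ (Ideal.span {F0 c.2.1 c.2.2}).comap theta := by
    rw [Ideal.mem_comap, theta_FF]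
    exact Ideal.mem_span_singleton_self _
  have h := map_prime hKER c _ hI hFm
  have h0 : ev c (FF c.2.1 c.2.2) = 0 := by
    have : FF c.2.1 c.2.2 ∈ RingHom.ker (ev c) := by
      rw [ev_ker hKER]; exact Ideal.mem_span_singleton_self _
    exact this
  have h2 : Ideal.span {gA c 0} = Ideal.map (ev c) ((Ideal.span {F0 c.2.1 c.2.2}).comap theta) := by
    apply le_antisymm
    · rw [Ideal.span_le]
      rintro x rfl
      rw [SetLike.mem_coe, ← ev_X]
      apply Ideal.mem_map_of_mem
      rw [Ideal.mem_comap]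
      simp [theta]
    · rw [Ideal.map_le_iff_le_comap]
      intro q hq
      rw [Ideal.mem_comap, Ideal.mem_span_singleton'] at hq
      obtain ⟨r, hr⟩ := hq
      rw [Ideal.mem_comap]
      have h3 := sg_theta q
      have h4 := sg_theta (FF c.2.1 c.2.2)
      rw [theta_FF] at h4
      obtain ⟨u, hu⟩ := Ideal.mem_span_singleton'.1 h3
      obtain ⟨v, hv⟩ := Ideal.mem_span_singleton'.1 h4
      have h5 : q = (u - sg r * v) * X 0 + sg r * FF c.2.1 c.2.2 := by
        have h6 : sg (theta q) = sg r * sg (F0 c.2.1 c.2.2) := by rw [← hr, map_mul]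
        linear_combination -hu + h6 + sg r * hv
      rw [h5, map_add, map_mul, map_mul (ev c) (sg r), h0, mul_zero, add_zero, ev_X]
      exact Ideal.mul_mem_left _ _ (Ideal.mem_span_singleton_self _)
  rw [h2]
  exact h

end FB
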