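import Mathlib
import Pool.Agent.T2h12.FB.Stm

namespace FB

open FanoFib FanoFib.Tor MvPolynomial

namespace SEC

lemma W_ne (k : Fin 3) : W k ≠ 0 := by
  fin_cases k
  · exact one_ne_zero
  · exact xx_ne_zero _
  · exact xx_ne_zero _

lemma eta_ne (h : S_REL) (c : Ch) : eta c ≠ 0 := by
  unfold eta
  split_ifs
  · exact pow_ne_zero _ (W_ne _)
  · exact h.2.2.1

lemma zeta_ne (h : S_REL) (c : Ch) : zeta c ≠ 0 := by
  unfold zeta
  split_ifs
  · exact W_ne _
  · exact h.2.2.2.2.2.1

lemma rW (c : Ch) (l : Fin 3) : W l / W c.1 ∈ A c := by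
  rcases Fin.eq_self_or_eq_succAbove c.1 l with h | ⟨n, h⟩
  · rw [h, div_self (W_ne _)]
    exact one_mem _
  · rw [h]
    have : n = 0 ∨ n = 1 := by omega
    rcases this with rfl | rfl
    · exact gen_mem c 0
    · exact gen_mem c 1

lemma r1 (h : S_REL) (c : Ch) : ct / eta c ∈ A c := by
  unfold eta
  split_ifs with h1
  · have := gen_mem c 2
    simp only [gen, Matrix.cons_val, if_pos h1] at this
    exact this
  · rw [div_self h.2.2.1]
    exact one_mem _

lemma r2 (c : Ch) : W c.1 ^ 2 / eta c ∈ A c := by
  unfold eta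
  split_ifs with h1
  · rw [div_self (pow_ne_zero _ (W_ne _))]
    exact one_mem _
  · have := gen_mem c 2
    simp only [gen, Matrix.cons_val, if_neg h1] at this
    exact this

lemma r3 (h : S_REL) (c : Ch) : cs / zeta c ∈ A c := by
  unfold zeta
  split_ifs with h1
  · have := gen_mem c 3
    simp only [gen, Matrix.cons_val, if_pos h1] at this
    exact this
  · rw [div_self h.2.2.2.2.2.1]
    exact one_mem _

lemma r4 (c : Ch) : W c.1 / zeta c ∈ A c := by
  unfold zeta
  split_ifs with h1
  · rw [div_self (W_ne _)]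
    exact one_mem _
  · have := gen_mem c 3
    simp only [gen, Matrix.cons_val, if_neg h1] at this
    exact this

end SEC

open SEC in
theorem t_SEC (hREL : S_REL) : S_SEC := by
  have hct := hREL.2.2.1
  have hcs := hREL.2.2.2.2.2.1
  refine ⟨fun c m k l => ?_, fun c => ?_, fun c n => ?_⟩
  · have hW := W_ne c.1
    have he := eta_ne hREL c
    have hz := zeta_ne hREL c
    have hk := rW c k
    have hl := rW c l
    have h1 := r1 hREL c
    have h2 := r2 c
    have h3 := r3 hREL c
    have h4 := r4 c
    have h5 : cu * W c.1 / (eta c * zeta c) ∈ A c := gen_mem c 4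
    fin_cases m
    · have : sec 0 k l / sig c = (ct / eta c) * (W c.1 / zeta c) * ((W k / W c.1) * (W l / W c.1)) := by
        simp only [sec, UU, dd, sig, Matrix.cons_val]
        field_simp
      exact this ▸ mul_mem (mul_mem h1 h4) (mul_mem hk hl)
    · have : sec 1 k l / sig c = (ct / eta c) * (cs / zeta c) * (W l / W c.1) := by
        simp only [sec, UU, dd, sig, Matrix.cons_val]
        field_simp
      exact this ▸ mul_mem (mul_mem h1 h3) hl
    · have : sec 2 k l / sig c = (cu * W c.1 / (eta c * zeta c)) *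
          ((W k / W c.1) * (W l / W c.1)) := by
        simp only [sec, UU, dd, sig, Matrix.cons_val]
        field_simp
      exact this ▸ mul_mem h5 (mul_mem hk hl)
    · have : sec 3 k l / sig c = (cs / zeta c) * (W c.1 ^ 2 / eta c) *
          ((W k / W c.1) ^ 2 * (W l / W c.1)) := by
        simp only [sec, UU, dd, sig, Matrix.cons_val]
        field_simp
      exact this ▸ mul_mem (mul_mem h3 h2) (mul_mem (pow_mem hk 2) hl)
    · have : sec 4 k l / sig c = (W c.1 ^ 2 / eta c) * (W c.1 / zeta c) *
          ((W k / W c.1) ^ 3 * (W l / W c.1)) := by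
        simp only [sec, UU, dd, sig, Matrix.cons_val]
        field_simp
      exact this ▸ mul_mem (mul_mem h2 h4) (mul_mem (pow_mem hk 3) hl)
  · obtain ⟨k, j, i⟩ := c
    rcases j with _ | _ <;> rcases i with _ | _
    · exact ⟨1, k, k, by
        simp only [sec, UU, dd, sig, eta, zeta, Matrix.cons_val, if_true, if_false, Bool.false_eq_true]
        ring⟩
    · exact ⟨0, k, k, by
        simp only [sec, UU, dd, sig, eta, zeta, Matrix.cons_val, if_true, if_false, Bool.false_eq_true]
        ring⟩
    · exact ⟨3, k, k, by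
        simp only [sec, UU, dd, sig, eta, zeta, Matrix.cons_val, if_true, if_false, Bool.false_eq_true]
        ring⟩
    · exact ⟨4, k, k, by
        simp only [sec, UU, dd, sig, eta, zeta, Matrix.cons_val, if_true, if_false, Bool.false_eq_true]
        ring⟩
  · obtain ⟨k, j, i⟩ := c
    have hW := W_ne k
    have key : ∀ l : Fin 3, ∃ m k' l', W l / W k * sig (k, j, i) = sec m k' l' := by
      intro l
      rcases j with _ | _ <;> rcases i with _ | _
      · exact ⟨1, k, l, by simp [sec, UU, dd, sig, eta, zeta]; field_simp⟩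
      · exact ⟨0, k, l, by simp [sec, UU, dd, sig, eta, zeta]; field_simp⟩
      · exact ⟨3, k, l, by simp [sec, UU, dd, sig, eta, zeta]; field_simp⟩
      · exact ⟨4, k, l, by simp [sec, UU, dd, sig, eta, zeta]; field_simp⟩
    fin_cases n
    · exact key _
    · exact key _
    · rcases j with _ | _ <;> rcases i with _ | _
      · exact ⟨3, k, k, by simp [gen, sec, UU, dd, sig, eta, zeta]; field_simp⟩
      · exact ⟨4, k, k, by simp [gen, sec, UU, dd, sig, eta, zeta]; field_simp⟩
      · exact ⟨1, k, k, by simp [gen, sec, UU, dd, sig, eta, zeta]; field_simp⟩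
      · exact ⟨0, k, k, by simp [gen, sec, UU, dd, sig, eta, zeta]; field_simp⟩
    · rcases j with _ | _ <;> rcases i with _ | _
      · exact ⟨0, k, k, by simp [gen, sec, UU, dd, sig, eta, zeta]; field_simp⟩
      · exact ⟨1, k, k, by simp [gen, sec, UU, dd, sig, eta, zeta]; field_simp⟩
      · exact ⟨4, k, k, by simp [gen, sec, UU, dd, sig, eta, zeta]; field_simp⟩
      · exact ⟨3, k, k, by simp [gen, sec, UU, dd, sig, eta, zeta]; field_simp⟩
    · refine ⟨2, k, k, ?_⟩
      have he := eta_ne hREL (k, j, i)
      have hz := zeta_ne hREL (k, j, i)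
      have : gen (k, j, i) 4 = cu * W k / (eta (k, j, i) * zeta (k, j, i)) := rfl
      show gen (k, j, i) 4 * sig (k, j, i) = sec 2 k k
      rw [this]
      simp only [sec, UU, dd, sig, Matrix.cons_val]
      field_simp

end FB
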