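import Mathlib
import Pool.Agent.T2h12.FB.Stm

namespace FB

open FanoFib FanoFib.Tor MvPolynomial

namespace SEP

lemma W_ne (k : Fin 3) : W k ≠ 0 := by
  fin_cases k
  · exact one_ne_zero
  · exact xx_ne_zero _
  · exact xx_ne_zero _

lemma sig_ne (h : S_REL) (c : Ch) : sig c ≠ 0 := by
  unfold sig eta zeta
  refine mul_ne_zero (mul_ne_zero (W_ne _) ?_) ?_
  · split_ifs
    · exact pow_ne_zero _ (W_ne _)
    · exact h.2.2.1
  · split_ifs
    · exact W_ne _
    · exact h.2.2.2.2.2.1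

lemma le (hREL : S_REL) (hSEC : S_SEC) (O : ValuationSubring K4) (c d : Ch)
    (hd : ∀ a ∈ A d, a ∈ O) : A d ≤ localSub (A c) O := by
  -- `sig c / sig d` is in the local ring of `A c`
  have hc0 := sig_ne hREL c
  have hd0 := sig_ne hREL d
  have h1 : sig d / sig c ∈ A c := by
    obtain ⟨m, k, l, h⟩ := hSEC.2.1 d
    rw [h]
    exact hSEC.1 c m k l
  have h2 : sig c / sig d ∈ O := by
    refine hd _ ?_
    obtain ⟨m, k, l, h⟩ := hSEC.2.1 c
    rw [h]
    exact hSEC.1 d m k l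
  have h3 : sig c / sig d ∈ localSub (A c) O := by
    refine ⟨1, one_mem _, sig d / sig c, h1, div_ne_zero hd0 hc0, ?_, ?_⟩
    · rw [inv_div]; exact h2
    · rw [one_div, inv_div]
  have hle : ∀ x ∈ A c, x ∈ localSub (A c) O := fun x hx =>
    ⟨x, hx, 1, one_mem _, one_ne_zero, by rw [inv_one]; exact one_mem _, by rw [div_one]⟩
  unfold A
  rw [Algebra.adjoin_le_iff]
  rintro _ ⟨n, rfl⟩
  obtain ⟨m, k, l, h⟩ := hSEC.2.2 d n
  have h4 : gen d n = (sec m k l / sig c) * (sig c / sig d) := by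
    rw [← h]
    field_simp
  rw [SetLike.mem_coe, h4]
  exact mul_mem (hle _ (hSEC.1 c m k l)) h3

lemma sub (hREL : S_REL) (hSEC : S_SEC) (O : ValuationSubring K4) (c d : Ch)
    (hd : ∀ a ∈ A d, a ∈ O) : localRingAt (A d) O ⊆ localRingAt (A c) O := by
  have h1 := le hREL hSEC O c d hd
  rintro _ ⟨a, ha, s, hs, hs0, hsO, rfl⟩
  rw [div_eq_mul_inv]
  refine (localSub (A c) O).mul_mem (h1 ha) ?_
  obtain ⟨b, hb, r, hr, hr0, hrO, hbr⟩ := h1 hs
  have hb0 : b ≠ 0 := by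
    rintro rfl
    rw [zero_div] at hbr
    exact hs0 hbr
  refine ⟨r, hr, b, hb, hb0, ?_, ?_⟩
  · have : b⁻¹ = s⁻¹ * r⁻¹ := by
      rw [hbr]; field_simp
    rw [this]
    exact mul_mem hsO hrO
  · rw [hbr, inv_div]

end SEP

theorem t_SEP (hREL : S_REL) (hSEC : S_SEC) : S_SEP := fun O c d hc hd =>
  Set.Subset.antisymm (SEP.sub hREL hSEC O d c hc) (SEP.sub hREL hSEC O c d hd)

end FB
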