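import Pool.Agent.T2h12.FB.Stm

set_option autoImplicit false

namespace FB

open MvPolynomial

/-- Taylor's formula modulo an ideal of square zero -/
theorem smg_taylor {n : ℕ} {B : Type} [CommRing B] [Algebra ℂ B] (J : Ideal B) (hJ : J ^ 2 = ⊥)
    (c e : Fin n → B) (he : ∀ m, e m ∈ J) (F : MvPolynomial (Fin n) ℂ) :
    aeval (fun m => c m + e m) F = aeval c F + ∑ m, aeval c (pderiv m F) * e m := by
  have hsq : ∀ a b : B, a ∈ J → b ∈ J → a * b = 0 := by
    intro a b ha hb
    have : a * b ∈ J ^ 2 := by
      rw [pow_two]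
      exact Ideal.mul_mem_mul ha hb
    rw [hJ] at this
    exact this
  induction F using MvPolynomial.induction_on with
  | C a => simp
  | add p q hp hq =>
    simp only [map_add, hp, hq, add_mul, Finset.sum_add_distrib]
    ring
  | mul_X p k hp =>
    have h1 : ∀ m, aeval c (pderiv m (p * X k)) * e m =
        (aeval c (pderiv m p) * e m) * c k + (if m = k then aeval c p * e k else 0) := by
      intro m
      rw [Derivation.leibniz, pderiv_X]
      simp only [smul_eq_mul, map_add, map_mul, aeval_X]
      by_cases h : m = k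
      · subst h
        simp
        ring
      · simp [h, Ne.symm h]
        ring
    rw [map_mul, map_mul, aeval_X, aeval_X, hp, Finset.sum_congr rfl fun m _ => h1 m,
      Finset.sum_add_distrib, ← Finset.sum_mul, Finset.sum_ite_eq' Finset.univ k]
    simp only [Finset.mem_univ, if_true]
    have h2 : (∑ m, aeval c (pderiv m p) * e m) * e k = 0 :=
      hsq _ _ (J.sum_mem fun m _ => J.mul_mem_left _ (he m)) (he k)
    linear_combination h2

theorem t_SMG : S_SMG := by
  intro K _ _ n g F hker hr
  obtain ⟨r, hr⟩ := hr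
  -- the polynomial identity
  have hmem : ∑ m, r m * pderiv m F - 1 ∈ Ideal.span {F} := by
    rw [← hker, RingHom.mem_ker]
    rw [map_sub, map_sum, hr, map_one, sub_self]
  obtain ⟨q, hq⟩ := Ideal.mem_span_singleton'.1 hmem
  let S := MvPolynomial (Fin n) ℂ ⧸ (Ideal.span {F} : Ideal (MvPolynomial (Fin n) ℂ))
  have hfs : Algebra.FormallySmooth ℂ S := by
    refine Algebra.FormallySmooth.of_comp_surjective ?_
    intro B _ _ J hJ φ
    have hsurj := Ideal.Quotient.mkₐ_surjective ℂ J
    choose c hc using fun m : Fin n => hsurj (φ (Ideal.Quotient.mk _ (X m)))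
    have hφ : ∀ P : MvPolynomial (Fin n) ℂ, Ideal.Quotient.mkₐ ℂ J (aeval c P) =
        φ (Ideal.Quotient.mkₐ ℂ (Ideal.span {F}) P) := by
      intro P
      have : (Ideal.Quotient.mkₐ ℂ J).comp (aeval c) = φ.comp (Ideal.Quotient.mkₐ ℂ (Ideal.span {F})) := by
        apply MvPolynomial.algHom_ext
        intro m
        simp only [AlgHom.comp_apply, aeval_X, hc]
        rfl
      exact congrArg (fun f : MvPolynomial (Fin n) ℂ →ₐ[ℂ] B ⧸ J => f P) this
    have hF : aeval c F ∈ J := by
      have h1 := hφ F
      have h2 : Ideal.Quotient.mkₐ ℂ (Ideal.span {F}) F = 0 := by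
        change Ideal.Quotient.mk _ F = 0
        exact Ideal.Quotient.eq_zero_iff_mem.2 (Ideal.mem_span_singleton_self F)
      rw [h2, map_zero] at h1
      exact Ideal.Quotient.eq_zero_iff_mem.1 h1
    let e : Fin n → B := fun m => -(aeval c F * aeval c (r m))
    have he : ∀ m, e m ∈ J := fun m => J.neg_mem (J.mul_mem_right _ hF)
    have hT := smg_taylor J hJ c e he F
    have hsum : ∑ m, aeval c (pderiv m F) * e m = -(aeval c F * aeval c (∑ m, r m * pderiv m F)) := by
      rw [map_sum, Finset.mul_sum, ← Finset.sum_neg_distrib]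
      refine Finset.sum_congr rfl fun m _ => ?_
      simp only [e, map_mul]
      ring
    have hz : aeval (fun m => c m + e m) F = 0 := by
      rw [hT, hsum]
      have h1 : ∑ m, r m * pderiv m F = q * F + 1 := by
        rw [hq]; ring
      rw [h1, map_add, map_mul, map_one]
      have h2 : aeval c F * aeval c F = 0 := by
        have : aeval c F * aeval c F ∈ J ^ 2 := by
          rw [pow_two]
          exact Ideal.mul_mem_mul hF hF
        rw [hJ] at this
        exact this
      linear_combination (-(aeval c q)) * h2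
    refine ⟨Ideal.Quotient.liftₐ _ (aeval fun m => c m + e m) ?_, ?_⟩
    · intro a ha
      obtain ⟨b, rfl⟩ := Ideal.mem_span_singleton'.1 ha
      rw [map_mul, hz, mul_zero]
    · apply Ideal.Quotient.algHom_ext
      apply MvPolynomial.algHom_ext
      intro m
      change Ideal.Quotient.mkₐ ℂ J (aeval (fun m => c m + e m) (X m)) = φ (Ideal.Quotient.mk _ (X m))
      rw [aeval_X, map_add, hc]
      have : Ideal.Quotient.mkₐ ℂ J (e m) = 0 := Ideal.Quotient.eq_zero_iff_mem.2 (he m)
      rw [this, add_zero]
  have hfp : Algebra.FinitePresentation ℂ S :=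
    Algebra.FinitePresentation.quotient ⟨{F}, by simp⟩
  have hsm : Algebra.Smooth ℂ S := { formallySmooth := hfs, finitePresentation := hfp }
  -- the isomorphism
  have hrange : (aeval g : MvPolynomial (Fin n) ℂ →ₐ[ℂ] K).range = Algebra.adjoin ℂ (Set.range g) :=
    (Algebra.adjoin_range_eq_range_aeval ℂ g).symm
  rw [← hrange]
  let e1 := Ideal.quotientKerEquivRange (aeval g : MvPolynomial (Fin n) ℂ →ₐ[ℂ] K)
  let e2 : (MvPolynomial (Fin n) ℂ ⧸ RingHom.ker (aeval g : MvPolynomial (Fin n) ℂ →ₐ[ℂ] K)) ≃ₐ[ℂ] S :=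
    Ideal.quotientEquivAlgOfEq ℂ hker
  exact Algebra.Smooth.of_equiv (e2.symm.trans e1)

end FB
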