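import Mathlib
import Pool.Agent.T2h12.FB.Stm

/-!
Tasks UFD and UNT of project FB (helper33).
-/

namespace FB

namespace UFDaux

open FanoFib FanoFib.Tor MvPolynomial

section abstractpart

variable {P R : Type*} [CommRing P] [IsDomain P] [CommRing R] [IsDomain R]

theorem ufm [UniqueFactorizationMonoid P] [IsNoetherianRing R] (ι : P →+* R)
    (hι : Function.Injective ι) (M : P) (hMR : Prime (ι M))
    (hden : ∀ x : R, ∃ (k : ℕ) (p : P), ι M ^ k * x = ι p) : UniqueFactorizationMonoid R := by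
  rw [UniqueFactorizationMonoid.iff_exists_prime_mem_of_isPrime]
  intro I hI hIp
  by_cases hM : ι M ∈ I
  · exact ⟨ι M, hM, hMR⟩
  obtain ⟨x, hxI, hx0⟩ := Submodule.exists_mem_ne_zero_of_ne_bot hI
  obtain ⟨k, p, hp⟩ := hden x
  have hp0 : p ≠ 0 := by
    intro h
    rw [h, map_zero] at hp
    rcases mul_eq_zero.1 hp with h1 | h1
    · exact pow_ne_zero k hMR.ne_zero h1
    · exact hx0 h1
  have hJ : I.comap ι ≠ ⊥ := by
    intro h
    have : p ∈ I.comap ι := by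
      rw [Ideal.mem_comap, ← hp]
      exact I.mul_mem_left _ hxI
    rw [h] at this
    exact hp0 (by simpa using this)
  have : (I.comap ι).IsPrime := Ideal.comap_isPrime ι I
  obtain ⟨π, hπJ, hπ⟩ :=
    (UniqueFactorizationMonoid.iff_exists_prime_mem_of_isPrime (R := P)).1 inferInstance
      (I := I.comap ι) hJ inferInstance
  rw [Ideal.mem_comap] at hπJ
  have hπM : ¬ π ∣ M := by
    rintro ⟨c, hc⟩
    apply hM
    rw [hc, map_mul]
    exact I.mul_mem_right _ hπJ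
  have hπ0 : ι π ≠ 0 := fun h => hπ.ne_zero (hι (by rw [h, map_zero]))
  obtain ⟨l, y, hy, hyl⟩ := WfDvdMonoid.max_power_factor hπ0 hMR.irreducible
  have hyI : y ∈ I := by
    rw [hyl] at hπJ
    rcases hIp.mem_or_mem hπJ with h | h
    · exact absurd (hIp.mem_of_pow_mem _ h) hM
    · exact h
  refine ⟨y, hyI, ?_, ?_, ?_⟩
  · rintro rfl
    exact hy (dvd_zero _)
  · intro hu
    exact hIp.ne_top (Ideal.eq_top_of_isUnit_mem _ hyI hu)
  · rintro a b ⟨c, hc⟩
    obtain ⟨ka, pa, ha⟩ := hden a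
    obtain ⟨kb, pb, hb⟩ := hden b
    obtain ⟨kc, pc, hc'⟩ := hden c
    have key : pa * pb * M ^ (l + kc) = M ^ (ka + kb) * (π * pc) := by
      apply hι
      simp only [map_mul, map_pow]
      rw [← ha, ← hb, ← hc', hyl]
      have : ι M ^ ka * a * (ι M ^ kb * b) * ι M ^ (l + kc) =
        ι M ^ ka * ι M ^ kb * (a * b) * ι M ^ (l + kc) := by ring
      rw [this, hc]
      ring
    have hdvd : π ∣ pa * pb * M ^ (l + kc) := by
      rw [key]
      exact Dvd.dvd.mul_left (dvd_mul_right _ _) _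
    have fin : ∀ (a : R) (k : ℕ) (p : P), ι M ^ k * a = ι p → π ∣ p → y ∣ a := by
      rintro a k p ha ⟨s, rfl⟩
      rw [map_mul, hyl] at ha
      have h1 : ι M ^ k ∣ y * (ι M ^ l * ι s) := ⟨a, by rw [ha]; ring⟩
      obtain ⟨z, hz⟩ := hMR.pow_dvd_of_dvd_mul_left k hy h1
      refine ⟨z, ?_⟩
      have h2 : ι M ^ k * a = ι M ^ k * (y * z) := by
        rw [ha]
        calc ι M ^ l * y * ι s = y * (ι M ^ l * ι s) := by ring
          _ = y * (ι M ^ k * z) := by rw [hz]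
          _ = _ := by ring
      exact mul_left_cancel₀ (pow_ne_zero _ hMR.ne_zero) h2
    rcases hπ.dvd_or_dvd hdvd with h | h
    · rcases hπ.dvd_or_dvd h with h | h
      · exact Or.inl (fin a ka pa ha h)
      · exact Or.inr (fin b kb pb hb h)
    · exact absurd (hπ.dvd_of_dvd_pow h) hπM

theorem units [UniqueFactorizationMonoid P] (ι : P →+* R)
    (hι : Function.Injective ι) (M : P) (hM : Prime M) (hMR : Prime (ι M))
    (hden : ∀ x : R, ∃ (k : ℕ) (p : P), ι M ^ k * x = ι p) (x : R) (hx : IsUnit x) :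
    ∃ u : P, IsUnit u ∧ x = ι u := by
  obtain ⟨y, hy⟩ := hx.exists_right_inv
  obtain ⟨k, p, hp⟩ := hden x
  obtain ⟨l, q, hq⟩ := hden y
  have h1 : p * q = M ^ (k + l) := by
    apply hι
    rw [map_mul, map_pow, ← hp, ← hq]
    calc ι M ^ k * x * (ι M ^ l * y) = ι M ^ (k + l) * (x * y) := by ring
      _ = _ := by rw [hy, mul_one]
  obtain ⟨i, -, hi⟩ := (dvd_prime_pow hM (k + l)).1 (Dvd.intro q h1)
  obtain ⟨u, hu⟩ := hi.symm
  -- M ^ i * u = p
  have h2 : ι M ^ k * x = ι M ^ i * ι (u : P) := by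
    rw [hp, ← hu, map_mul, map_pow]
  have hnu : ¬ IsUnit (ι M) := hMR.not_isUnit
  have hM0 : ι M ≠ 0 := hMR.ne_zero
  have huR : IsUnit (ι (u : P)) := (Units.isUnit u).map ι
  rcases lt_trichotomy i k with h | h | h
  · exfalso
    obtain ⟨d, rfl⟩ := Nat.exists_eq_add_of_lt h
    have : ι M ^ (d + 1) * x = ι (u : P) := by
      apply mul_left_cancel₀ (pow_ne_zero i hM0)
      rw [← h2]; ring
    apply hnu
    apply isUnit_of_dvd_unit _ huR
    rw [← this, pow_succ]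
    exact Dvd.intro_left (ι M ^ d) (by ring) |>.trans (dvd_mul_right _ x) |> fun h => by
      simpa [mul_comm, mul_assoc, mul_left_comm] using h
  · subst h
    exact ⟨u, Units.isUnit u, mul_left_cancel₀ (pow_ne_zero i hM0) h2⟩
  · exfalso
    obtain ⟨d, rfl⟩ := Nat.exists_eq_add_of_lt h
    have : x = ι M ^ (d + 1) * ι (u : P) := by
      apply mul_left_cancel₀ (pow_ne_zero k hM0)
      rw [h2]; ring
    apply hnu
    apply isUnit_of_dvd_unit _ hx
    rw [this, pow_succ]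
    exact ⟨ι M ^ d * ι (u : P), by ring⟩

end abstractpart

/-- `X 3 - X 2 ^ 2`. -/
noncomputable def MM : MvPolynomial (Fin 4) ℂ := X 3 - X 2 ^ 2

noncomputable def ph (s : MvPolynomial (Fin 4) ℂ) :
    MvPolynomial (Fin 4) ℂ →ₐ[ℂ] MvPolynomial (Fin 4) ℂ := aeval ![X 0, X 1, X 2, s]

lemma ph_inv (s t : MvPolynomial (Fin 4) ℂ) (h : ph s t = X 3) : (ph s).comp (ph t) = AlgHom.id ℂ _ := by
  apply MvPolynomial.algHom_ext
  intro i
  fin_cases i
  · simp [ph]
  · simp [ph]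
  · simp [ph]
  · simp only [ph, AlgHom.comp_apply, Fin.reduceFinMk, aeval_X, Matrix.cons_val, AlgHom.id_apply] at h ⊢
    exact h

noncomputable def phE : MvPolynomial (Fin 4) ℂ ≃ₐ[ℂ] MvPolynomial (Fin 4) ℂ :=
  AlgEquiv.ofAlgHom (ph (X 3 - X 2 ^ 2)) (ph (X 3 + X 2 ^ 2))
    (ph_inv _ _ (by simp [ph])) (ph_inv _ _ (by simp [ph]))

lemma MM_prime : Prime MM := by
  have h1 : Prime (X 3 : MvPolynomial (Fin 4) ℂ) := MvPolynomial.X_prime
  have h2 : phE (X 3) = MM := by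
    show ph (X 3 - X 2 ^ 2) (X 3) = _
    simp [ph, MM]
  rw [← h2]
  exact (MulEquiv.prime_iff phE.toMulEquiv).2 h1

noncomputable abbrev R0 : Subalgebra ℂ K4 := A (0, true, true)

lemma g0 : gen (0, true, true) 0 = ca := by simp [gen, W]
lemma g1 : gen (0, true, true) 1 = cb := by simp [gen, W]
lemma g2 : gen (0, true, true) 2 = ct := by simp [gen, W]
lemma g3 : gen (0, true, true) 3 = cs := by simp [gen, W]
lemma g4' : gen (0, true, true) 4 = cu := by simp [gen, W, vv, eta, zeta]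

lemma mem0 : ca ∈ R0 := g0 ▸ gen_mem (0, true, true) 0
lemma mem1 : cb ∈ R0 := g1 ▸ gen_mem (0, true, true) 1
lemma mem3 : cs ∈ R0 := g3 ▸ gen_mem (0, true, true) 3
lemma mem4 : cu ∈ R0 := g4' ▸ gen_mem (0, true, true) 4

/-- The inclusion of the polynomial ring. -/
noncomputable def io : MvPolynomial (Fin 4) ℂ →ₐ[ℂ] R0 :=
  aeval ![⟨ca, mem0⟩, ⟨cb, mem1⟩, ⟨cs, mem3⟩, ⟨cu, mem4⟩]

lemma io_coe (p : MvPolynomial (Fin 4) ℂ) : ((io p : R0) : K4) = algebraMap _ K4 p := by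
  have : R0.val.comp io = (IsScalarTower.toAlgHom ℂ (MvPolynomial (Fin 4) ℂ) K4) := by
    apply MvPolynomial.algHom_ext
    intro i
    fin_cases i <;> simp [io, ca, cb, cs, cu, xx]
  exact congrArg (fun f => f p) this

lemma io_inj : Function.Injective io := by
  intro p q h
  have := congrArg (fun z : R0 => (z : K4)) h
  simp only [io_coe] at this
  exact IsFractionRing.injective (MvPolynomial (Fin 4) ℂ) K4 this

lemma io_MM : io MM = gA (0, true, true) 4 - gA (0, true, true) 3 ^ 2 := by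
  apply Subtype.ext
  have : ((gA (0, true, true) 4 - gA (0, true, true) 3 ^ 2 : R0) : K4) = cu - cs ^ 2 := by
    show gen (0, true, true) 4 - gen (0, true, true) 3 ^ 2 = _
    rw [g3, g4']
  rw [this, io_coe, MM]
  simp [cu, cs, xx]

lemma MM_K (h : S_REL) : algebraMap _ K4 MM * ct =
    algebraMap (MvPolynomial (Fin 4) ℂ) K4 (-(X 3 ^ 2 + (1 + X 0 ^ 4 + X 1 ^ 4))) := by
  have h1 : algebraMap _ K4 MM = cu - cs ^ 2 := by
    rw [MM]; simp [cu, cs, xx]
  have h2 : algebraMap (MvPolynomial (Fin 4) ℂ) K4 (-(X 3 ^ 2 + (1 + X 0 ^ 4 + X 1 ^ 4))) =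
      -(cu ^ 2 + hh) := by
    simp [cu, hh, ca, cb, xx]
  rw [h1, h2, ct, mul_div_cancel₀ _ h.1]

lemma den_K (h : S_REL) (x : K4) (hx : x ∈ R0) :
    ∃ (k : ℕ) (p : MvPolynomial (Fin 4) ℂ), algebraMap _ K4 MM ^ k * x = algebraMap _ K4 p := by
  refine Algebra.adjoin_induction (p := fun x _ => ∃ (k : ℕ) (p : MvPolynomial (Fin 4) ℂ),
    algebraMap _ K4 MM ^ k * x = algebraMap _ K4 p) ?_ ?_ ?_ ?_ hx
  · rintro _ ⟨m, rfl⟩
    fin_cases m
    · exact ⟨0, X 0, by rw [pow_zero, one_mul]; exact g0⟩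
    · exact ⟨0, X 1, by rw [pow_zero, one_mul]; exact g1⟩
    · refine ⟨1, -(X 3 ^ 2 + (1 + X 0 ^ 4 + X 1 ^ 4)), ?_⟩
      rw [pow_one]
      exact (congrArg (fun z => algebraMap _ K4 MM * z) g2).trans (MM_K h)
    · exact ⟨0, X 2, by rw [pow_zero, one_mul]; exact g3⟩
    · exact ⟨0, X 3, by rw [pow_zero, one_mul]; exact g4'⟩
  · intro r
    refine ⟨0, C r, ?_⟩
    rw [pow_zero, one_mul]
    exact (IsScalarTower.algebraMap_apply ℂ (MvPolynomial (Fin 4) ℂ) K4 r)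
  · rintro x y - - ⟨k, p, hp⟩ ⟨l, q, hq⟩
    refine ⟨k + l, MM ^ l * p + MM ^ k * q, ?_⟩
    rw [map_add, map_mul, map_mul, map_pow, map_pow, ← hp, ← hq]
    ring
  · rintro x y - - ⟨k, p, hp⟩ ⟨l, q, hq⟩
    refine ⟨k + l, p * q, ?_⟩
    rw [map_mul, ← hp, ← hq]
    ring

lemma den (h : S_REL) (x : R0) :
    ∃ (k : ℕ) (p : MvPolynomial (Fin 4) ℂ), io.toRingHom MM ^ k * x = io.toRingHom p := by
  obtain ⟨k, p, hp⟩ := den_K h x x.2
  refine ⟨k, p, Subtype.ext ?_⟩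
  show ((io MM ^ k * x : R0) : K4) = ((io p : R0) : K4)
  rw [io_coe, ← hp]
  show ((io MM : R0) : K4) ^ k * (x : K4) = _
  rw [io_coe]

end UFDaux

open UFDaux MvPolynomial

theorem t_UFD (hREL : S_REL) (hNAG : S_NAG) : S_UFD := by
  have : Algebra.FiniteType ℂ R0 := (Subalgebra.fg_iff_finiteType _).1 (A_fg _)
  have : IsNoetherianRing R0 := Algebra.FiniteType.isNoetherianRing ℂ R0
  exact ufm io.toRingHom io_inj MM (by
    show Prime (io MM); rw [io_MM]; exact hNAG) (den hREL)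

theorem t_UNT (hREL : S_REL) (hNAG : S_NAG) : S_UNT := by
  intro x hx
  obtain ⟨u, hu, rfl⟩ := units io.toRingHom io_inj MM MM_prime (by
    show Prime (io MM); rw [io_MM]; exact hNAG) (den hREL) x hx
  obtain ⟨r, -, hr⟩ := (MvPolynomial.isUnit_iff_eq_C_of_isReduced).1 hu
  refine ⟨r, ?_⟩
  rw [hr]
  show io (C r) = _
  exact io.commutes r

end FB
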