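import Pool.Agent.T2h12.FB.ValAux

/-!
# Project FB, task UNI
-/

set_option autoImplicit false
set_option linter.unusedVariables false

namespace FB

open FanoFib

namespace Uni

variable {X : SmoothProperVariety}

theorem mem_q (D : X.PrimeDiv) (c : X.Chart) (Q : Ideal (X.ring c)) (hQ : Q.IsPrime)
    (hQ0 : Q ≠ ⊥) (h0 : ∀ a ∈ X.ring c, 0 ≤ D.1.v a) (hpos : ∀ x ∈ Q, 0 < D.1.v (x : X.K))
    (hfr : ∀ f : X.K, 0 ≤ D.1.v f → ∃ a ∈ X.ring c, ∃ s ∈ X.ring c, D.1.v s = 0 ∧ f = a / s)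
    (x : X.ring c) (hx : 0 < D.1.v (x : X.K)) : x ∈ Q := by
  obtain ⟨q, hq, hq0⟩ := Submodule.exists_mem_ne_zero_of_ne_bot hQ0
  have hq1 : (q : X.K) ≠ 0 := fun h => hq0 (Subtype.ext h)
  by_cases hx0 : x = 0
  · rw [hx0]
    exact Q.zero_mem
  have hx1 : (x : X.K) ≠ 0 := fun h => hx0 (Subtype.ext h)
  obtain ⟨n, hn⟩ := Val.exists_int D.1.v hq1
  obtain ⟨m, hm⟩ := Val.exists_int D.1.v hx1
  have hmpos : 0 < m := by
    rw [hm] at hx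
    exact_mod_cast hx
  have hv : D.1.v ((x : X.K) ^ n.toNat / q) = ((n.toNat * m - n : ℤ) : WithTop ℤ) :=
    Val.div_eq (Val.pow_eq hm _) hn
  have hnn : (0 : ℤ) ≤ n.toNat * m - n := by
    have h1 : n ≤ n.toNat := Int.self_le_toNat n
    have h2 : (0 : ℤ) ≤ n.toNat := by positivity
    nlinarith
  obtain ⟨y, hy, z, hz, hvz, hyz⟩ := hfr _ (by rw [hv]; exact_mod_cast hnn)
  have hz0 := Val.ne_zero' hvz
  have heq : x ^ n.toNat * (⟨z, hz⟩ : X.ring c) = q * ⟨y, hy⟩ := by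
    apply Subtype.ext
    show (x : X.K) ^ n.toNat * z = q * y
    rw [div_eq_div_iff hq1 hz0] at hyz
    rw [hyz]
    ring
  have h1 : x ^ n.toNat * (⟨z, hz⟩ : X.ring c) ∈ Q := by
    rw [heq]
    exact Q.mul_mem_right _ hq
  rcases hQ.mem_or_mem h1 with h2 | h2
  · exact hQ.mem_of_pow_mem _ h2
  · have h3 := hpos _ h2
    have h4 : D.1.v ((⟨z, hz⟩ : X.ring c) : X.K) = 0 := hvz
    rw [h4] at h3
    exact absurd h3 (lt_irrefl _)

/-- fractions in any chart -/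
theorem frac (D : X.PrimeDiv) (c : X.Chart) (h0 : ∀ a ∈ X.ring c, 0 ≤ D.1.v a) (f : X.K)
    (hf : 0 ≤ D.1.v f) : ∃ a ∈ X.ring c, ∃ s ∈ X.ring c, D.1.v s = 0 ∧ f = a / s := by
  obtain ⟨c', h1, h2⟩ := D.2
  have h3 := X.separated (Val.vr D.1.v) c' c h1 h0
  obtain ⟨a, ha, s, hs, hvs, rfl⟩ := h2 f hf
  have h4 : a / s ∈ localRingAt (X.ring c') (Val.vr D.1.v) := by
    refine ⟨a, ha, s, hs, Val.ne_zero' hvs, ?_, rfl⟩
    rw [Val.mem_vr, Val.inv_eq (n := 0) hvs, neg_zero]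
    exact le_rfl
  rw [h3] at h4
  obtain ⟨b, hb, t, ht, ht0, htO, heq⟩ := h4
  refine ⟨b, hb, t, ht, ?_, heq⟩
  obtain ⟨n, hn⟩ := Val.exists_int D.1.v ht0
  rw [Val.mem_vr, Val.inv_eq hn] at htO
  have h5 := h0 t ht
  rw [hn] at h5 ⊢
  have h6 : (0 : ℤ) ≤ n := by exact_mod_cast h5
  have h7 : (0 : ℤ) ≤ -n := by exact_mod_cast htO
  have h8 : n = 0 := by omega
  rw [h8]
  rfl

end Uni

theorem t_UNI : S_UNI := by
  intro X D E c Q hQ hQ0 hD0 hE0 hDp hEp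
  have hDf := Uni.frac D c hD0
  have hEf := Uni.frac E c hE0
  have hDQ := Uni.mem_q D c Q hQ hQ0 hD0 hDp hDf
  have hEQ := Uni.mem_q E c Q hQ hQ0 hE0 hEp hEf
  -- values zero
  have h1 : ∀ s ∈ X.ring c, D.1.v s = 0 → E.1.v s = 0 := by
    intro s hs h
    by_contra hne
    have h2 : 0 < E.1.v s := lt_of_le_of_ne (hE0 s hs) (Ne.symm hne)
    have h3 := hDp _ (hEQ ⟨s, hs⟩ h2)
    have h4 : D.1.v ((⟨s, hs⟩ : X.ring c) : X.K) = 0 := h
    rw [h4] at h3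
    exact lt_irrefl _ h3
  have h1' : ∀ s ∈ X.ring c, E.1.v s = 0 → D.1.v s = 0 := by
    intro s hs h
    by_contra hne
    have h2 : 0 < D.1.v s := lt_of_le_of_ne (hD0 s hs) (Ne.symm hne)
    have h3 := hEp _ (hDQ ⟨s, hs⟩ h2)
    have h4 : E.1.v ((⟨s, hs⟩ : X.ring c) : X.K) = 0 := h
    rw [h4] at h3
    exact lt_irrefl _ h3
  have h2 : ∀ f : X.K, 0 ≤ D.1.v f → 0 ≤ E.1.v f := by
    intro f hf
    obtain ⟨a, ha, s, hs, hvs, rfl⟩ := hDf f hf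
    exact Val.div_nonneg' (hE0 a ha) (h1 s hs hvs)
  have h2' : ∀ f : X.K, 0 ≤ E.1.v f → 0 ≤ D.1.v f := by
    intro f hf
    obtain ⟨a, ha, s, hs, hvs, rfl⟩ := hEf f hf
    exact Val.div_nonneg' (hD0 a ha) (h1' s hs hvs)
  have hzero : ∀ f : X.K, D.1.v f = 0 → E.1.v f = 0 := by
    intro f hf
    obtain ⟨m, hm⟩ := Val.exists_int E.1.v (Val.ne_zero' hf)
    have h3 := h2 f hf.ge
    have h4 := h2 f⁻¹ (by rw [Val.inv_eq (n := 0) hf, neg_zero]; exact le_rfl)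
    rw [Val.inv_eq hm] at h4
    rw [hm] at h3 ⊢
    have h5 : (0 : ℤ) ≤ m := by exact_mod_cast h3
    have h6 : (0 : ℤ) ≤ -m := by exact_mod_cast h4
    have h7 : m = 0 := by omega
    rw [h7]
    rfl
  obtain ⟨π, hπ⟩ := D.1.uniformizer
  obtain ⟨ϖ, hϖ⟩ := E.1.uniformizer
  have hπ1 : D.1.v π = ((1 : ℤ) : WithTop ℤ) := hπ
  have hϖ1 : E.1.v ϖ = ((1 : ℤ) : WithTop ℤ) := hϖ
  have hπ0 := Val.ne_zero hπ1
  have hϖ0 := Val.ne_zero hϖ1
  obtain ⟨e, he⟩ := Val.exists_int E.1.v hπ0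
  -- all values of `E` are multiples
  have hmul : ∀ (f : X.K) (n : ℤ), D.1.v f = n → E.1.v f = ((n * e : ℤ) : WithTop ℤ) := by
    intro f n hn
    have h3 : D.1.v (f / π ^ n) = 0 := by
      rw [Val.div_eq hn (Val.zpow_eq hπ1 n), mul_one, sub_self]
      rfl
    have h4 := hzero _ h3
    have h5 : f = f / π ^ n * π ^ n := (div_mul_cancel₀ _ (zpow_ne_zero _ hπ0)).symm
    rw [h5, Val.mul_eq (n := 0) h4 (Val.zpow_eq he n), zero_add]
  have he1 : e = 1 := by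
    obtain ⟨m, hm⟩ := Val.exists_int D.1.v hϖ0
    have h3 := hmul ϖ m hm
    rw [hϖ1] at h3
    have h4 : (1 : ℤ) = m * e := by exact_mod_cast h3
    have h5 : (0 : ℤ) ≤ e := by
      have h6 := h2 π (by rw [hπ1]; exact_mod_cast (zero_le_one (α := ℤ)))
      rw [he] at h6
      exact_mod_cast h6
    exact Int.eq_one_of_dvd_one h5 ⟨m, by rw [h4]; ring⟩
  have hv : D.1.v = E.1.v := by
    ext f
    rcases eq_or_ne f 0 with rfl | hf
    · rw [D.1.v.map_zero, E.1.v.map_zero]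
    · obtain ⟨n, hn⟩ := Val.exists_int D.1.v hf
      rw [hn, hmul f n hn, he1, mul_one]
  obtain ⟨⟨v, a1, a2, a3⟩, a4⟩ := D
  obtain ⟨⟨w, b1, b2, b3⟩, b4⟩ := E
  have hvw : v = w := hv
  subst hvw
  rfl

end FB
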