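import Pool.Agent.T2h12.FB.Stm

set_option autoImplicit false

namespace FB

open FanoFib FanoFib.Tor MvPolynomial

theorem t_XPP (hFRX : S_FRX) (hKER : S_KER) (hNCZ : S_NCZ) (hSMG : S_SMG) (hSEP : S_SEP) (hCMP : S_CMP)
    (hREL : S_REL) : S_XPP := by
  obtain ⟨-, -, -, -, -, -, -, -, hFF, -⟩ := hREL
  refine ⟨hFRX, fun c => ?_, hSEP, hCMP⟩
  obtain ⟨q, r, hr⟩ := hNCZ c.2.1 c.2.2
  refine hSMG K4 5 (gen c) (FF c.2.1 c.2.2) (hKER c) ⟨r, ?_⟩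
  have h := congrArg (aeval (gen c) : MvPolynomial (Fin 5) ℂ →ₐ[ℂ] K4) hr
  rw [map_add, map_mul, hFF c, mul_zero, zero_add, map_one, map_sum] at h
  exact h

end FB
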