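import Pool.Agent.T2h12.FB.H7Div

/-!
YEE: the prime divisors `w0 = 0` and `y1 = 0` of `Y`.
-/

set_option autoImplicit false

namespace FB

open FanoFib FanoFib.Tor MvPolynomial

namespace H7

/-- a prime divisor of `Y` given by a coordinate of a chart -/
theorem exists_divY (hDVC : S_DVC) (hLOC : S_LOC) (k : Fin 3) (j : Bool)
    (hr : Yv.ring (yc k j) = Algebra.adjoin ℂ (Set.range (gy k j)))
    (hf : ∀ i, Fr (Algebra.adjoin ℂ (Set.range (gy k j))) (xx i)) (i0 : Unit ⊕ Unit × Fin 2) :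
    ∃ v : AddValuation K3 (WithTop ℤ),
      (∀ (P : MvPolynomial (Unit ⊕ Unit × Fin 2) ℂ) (x : Unit ⊕ Unit × Fin 2 → ℂ), x i0 = 0 →
        eval x P ≠ 0 → V v (aeval (gy k j) P) 0) ∧ V v (gy k j i0) 1 ∧
      ∃ E : Yv.PrimeDiv, ∀ (f : K3) (n : ℤ), V v f n → E.1.v (f : K3) = (n : WithTop ℤ) := by
  have hfr := fr_all _ hf
  obtain ⟨E, h0, h1, h2, h3⟩ := exists_div (X := Yv) hDVC (gy k j) (indep (gy k j) hfr) hfr i0
  refine ⟨E.v, h1, h2, ?_⟩
  have hg : ∀ m, 0 ≤ E.v (gy k j m) := by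
    intro m
    have := h0 (X m)
    have e : aeval (gy k j) (X m : MvPolynomial (Unit ⊕ Unit × Fin 2) ℂ) = gy k j m := aeval_X _ _
    have e' : E.v (gy k j m) = E.v (aeval (gy k j) (X m : MvPolynomial (Unit ⊕ Unit × Fin 2) ℂ)) :=
      congrArg E.v e.symm
    rw [e']
    exact this
  have hr' : ∀ a ∈ Yv.ring (yc k j), 0 ≤ E.v a := by
    rw [hr]
    exact nonneg_adjoin E (Set.range (gy k j)) (by
      rintro _ ⟨m, rfl⟩
      exact hg m)
  obtain ⟨D, hD⟩ := hLOC Yv E (yc k j) (Set.range (gy k j)) hr' h3 (by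
    rintro _ ⟨i, rfl⟩
    refine ⟨gy k j i, ?_, 1, one_mem _, E.v.map_one, (div_one _).symm⟩
    rw [hr]
    exact Algebra.subset_adjoin ⟨i, rfl⟩)
  refine ⟨D, fun f n hfn => ?_⟩
  rw [hD]
  exact hfn

end H7

theorem t_YEE (hDVC : S_DVC) (hLOC : S_LOC) (hMOR : S_MOR) : S_YEE := by
  obtain ⟨-, hr, -⟩ := hMOR
  have ne1 : (xx (Sum.inl ()) : K3) ≠ 0 := xx_ne_zero _
  have ne2 : (xx (Sum.inr ((), 0)) : K3) ≠ 0 := xx_ne_zero _
  constructor
  · have g0 : gy 1 true (Sum.inl ()) = xx (Sum.inl ()) / xx (Sum.inr ((), 0)) ^ 2 := by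
      unfold gy mon
      simp [Fintype.prod_sum_type, Fintype.prod_prod_type, Tower.bb, Tower.tt, Tower.sg,
        Fin.prod_univ_two, Fin.succAbove]
      rfl
    have g1 : gy 1 true (Sum.inr ((), 0)) = 1 / xx (Sum.inr ((), 0)) := by
      unfold gy mon
      simp [Fintype.prod_sum_type, Fintype.prod_prod_type, Tower.bb, Tower.tt, Tower.sg,
        Fin.prod_univ_two, Fin.succAbove]
    have g2 : gy 1 true (Sum.inr ((), 1)) = xx (Sum.inr ((), 1)) / xx (Sum.inr ((), 0)) := by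
      unfold gy mon
      simp [Fintype.prod_sum_type, Fintype.prod_prod_type, Tower.bb, Tower.tt, Tower.sg,
        Fin.prod_univ_two, Fin.succAbove]
      rw [mul_comm]
      rfl
    have hm : ∀ i, H7.Fr (Algebra.adjoin ℂ (Set.range (gy 1 true))) (gy 1 true i) := fun i =>
      H7.Fr.of_mem (Algebra.subset_adjoin ⟨i, rfl⟩)
    have hf : ∀ i, H7.Fr (Algebra.adjoin ℂ (Set.range (gy 1 true))) (xx i) := by
      intro i
      rcases i with ⟨⟩ | ⟨⟨⟩, i⟩
      · have e : (xx (Sum.inl ()) : K3) = gy 1 true (Sum.inl ()) /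
            (gy 1 true (Sum.inr ((), 0)) * gy 1 true (Sum.inr ((), 0))) := by
          rw [g0, g1]; field_simp
        exact e ▸ (hm _).div ((hm _).mul (hm _))
      · fin_cases i
        · have e : (xx (Sum.inr ((), 0)) : K3) = (gy 1 true (Sum.inr ((), 0)))⁻¹ := by
            rw [g1]; simp
          exact e ▸ (hm _).inv
        · have e : (xx (Sum.inr ((), 1)) : K3) = gy 1 true (Sum.inr ((), 1)) /
              gy 1 true (Sum.inr ((), 0)) := by
            rw [g1, g2]; field_simp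
          exact e ▸ (hm _).div (hm _)
    obtain ⟨v, h1, v1, E, hE⟩ := H7.exists_divY hDVC hLOC 1 true (hr 1 true) hf (Sum.inr ((), 0))
    have v0 : H7.V v (gy 1 true (Sum.inl ())) 0 := by
      have := h1 (X (Sum.inl ())) (fun x => if x = Sum.inl () then 1 else 0) rfl (by simp)
      rwa [aeval_X] at this
    have v2 : H7.V v (gy 1 true (Sum.inr ((), 1))) 0 := by
      have := h1 (X (Sum.inr ((), 1))) (fun x => if x = Sum.inr ((), 1) then 1 else 0) (by simp)
        (by simp)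
      rwa [aeval_X] at this
    exact ⟨E, hE _ (-2) ((v0.div (v1.pow 2)).congr (by rw [g0, g1]; field_simp)),
      hE _ (-1) (v1.inv.congr (by rw [g1]; simp)),
      hE _ (-1) ((v2.div v1).congr (by rw [g1, g2]; field_simp))⟩
  · have g0 : gy 0 false (Sum.inl ()) = 1 / xx (Sum.inl ()) := by
      unfold gy mon
      simp [Fintype.prod_sum_type, Fintype.prod_prod_type, Tower.bb, Tower.tt, Tower.sg,
        Fin.prod_univ_two, Fin.succAbove]
    have g1 : gy 0 false (Sum.inr ((), 0)) = xx (Sum.inr ((), 0)) := by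
      unfold gy mon
      simp [Fintype.prod_sum_type, Fintype.prod_prod_type, Tower.bb, Tower.tt, Tower.sg,
        Fin.prod_univ_two, Fin.succAbove]
    have g2 : gy 0 false (Sum.inr ((), 1)) = xx (Sum.inr ((), 1)) := by
      unfold gy mon
      simp [Fintype.prod_sum_type, Fintype.prod_prod_type, Tower.bb, Tower.tt, Tower.sg,
        Fin.prod_univ_two, Fin.succAbove]
    have hm : ∀ i, H7.Fr (Algebra.adjoin ℂ (Set.range (gy 0 false))) (gy 0 false i) := fun i =>
      H7.Fr.of_mem (Algebra.subset_adjoin ⟨i, rfl⟩)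
    have hf : ∀ i, H7.Fr (Algebra.adjoin ℂ (Set.range (gy 0 false))) (xx i) := by
      intro i
      rcases i with ⟨⟩ | ⟨⟨⟩, i⟩
      · have e : (xx (Sum.inl ()) : K3) = (gy 0 false (Sum.inl ()))⁻¹ := by
          rw [g0]; simp
        exact e ▸ (hm _).inv
      · fin_cases i
        · exact g1 ▸ (hm _)
        · exact g2 ▸ (hm _)
    obtain ⟨v, h1, v0, E, hE⟩ := H7.exists_divY hDVC hLOC 0 false (hr 0 false) hf (Sum.inl ())
    have v1 : H7.V v (gy 0 false (Sum.inr ((), 0))) 0 := by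
      have := h1 (X (Sum.inr ((), 0))) (fun x => if x = Sum.inr ((), 0) then 1 else 0) (by simp)
        (by simp)
      rwa [aeval_X] at this
    have v2 : H7.V v (gy 0 false (Sum.inr ((), 1))) 0 := by
      have := h1 (X (Sum.inr ((), 1))) (fun x => if x = Sum.inr ((), 1) then 1 else 0) (by simp)
        (by simp)
      rwa [aeval_X] at this
    exact ⟨E, hE _ (-1) (v0.inv.congr (by rw [g0]; simp)),
      hE _ 0 (v1.congr g1), hE _ 0 (v2.congr g2)⟩

end FB
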