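import Pool.Agent.T2h12.FB.T_REL
import Pool.Agent.T2h12.FB.T_SEC
import Pool.Agent.T2h12.FB.T_SEP
import Pool.Agent.T2h12.FB.T_CMP
import Pool.Agent.T2h12.FB.T_AIN
import Pool.Agent.T2h12.FB.T_NRT
import Pool.Agent.T2h12.FB.T_NFE
import Pool.Agent.T2h12.FB.T_NFU
import Pool.Agent.T2h12.FB.T_KER
import Pool.Agent.T2h12.FB.T_NCZ
import Pool.Agent.T2h12.FB.T_SMG
import Pool.Agent.T2h12.FB.T_FRX
import Pool.Agent.T2h12.FB.T_XPP
import Pool.Agent.T2h12.FB.T_JAC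
import Pool.Agent.T2h12.FB.T_ACG
import Pool.Agent.T2h12.FB.T_FAN
import Pool.Agent.T2h12.FB.T_PHI
import Pool.Agent.T2h12.FB.T_MOR
import Pool.Agent.T2h12.FB.T_CON
import Pool.Agent.T2h12.FB.T_DIR
import Pool.Agent.T2h12.FB.T_DMF
import Pool.Agent.T2h12.FB.T_NRF
import Pool.Agent.T2h12.FB.T_DVC
import Pool.Agent.T2h12.FB.T_LOC
import Pool.Agent.T2h12.FB.T_UNI
import Pool.Agent.T2h12.FB.T_CLG
import Pool.Agent.T2h12.FB.T_PRW
import Pool.Agent.T2h12.FB.T_PRP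
import Pool.Agent.T2h12.FB.T_PRE
import Pool.Agent.T2h12.FB.T_EWW
import Pool.Agent.T2h12.FB.T_EPP
import Pool.Agent.T2h12.FB.T_EE1
import Pool.Agent.T2h12.FB.T_EE2
import Pool.Agent.T2h12.FB.T_BND
import Pool.Agent.T2h12.FB.T_IRQ
import Pool.Agent.T2h12.FB.T_NAG
import Pool.Agent.T2h12.FB.T_UFD
import Pool.Agent.T2h12.FB.T_CLX
import Pool.Agent.T2h12.FB.T_YEE
import Pool.Agent.T2h12.FB.T_YBD
import Pool.Agent.T2h12.FB.T_CLY
import Pool.Agent.T2h12.FB.T_FIN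

/-! Assembly of project FB. -/

namespace FB

theorem fin : S_FIN := by
  have hREL := t_REL
  have hSEC : S_SEC := t_SEC hREL
  have hSEP : S_SEP := t_SEP hREL hSEC
  have hCMP : S_CMP := t_CMP hREL
  have hAIN : S_AIN := t_AIN hREL
  have hNRT : S_NRT := t_NRT
  have hNFE : S_NFE := t_NFE hREL
  have hNFU : S_NFU := t_NFU hREL hAIN hNRT
  have hKER : S_KER := t_KER hREL hNFU
  have hNCZ : S_NCZ := t_NCZ
  have hSMG : S_SMG := t_SMG
  have hFRX : S_FRX := t_FRX hREL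
  have hXPP : S_XPP := t_XPP hFRX hKER hNCZ hSMG hSEP hCMP hREL
  have hJAC : S_JAC := t_JAC hREL
  have hACG : S_ACG := t_ACG
  have hFAN : S_FAN := t_FAN hREL hSEC hNCZ hJAC hACG
  have hPHI : S_PHI := t_PHI hAIN
  have hMOR : S_MOR := t_MOR
  have hCON : S_CON := t_CON hREL hAIN hNFE hNFU
  have hDIR : S_DIR := t_DIR hMOR hCON
  have hDMF : S_DMF := t_DMF hKER hMOR
  have hNRF : S_NRF := t_NRF hKER hMOR hREL
  have hDVC : S_DVC := t_DVC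
  have hLOC : S_LOC := t_LOC
  have hUNI : S_UNI := t_UNI
  have hCLG : S_CLG := t_CLG hDVC hUNI
  have hPRW : S_PRW := t_PRW hREL hKER hNRT
  have hPRP : S_PRP := t_PRP hREL hKER
  have hPRE : S_PRE := t_PRE hKER
  have hEWW : S_EWW := t_EWW hDVC hLOC hREL
  have hEPP : S_EPP := t_EPP hDVC hLOC hREL
  have hEE1 : S_EE1 := t_EE1 hDVC hLOC hREL
  have hEE2 : S_EE2 := t_EE2 hDVC hLOC hREL
  have hBND : S_BND := t_BND hUNI hREL hPRW hPRP hPRE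
  have hIRQ : S_IRQ := t_IRQ
  have hNAG : S_NAG := t_NAG hKER hIRQ
  have hUFD : S_UFD := t_UFD hREL hNAG
  have hUNT : S_UNT := t_UNT hREL hNAG
  have hCLX : S_CLX := t_CLX hCLG hEWW hEPP hEE1 hEE2 hBND hUFD hUNT
  have hYEE : S_YEE := t_YEE hDVC hLOC hMOR
  have hYBD : S_YBD := t_YBD hUNI hMOR
  have hCLY : S_CLY := t_CLY hCLG hYEE hYBD
  exact t_FIN hXPP hFAN hPHI hDIR hDMF hNRF hCLX hCLY hMOR

end FB
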