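import Pool.Agent.T2h12.FB.H7Gen

/-!
Prime divisors of `X` given by polynomial charts.
-/

set_option autoImplicit false

namespace FB
namespace H7

open FanoFib FanoFib.Tor MvPolynomial

/-- a prime divisor of `X` given by a coordinate of a polynomial chart -/
theorem exists_div4 (hDVC : S_DVC) (hLOC : S_LOC) (h : XP) (g : Fin 4 → K4)
    (hf : ∀ i, Fr (Algebra.adjoin ℂ (Set.range g)) (xx i)) (i0 : Fin 4) :
    ∃ v : AddValuation K4 (WithTop ℤ),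
      (∀ (P : MvPolynomial (Fin 4) ℂ) (x : Fin 4 → ℂ), x i0 = 0 → eval x P ≠ 0 →
        V v (aeval g P) 0) ∧ V v (g i0) 1 ∧
      ∀ c : Ch, (∀ m, 0 ≤ v (gen c m)) →
        (∀ i, ∃ a ∈ A c, ∃ s ∈ A c, V v s 0 ∧ g i = a / s) →
        ∃ E : (Xv h).PrimeDiv, ∀ (f : K4) (n : ℤ), V v f n → E.1.v (f : K4) = (n : WithTop ℤ) := by
  have hfr := fr_all _ hf
  obtain ⟨E, h0, h1, h2, h3⟩ := exists_div (X := Xv h) hDVC g (indep g hfr) hfr i0
  refine ⟨E.v, h1, h2, ?_⟩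
  intro c hc hg
  have hr : ∀ a ∈ (Xv h).ring c, 0 ≤ E.v a := by
    have := nonneg_adjoin E (Set.range (gen c)) (by
      rintro _ ⟨m, rfl⟩
      exact hc m)
    exact this
  obtain ⟨D, hD⟩ := hLOC (Xv h) E c (Set.range g) hr h3 (by
    rintro _ ⟨i, rfl⟩
    obtain ⟨a, ha, s, hs, hv, e⟩ := hg i
    exact ⟨a, ha, s, hs, hv, e⟩)
  refine ⟨D, fun f n hfn => ?_⟩
  rw [hD]
  exact hfn

end H7
end FB
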