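import Pool.Agent.T2h12.FB.Stm

/-!
Orders along divisors given by polynomial charts: general lemmas.
-/

set_option autoImplicit false

namespace FB
namespace H7

open FanoFib FanoFib.Tor MvPolynomial

/-- a fraction of elements of `B` -/
def Fr {K : Type} [Field K] [Algebra ℂ K] (B : Subalgebra ℂ K) (f : K) : Prop :=
  ∃ a ∈ B, ∃ b ∈ B, b ≠ 0 ∧ f = a / b

section
variable {K : Type} [Field K] [Algebra ℂ K] {B : Subalgebra ℂ K} {f g : K}

lemma Fr.of_mem (h : f ∈ B) : Fr B f := ⟨f, h, 1, one_mem _, one_ne_zero, by simp⟩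

lemma Fr.add (hf : Fr B f) (hg : Fr B g) : Fr B (f + g) := by
  obtain ⟨a, ha, b, hb, hb0, rfl⟩ := hf
  obtain ⟨c, hc, d, hd, hd0, rfl⟩ := hg
  refine ⟨a * d + b * c, add_mem (mul_mem ha hd) (mul_mem hb hc), b * d, mul_mem hb hd,
    mul_ne_zero hb0 hd0, ?_⟩
  rw [div_add_div _ _ hb0 hd0]

lemma Fr.mul (hf : Fr B f) (hg : Fr B g) : Fr B (f * g) := by
  obtain ⟨a, ha, b, hb, hb0, rfl⟩ := hf
  obtain ⟨c, hc, d, hd, hd0, rfl⟩ := hg
  exact ⟨a * c, mul_mem ha hc, b * d, mul_mem hb hd, mul_ne_zero hb0 hd0, div_mul_div_comm _ _ _ _⟩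

lemma Fr.inv (hf : Fr B f) : Fr B f⁻¹ := by
  obtain ⟨a, ha, b, hb, hb0, rfl⟩ := hf
  by_cases h0 : a = 0
  · subst h0
    simpa using Fr.of_mem (zero_mem B)
  · exact ⟨b, hb, a, ha, h0, inv_div _ _⟩

lemma Fr.div (hf : Fr B f) (hg : Fr B g) : Fr B (f / g) := by
  rw [div_eq_mul_inv]
  exact hf.mul hg.inv

end

lemma fr_all {ι : Type} (B : Subalgebra ℂ (KK ι)) (h : ∀ i, Fr B (xx i)) : ∀ f : KK ι, Fr B f := by
  have hP : ∀ P : MvPolynomial ι ℂ, Fr B (algebraMap (MvPolynomial ι ℂ) (KK ι) P) := by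
    intro P
    induction P using MvPolynomial.induction_on with
    | C z =>
      apply Fr.of_mem
      have h1 : algebraMap (MvPolynomial ι ℂ) (KK ι) (C z) = algebraMap ℂ (KK ι) z := by
        rw [IsScalarTower.algebraMap_apply ℂ (MvPolynomial ι ℂ) (KK ι)]
        rfl
      rw [h1]
      exact B.algebraMap_mem z
    | add p q hp hq =>
      rw [_root_.map_add]
      exact hp.add hq
    | mul_X p i hp =>
      rw [_root_.map_mul]
      exact hp.mul (h i)
  intro f
  obtain ⟨p, q, -, rfl⟩ := IsFractionRing.div_surjective (A := MvPolynomial ι ℂ) f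
  exact (hP p).div (hP q)

lemma indep {ι : Type} [Finite ι] (g : ι → KK ι)
    (h : ∀ f : KK ι, Fr (Algebra.adjoin ℂ (Set.range g)) f) : AlgebraicIndependent ℂ g := by
  have hfrac : IsFractionRing (Algebra.adjoin ℂ (Set.range g)) (KK ι) := by
    refine IsFractionRing.of_field _ _ fun z => ?_
    obtain ⟨a, ha, b, hb, -, h⟩ := h z
    exact ⟨⟨a, ha⟩, ⟨b, hb⟩, h⟩
  have halg : Algebra.IsAlgebraic (Algebra.adjoin ℂ (Set.range g)) (KK ι) :=
    IsLocalization.isAlgebraic (R := Algebra.adjoin ℂ (Set.range g)) (S := KK ι)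
      (M := nonZeroDivisors (Algebra.adjoin ℂ (Set.range g)))
  have halg2 : Algebra.IsAlgebraic (MvPolynomial ι ℂ) (KK ι) :=
    IsLocalization.isAlgebraic (R := MvPolynomial ι ℂ) (S := KK ι)
      (M := nonZeroDivisors (MvPolynomial ι ℂ))
  have htr := ((IsTranscendenceBasis.mvPolynomial ι ℂ).algebraMap_comp (A := KK ι)).cardinalMk_eq_trdeg
  exact (Algebra.IsAlgebraic.isTranscendenceBasis_of_le_trdeg_of_finite ℂ g htr.le).1

variable {X : SmoothProperVariety}

/-- the divisor given by a coordinate of a polynomial chart -/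
theorem exists_div (hDVC : S_DVC) {ι : Type} [Finite ι] (g : ι → X.K)
    (hg : AlgebraicIndependent ℂ g) (hfr : ∀ f : X.K, Fr (Algebra.adjoin ℂ (Set.range g)) f) (i0 : ι) :
    ∃ E : X.DivisorOver, (∀ P : MvPolynomial ι ℂ, 0 ≤ E.v (aeval g P)) ∧
      (∀ (P : MvPolynomial ι ℂ) (x : ι → ℂ), x i0 = 0 → eval x P ≠ 0 → E.v (aeval g P) = 0) ∧
      E.v (g i0) = 1 ∧
      ∀ f : X.K, 0 ≤ E.v f → ∃ a ∈ Algebra.adjoin ℂ (Set.range g),
        ∃ s ∈ Algebra.adjoin ℂ (Set.range g), E.v s = 0 ∧ f = a / s := by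
  have hB : (Algebra.adjoin ℂ (Set.range g)).FG :=
    Subalgebra.fg_def.2 ⟨Set.range g, Set.finite_range _, rfl⟩
  have hπ : Prime (hg.aevalEquiv (MvPolynomial.X i0)) :=
    (MulEquiv.prime_iff hg.aevalEquiv.toMulEquiv).2 MvPolynomial.X_prime
  obtain ⟨E, h0, h1, h2, h3⟩ := hDVC X (Algebra.adjoin ℂ (Set.range g)) hB hfr _ hπ
  have hco : ∀ P : MvPolynomial ι ℂ, (hg.aevalEquiv P : X.K) = aeval g P := fun P =>
    hg.algebraMap_aevalEquiv P
  refine ⟨E, ?_, ?_, ?_, h3⟩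
  · intro P
    rw [← hco]
    exact h0 _
  · intro P x hx hP
    rw [← hco]
    apply h1
    rintro ⟨c, hc⟩
    obtain ⟨Q, rfl⟩ := hg.aevalEquiv.surjective c
    rw [← _root_.map_mul] at hc
    have hc' := hg.aevalEquiv.injective hc
    apply hP
    rw [hc', _root_.map_mul, eval_X, hx, zero_mul]
  · have := hco (MvPolynomial.X i0)
    rw [aeval_X] at this
    rw [← this]
    exact h2

/-- the order is `n` -/
def V {K : Type} [Field K] (v : AddValuation K (WithTop ℤ)) (f : K) (n : ℤ) : Prop :=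
  v f = ((n : ℤ) : WithTop ℤ)

section
variable {K : Type} [Field K] {v : AddValuation K (WithTop ℤ)} {f g : K} {m n : ℤ}

lemma V.one : V v 1 0 := by
  unfold V
  rw [v.map_one]
  rfl

lemma V.mul (hf : V v f m) (hg : V v g n) : V v (f * g) (m + n) := by
  unfold V at *
  rw [v.map_mul, hf, hg]
  rfl

lemma V.ne_zero (hf : V v f m) : f ≠ 0 := by
  rintro rfl
  unfold V at hf
  rw [v.map_zero] at hf
  exact absurd hf.symm (WithTop.coe_ne_top)

lemma V.inv (hf : V v f m) : V v f⁻¹ (-m) := by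
  have hi : v f⁻¹ ≠ ⊤ := by
    intro h
    have h1 : v (f * f⁻¹) = v f + v f⁻¹ := v.map_mul _ _
    rw [mul_inv_cancel₀ hf.ne_zero, v.map_one, h, add_top] at h1
    exact absurd h1 (by simp)
  have hk : V v f⁻¹ ((v f⁻¹).untop hi) := (WithTop.coe_untop _ hi).symm
  have h1 : V v (f * f⁻¹) (m + _) := hf.mul hk
  rw [mul_inv_cancel₀ hf.ne_zero] at h1
  have h2 : ((m + (v f⁻¹).untop hi : ℤ) : WithTop ℤ) = ((0 : ℤ) : WithTop ℤ) := h1.symm.trans V.one
  have h3 : m + (v f⁻¹).untop hi = 0 := by exact_mod_cast h2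
  have h4 : (v f⁻¹).untop hi = -m := by omega
  rw [h4] at hk
  exact hk

lemma V.div (hf : V v f m) (hg : V v g n) : V v (f / g) (m - n) := by
  rw [div_eq_mul_inv, sub_eq_add_neg]
  exact hf.mul hg.inv

lemma V.neg (hf : V v f m) : V v (-f) m := by
  unfold V at *
  rw [v.map_neg]
  exact hf

lemma V.pow (hf : V v f m) (k : ℕ) : V v (f ^ k) (k * m) := by
  induction k with
  | zero => simpa using (V.one (v := v))
  | succ k ih =>
    rw [pow_succ]
    have := ih.mul hf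
    have h : ((k + 1 : ℕ) : ℤ) * m = k * m + m := by push_cast; ring
    rw [h]
    exact this

lemma V.nonneg (hf : V v f m) (hm : 0 ≤ m) : 0 ≤ v f := by
  unfold V at hf
  rw [hf]
  exact_mod_cast hm

lemma V.eq (hf : V v f m) (h : m = n) : V v f n := h ▸ hf

lemma V.congr (hf : V v f m) (h : f = g) : V v g m := h ▸ hf

end

lemma nonneg_adjoin (E : X.DivisorOver) (S : Set X.K) (h : ∀ g ∈ S, 0 ≤ E.v g) :
    ∀ a ∈ Algebra.adjoin ℂ S, 0 ≤ E.v a := by
  intro a ha
  induction ha using Algebra.adjoin_induction with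
  | mem x hx => exact h x hx
  | algebraMap z =>
    by_cases hz : z = 0
    · subst hz
      rw [_root_.map_zero, E.v.map_zero]
      exact le_top
    · rw [E.const z hz]
  | add x y _ _ hx hy => exact (le_min hx hy).trans (E.v.map_add x y)
  | mul x y _ _ hx hy =>
    rw [E.v.map_mul]
    exact add_nonneg hx hy

end H7
end FB
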