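import Mathlib
import Pool.Agent.T2h12.FB.Stm

namespace FB

open FanoFib FanoFib.Tor MvPolynomial

theorem t_FIN (hXPP : S_XPP) (hFAN : S_FAN) (hPHI : S_PHI) (hDIR : S_DIR) (hDMF : S_DMF)
    (hNRF : S_NRF) (hCLX : S_CLX) (hCLY : S_CLY) (hMOR : S_MOR) : S_FIN := by
  obtain ⟨φ, hφ⟩ := hPHI
  have hY : Yv.IsFano := by
    apply FanoFib.Tower.isFano
    intro j
    simp
  refine ⟨Xv hXPP, Yv, φ, ⟨hFAN _, ?_, ?_, hDIR _ φ hφ⟩, hY, ?_, ?_, hCLX _, hCLY,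
    hNRF _ φ hφ⟩
  · rintro ⟨k, j, i⟩
    obtain ⟨hm, h1⟩ := hDMF hXPP φ hφ k j i
    exact ⟨yc k j, hm, fun n hn => (h1 n hn).le⟩
  · intro d n hn
    obtain ⟨k, j, rfl⟩ := hMOR.1 d
    obtain ⟨hm, h1⟩ := hDMF hXPP φ hφ k j true
    exact ⟨(k, j, true), hm, h1 n hn⟩
  · show Fintype.card (Fin 4) = 4
    simp
  · show Fintype.card (Unit ⊕ Unit × Fin 2) = 3
    simp

end FB
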