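import Pool.Agent.T2h12.FB.Stm

/-!
# Task JAC (helper21)
-/

set_option autoImplicit false

namespace FB

open FanoFib FanoFib.Tor MvPolynomial

namespace JAC

/-- The chain rule. -/
lemma chain (g : Fin 5 → K4) (D : Derivation ℂ K4 K4) (F : MvPolynomial (Fin 5) ℂ) :
    D (aeval g F) = ∑ m, aeval g (pderiv m F) * D (g m) := by
  induction F using MvPolynomial.induction_on with
  | C r => simp
  | add p q hp hq =>
    simp only [map_add, hp, hq, add_mul, Finset.sum_add_distrib]
  | mul_X p n hp =>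
    rw [map_mul, aeval_X, D.leibniz, hp]
    simp only [Derivation.leibniz, pderiv_X, smul_eq_mul, map_add, map_mul, aeval_X, add_mul,
      Finset.sum_add_distrib]
    congr 1
    · rw [Finset.sum_eq_single n]
      · simp
      · intro b _ hb
        rw [Pi.single_eq_of_ne hb.symm]
        simp
      · intro h
        exact absurd (Finset.mem_univ n) h
    · rw [Finset.mul_sum]
      refine Finset.sum_congr rfl fun m _ => ?_
      ring

/-- The maximal minors of a `5 × 4` matrix with a relation between the rows. -/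
lemma cramer (G : Fin 5 → Fin 4 → K4) (d : Fin 5 → K4) (h : ∀ j, ∑ m, d m * G m j = 0)
    (m n : Fin 5) :
    d n * ((-1) ^ (m : ℕ) * (Matrix.of fun i j => G (m.succAbove i) j).det) =
      d m * ((-1) ^ (n : ℕ) * (Matrix.of fun i j => G (n.succAbove i) j).det) := by
  let M : Matrix (Fin 5) (Fin 5) K4 :=
    Matrix.of fun a => (Fin.cons (if a = m then (1 : K4) else 0) (G a) : Fin 5 → K4)
  have h1 : M.det = (-1) ^ (m : ℕ) * (Matrix.of fun i j => G (m.succAbove i) j).det := by
    rw [Matrix.det_succ_column_zero, Finset.sum_eq_single m]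
    · have e1 : M m 0 = 1 := by simp [M]
      rw [e1, mul_one]
      congr 1
    · intro b _ hb
      have e1 : M b 0 = 0 := by simp [M, hb]
      rw [e1, mul_zero, zero_mul]
    · intro hh
      exact absurd (Finset.mem_univ m) hh
  have h2 := Matrix.det_updateRow_sum M n d
  have h3 : ∑ k, d k • M k = (Fin.cons (d m) 0 : Fin 5 → K4) := by
    funext b
    rw [Finset.sum_apply]
    refine Fin.cases ?_ (fun j => ?_) b
    · simp [M]
    · have := h j
      simpa [M] using this
  rw [h3] at h2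
  rw [Matrix.det_succ_row _ n, Finset.sum_eq_single 0] at h2
  · have e2 : (M.updateRow n (Fin.cons (d m) 0 : Fin 5 → K4)) n 0 = d m := by simp
    have e3 : ((M.updateRow n (Fin.cons (d m) 0 : Fin 5 → K4)).submatrix n.succAbove
        (Fin.succAbove 0)) = Matrix.of fun i j => G (n.succAbove i) j := by
      ext i j
      rw [Matrix.submatrix_apply, Matrix.updateRow_ne (Fin.succAbove_ne n i)]
      rfl
    rw [e2, e3] at h2
    rw [← h1, ← smul_eq_mul, ← h2]
    simp
    ring
  · intro b _ hb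
    have e2 : (M.updateRow n (Fin.cons (d m) 0 : Fin 5 → K4)) n b = 0 := by
      rw [Matrix.updateRow_self]
      obtain ⟨j, rfl⟩ := Fin.exists_succ_eq.2 hb
      simp
    rw [e2, mul_zero, zero_mul]
  · intro hh
    exact absurd (Finset.mem_univ _) hh

lemma minor4 (x0 x1 x2 x3 : K4) (h03 : frame 3 x0 = 0) (h13 : frame 3 x1 = 0)
    (h33 : frame 3 x3 = 0) (h02 : frame 2 x0 = 0) (h12 : frame 2 x1 = 0) :
    tjac ![x0, x1, x2, x3] =
      -(frame 3 x2 * (frame 2 x3 * (frame 0 x0 * frame 1 x1 - frame 1 x0 * frame 0 x1))) := by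
  unfold tjac
  rw [Matrix.det_succ_row_zero]
  simp [Fin.sum_univ_succ, Matrix.det_fin_three, Fin.succAbove, h03, h13, h33, h02, h12]
  ring

lemma hT (hREL : S_REL) : frame 3 ct * (cu - cs ^ 2) = -(cu * (2 * cu + ct)) := by
  obtain ⟨-, -, -, -, -, -, -, h, -⟩ := hREL
  have h1 := congrArg (frame 3) h
  have f0 : frame 3 ca = 0 := by unfold ca; rw [frame_xx]; simp
  have f1 : frame 3 cb = 0 := by unfold cb; rw [frame_xx]; simp
  have f2 : frame 3 cs = 0 := by unfold cs; rw [frame_xx]; simp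
  have f3 : frame 3 cu = cu := by unfold cu; rw [frame_xx]; simp
  simp only [map_sub, map_add, Derivation.leibniz, Derivation.leibniz_pow, hh, f0, f1, f2, f3,
    map_zero, Derivation.map_one_eq_zero, smul_eq_mul, nsmul_eq_mul] at h1
  push_cast at h1
  linear_combination h1

lemma four (hREL : S_REL) (δ w x0 x1 : K4) (hw : w ≠ 0)
    (h03 : frame 3 x0 = 0) (h13 : frame 3 x1 = 0) (h02 : frame 2 x0 = 0) (h12 : frame 2 x1 = 0)
    (hw3 : frame 3 w = 0) (hw2 : frame 2 w = 0)
    (hP : (frame 0 x0 * frame 1 x1 - frame 1 x0 * frame 0 x1) * w ^ 3 = δ * (ca * cb))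
    (j i : Bool) :
    kap * (w * (if j then w ^ 2 else ct) * (if i then w else cs)) *
      tjac ![x0, x1, if j then ct / w ^ 2 else w ^ 2 / ct, if i then cs / w else w / cs] =
    δ * (if j then 1 else -1) * (if i then 1 else -1) *
      (2 * (cu * w / ((if j then w ^ 2 else ct) * (if i then w else cs))) +
        (if j then ct / w ^ 2 else 1) * (if i then 1 else w / cs)) := by
  have hT' := hT hREL
  obtain ⟨n1, n2, n3, n4, n5, n6, n7, h, -⟩ := hREL
  have f2 : frame 3 cs = 0 := by unfold cs; rw [frame_xx]; simp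
  have f22 : frame 2 cs = cs := by unfold cs; rw [frame_xx]; simp
  have hT2 : frame 3 ct = -(cu * (2 * cu + ct)) / (cu - cs ^ 2) := by
    rw [eq_div_iff n1, hT']
  have hP2 : (frame 0 x0 * frame 1 x1 - frame 1 x0 * frame 0 x1) = δ * (ca * cb) / w ^ 3 := by
    rw [eq_div_iff (pow_ne_zero 3 hw), hP]
  have e1 : frame 3 (ct / w ^ 2) = frame 3 ct / w ^ 2 := by
    rw [Derivation.leibniz_div, Derivation.leibniz_pow, hw3]
    simp only [smul_eq_mul, smul_zero, mul_zero, sub_zero]
    field_simp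
  have e2 : frame 3 (w ^ 2 / ct) = -(w ^ 2 * frame 3 ct) / ct ^ 2 := by
    rw [Derivation.leibniz_div, Derivation.leibniz_pow, hw3]
    simp only [smul_eq_mul, smul_zero, mul_zero, zero_sub]
    field_simp
  have e3 : frame 3 (cs / w) = 0 := by
    rw [Derivation.leibniz_div, hw3, f2]; simp
  have e4 : frame 3 (w / cs) = 0 := by
    rw [Derivation.leibniz_div, hw3, f2]; simp
  have e5 : frame 2 (cs / w) = cs / w := by
    rw [Derivation.leibniz_div, hw2, f22]
    simp only [smul_eq_mul, mul_zero, sub_zero]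
    field_simp
  have e6 : frame 2 (w / cs) = -(w / cs) := by
    rw [Derivation.leibniz_div, hw2, f22]
    simp only [smul_eq_mul, mul_zero, zero_sub]
    field_simp
  cases j <;> cases i <;> simp only [if_true, if_false, Bool.false_eq_true]
  · rw [minor4 _ _ _ _ h03 h13 e4 h02 h12, hP2, e2, e6, hT2]
    unfold kap
    field_simp
  · rw [minor4 _ _ _ _ h03 h13 e3 h02 h12, hP2, e2, e5, hT2]
    unfold kap
    field_simp
  · rw [minor4 _ _ _ _ h03 h13 e4 h02 h12, hP2, e1, e6, hT2]
    unfold kap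
    field_simp
  · rw [minor4 _ _ _ _ h03 h13 e3 h02 h12, hP2, e1, e5, hT2]
    unfold kap
    field_simp

lemma hN (hREL : S_REL) : 2 * cu + ct ≠ 0 := by
  obtain ⟨-, -, -, -, -, -, -, h, -⟩ := hREL
  intro h0
  have h1 : ct = -(2 * cu) := by linear_combination h0
  rw [h1] at h
  have h2 : hh - cu ^ 2 + 2 * cu * cs ^ 2 = 0 := by linear_combination h
  have h3 : algebraMap (MvPolynomial (Fin 4) ℂ) K4
      (1 + X 0 ^ 4 + X 1 ^ 4 - X 3 ^ 2 + 2 * X 3 * X 2 ^ 2) = 0 := by
    rw [← h2]
    unfold hh ca cb cs cu xx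
    simp only [map_add, map_sub, map_mul, map_pow, map_one, map_ofNat]
  rw [FaithfulSMul.algebraMap_eq_zero_iff] at h3
  have h4 := congrArg (eval (0 : Fin 4 → ℂ)) h3
  simp at h4

lemma kfacts (hREL : S_REL) (k : Fin 3) : W k ≠ 0 ∧ frame 3 (W k) = 0 ∧ frame 2 (W k) = 0 ∧
    frame 3 (W (k.succAbove 0) / W k) = 0 ∧ frame 3 (W (k.succAbove 1) / W k) = 0 ∧
    frame 2 (W (k.succAbove 0) / W k) = 0 ∧ frame 2 (W (k.succAbove 1) / W k) = 0 ∧
    (frame 0 (W (k.succAbove 0) / W k) * frame 1 (W (k.succAbove 1) / W k) -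
      frame 1 (W (k.succAbove 0) / W k) * frame 0 (W (k.succAbove 1) / W k)) * (W k) ^ 3 =
      (-1) ^ (k : ℕ) * (ca * cb) := by
  obtain ⟨n1, n2, n3, n4, n5, n6, n7, -⟩ := hREL
  have a0 : frame 0 ca = ca := by unfold ca; rw [frame_xx]; simp
  have a1 : frame 1 ca = 0 := by unfold ca; rw [frame_xx]; simp
  have a2 : frame 2 ca = 0 := by unfold ca; rw [frame_xx]; simp
  have a3 : frame 3 ca = 0 := by unfold ca; rw [frame_xx]; simp
  have b0 : frame 0 cb = 0 := by unfold cb; rw [frame_xx]; simp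
  have b1 : frame 1 cb = cb := by unfold cb; rw [frame_xx]; simp
  have b2 : frame 2 cb = 0 := by unfold cb; rw [frame_xx]; simp
  have b3 : frame 3 cb = 0 := by unfold cb; rw [frame_xx]; simp
  have w0 : W 0 = 1 := rfl
  have w1 : W 1 = ca := rfl
  have w2 : W 2 = cb := rfl
  fin_cases k
  · have s0 : (0 : Fin 3).succAbove 0 = 1 := rfl
    have s1 : (0 : Fin 3).succAbove 1 = 2 := rfl
    simp only [Fin.zero_eta, s0, s1, w0, w1, w2, Derivation.leibniz_div, a0, a1, a2, a3,
      b0, b1, b2, b3, Derivation.map_one_eq_zero]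
    simp
  · have s0 : (1 : Fin 3).succAbove 0 = 0 := rfl
    have s1 : (1 : Fin 3).succAbove 1 = 2 := rfl
    simp only [Fin.mk_one, s0, s1, w0, w1, w2, Derivation.leibniz_div, a0, a1, a2, a3,
      b0, b1, b2, b3, Derivation.map_one_eq_zero]
    simp [n4]
    field_simp
  · have s0 : (2 : Fin 3).succAbove 0 = 0 := rfl
    have s1 : (2 : Fin 3).succAbove 1 = 1 := rfl
    simp only [Fin.reduceFinMk, s0, s1, w0, w1, w2, Derivation.leibniz_div, a0, a1, a2, a3,
      b0, b1, b2, b3, Derivation.map_one_eq_zero]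
    simp [n5]
    field_simp

lemma d4 (c : Ch) : aeval (gen c) (pderiv 4 (FF c.2.1 c.2.2)) =
    2 * gen c 4 + (if c.2.1 then gen c 2 else 1) * (if c.2.2 then 1 else gen c 3) := by
  obtain ⟨k, j, i⟩ := c
  have e0 : pderiv (4 : Fin 5) (X 0 : MvPolynomial (Fin 5) ℂ) = 0 := pderiv_X_of_ne (by decide)
  have e1 : pderiv (4 : Fin 5) (X 1 : MvPolynomial (Fin 5) ℂ) = 0 := pderiv_X_of_ne (by decide)
  have e2 : pderiv (4 : Fin 5) (X 2 : MvPolynomial (Fin 5) ℂ) = 0 := pderiv_X_of_ne (by decide)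
  have e3 : pderiv (4 : Fin 5) (X 3 : MvPolynomial (Fin 5) ℂ) = 0 := pderiv_X_of_ne (by decide)
  have e4 : pderiv (4 : Fin 5) (X 4 : MvPolynomial (Fin 5) ℂ) = 1 := pderiv_X_self 4
  cases j <;> cases i <;>
  · simp only [FF, if_true, if_false, Bool.false_eq_true, map_add, map_sub, Derivation.leibniz,
      Derivation.leibniz_pow, e0, e1, e2, e3, e4, smul_eq_mul, nsmul_eq_mul, mul_zero, zero_add,
      add_zero, mul_one, one_mul, Derivation.map_one_eq_zero, sub_zero, smul_zero, map_mul,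
      aeval_X, map_pow]
    norm_num

theorem t_JAC' (hREL : S_REL) : S_JAC := by
  intro c
  obtain ⟨k, j, i⟩ := c
  obtain ⟨hw, hw3, hw2, h03, h13, h02, h12, hP⟩ := kfacts hREL k
  have h4 := four hREL ((-1) ^ (k : ℕ)) (W k) _ _ hw h03 h13 h02 h12 hw3 hw2 hP j i
  set c : Ch := (k, j, i) with hc
  have ht : (fun n : Fin 4 => gen c ((4 : Fin 5).succAbove n)) =
      ![W (k.succAbove 0) / W k, W (k.succAbove 1) / W k,
        if j then ct / W k ^ 2 else W k ^ 2 / ct, if i then cs / W k else W k / cs] := by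
    funext n
    fin_cases n <;> rfl
  have hs : sig c = W k * (if j then W k ^ 2 else ct) * (if i then W k else cs) := rfl
  have hv : gen c 4 = cu * W k / ((if j then W k ^ 2 else ct) * (if i then W k else cs)) := rfl
  have hg2 : gen c 2 = if j then ct / W k ^ 2 else W k ^ 2 / ct := rfl
  have hg3 : gen c 3 = if i then cs / W k else W k / cs := rfl
  have hd4 : aeval (gen c) (pderiv 4 (FF c.2.1 c.2.2)) =
      2 * (cu * W k / ((if j then W k ^ 2 else ct) * (if i then W k else cs))) +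
        (if j then ct / W k ^ 2 else 1) * (if i then 1 else W k / cs) := by
    rw [d4, hv, hg2, hg3]
    cases j <;> cases i <;> simp [hc]
  rw [← hs, ← ht, ← hd4] at h4
  have hne : aeval (gen c) (pderiv 4 (FF c.2.1 c.2.2)) ≠ 0 := by
    rw [hd4]
    have hN' := hN hREL
    obtain ⟨n1, n2, n3, n4, n5, n6, n7, -⟩ := hREL
    intro h0
    apply hN'
    cases j <;> cases i <;> simp only [if_true, if_false, Bool.false_eq_true] at h0 <;>
      field_simp at h0 <;> first | exact h0 | linear_combination h0 | skip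
    all_goals (rw [mul_zero] at h0; exact (mul_eq_zero.1 h0).resolve_left hw)
  have hrel : ∀ j' : Fin 4, ∑ m, aeval (gen c) (pderiv m (FF c.2.1 c.2.2)) *
      frame j' (gen c m) = 0 := by
    intro j'
    rw [← chain, hREL.2.2.2.2.2.2.2.2.1 c, map_zero]
  let ε : ℤ := (-1) ^ (k : ℕ) * (if j then 1 else -1) * (if i then 1 else -1)
  have hεK : (ε : K4) = (-1) ^ (k : ℕ) * (if j then 1 else -1) * (if i then 1 else -1) := by
    simp only [ε]
    push_cast
    cases j <;> cases i <;> simp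
  refine ⟨ε, ?_, ?_⟩
  · have h1 : ((-1 : ℤ) ^ (k : ℕ) = 1 ∨ (-1 : ℤ) ^ (k : ℕ) = -1) := neg_one_pow_eq_or ℤ _
    rcases h1 with h1 | h1 <;> cases j <;> cases i <;> simp [ε, h1]
  · intro m
    have h5 := cramer (fun m j' => frame j' (gen c m))
      (fun m => aeval (gen c) (pderiv m (FF c.2.1 c.2.2))) hrel m 4
    have e1 : ∀ m : Fin 5, (Matrix.of fun i' j' => frame j' (gen c (m.succAbove i'))).det =
        tjac (fun n : Fin 4 => gen c (m.succAbove n)) := fun m => rfl
    simp only [e1] at h5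
    have h6 : (-1 : K4) ^ ((4 : Fin 5) : ℕ) = 1 := by
      have : ((4 : Fin 5) : ℕ) = 4 := rfl
      rw [this]; norm_num
    rw [h6, one_mul] at h5
    rw [← hεK] at h4
    have h7 : ((-1 : K4) ^ (m : ℕ)) * ((-1 : K4) ^ (m : ℕ)) = 1 := by
      rw [← mul_pow]; simp
    apply mul_left_cancel₀ hne
    push_cast
    set Δ := tjac (fun n : Fin 4 => gen c (m.succAbove n))
    set Δ4 := tjac (fun n : Fin 4 => gen c ((4 : Fin 5).succAbove n))
    set D := aeval (gen c) (pderiv m (FF c.2.1 c.2.2))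
    set D4 := aeval (gen c) (pderiv 4 (FF c.2.1 c.2.2))
    calc D4 * (kap * sig c * Δ)
        = (kap * sig c) * (-1) ^ (m : ℕ) * (D4 * ((-1) ^ (m : ℕ) * Δ)) := by
          linear_combination (-(D4 * kap * sig c * Δ)) * h7
      _ = (kap * sig c) * (-1) ^ (m : ℕ) * (D * Δ4) := by rw [h5]
      _ = D * (-1) ^ (m : ℕ) * (kap * sig c * Δ4) := by ring
      _ = _ := by rw [h4]; ring

end JAC

theorem t_JAC (hREL : S_REL) : S_JAC := JAC.t_JAC' hREL

end FB
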