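import Mathlib
import Pool.Agent.T2h12.FB.PrimeAux

set_option autoImplicit false

namespace FB

open FanoFib FanoFib.Tor MvPolynomial PrimeAux

theorem t_PRP (hREL : S_REL) (hKER : S_KER) : S_PRP := by
  intro k j
  rw [← Ideal.span_singleton_prime (gen_ne hREL (k, j, false) 3 (by decide))]
  obtain ⟨r, hr⟩ : ∃ r : MvPolynomial (Fin 5) ℂ, FF j false = X 4 ^ 2 - X 2 + X 3 * r := by
    cases j
    · exact ⟨X 4 + (1 + X 0 ^ 4 + X 1 ^ 4) * X 2 ^ 2 * X 3, by simp [FF]; ring⟩
    · exact ⟨X 2 * X 4 + (1 + X 0 ^ 4 + X 1 ^ 4) * X 3, by simp [FF]; ring⟩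
  have hI : (Ideal.span {X 3, X 4 ^ 2 - X 2} : Ideal (MvPolynomial (Fin 5) ℂ)).IsPrime := by
    apply ker_endo ![X 0, X 1, X 4 ^ 2, 0, X 4]
    · intro m
      fin_cases m
      · simp
      · simp
      · have : (X 2 - X 4 ^ 2 : MvPolynomial (Fin 5) ℂ) = -(X 4 ^ 2 - X 2) := by ring
        simp only [Matrix.cons_val]
        show (X 2 - X 4 ^ 2 : MvPolynomial (Fin 5) ℂ) ∈ _
        rw [this]
        exact neg_mem (Ideal.subset_span (by simp))
      · simp only [Matrix.cons_val, sub_zero]
        exact Ideal.subset_span (by simp)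
      · simp
    · intro q hq
      rw [← RingHom.mem_ker] 
      revert q
      show _ ≤ RingHom.ker _
      rw [Ideal.span_le]
      rintro x (rfl | rfl)
      · simp [RingHom.mem_ker]
      · simp [RingHom.mem_ker]
  have hF : FF (k, j, false).2.1 (k, j, false).2.2 ∈
      (Ideal.span {X 3, X 4 ^ 2 - X 2} : Ideal (MvPolynomial (Fin 5) ℂ)) := by
    show FF j false ∈ _
    rw [hr]
    exact add_mem (Ideal.subset_span (by simp)) (Ideal.mul_mem_right _ _ (Ideal.subset_span (by simp)))
  have h := map_prime hKER (k, j, false) _ hI hF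
  have h2 : Ideal.span {gA (k, j, false) 3} =
      Ideal.map (ev (k, j, false)) (Ideal.span {X 3, X 4 ^ 2 - X 2}) := by
    rw [Ideal.map_span]
    apply le_antisymm
    · rw [Ideal.span_le]
      rintro x rfl
      apply Ideal.subset_span
      exact ⟨X 3, by simp, ev_X _ _⟩
    · rw [Ideal.span_le]
      rintro x ⟨y, (rfl | rfl), rfl⟩
      · rw [ev_X]
        exact Ideal.mem_span_singleton_self _
      · have h3 : ev (k, j, false) (FF j false) = 0 := by
          have : FF j false ∈ RingHom.ker (ev (k, j, false)) := by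
            rw [ev_ker hKER]; exact Ideal.mem_span_singleton_self _
          exact this
        rw [hr, map_add, map_mul, ev_X] at h3
        have h4 : ev (k, j, false) (X 4 ^ 2 - X 2) = gA (k, j, false) 3 * -(ev (k, j, false) r) := by
          linear_combination h3
        rw [SetLike.mem_coe, h4]
        exact Ideal.mul_mem_right _ _ (Ideal.mem_span_singleton_self _)
  rw [h2]
  exact h

end FB
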