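import Mathlib
import Pool.Agent.T2h12.FB.Stm

namespace FB

open FanoFib FanoFib.Tor MvPolynomial

namespace REL

lemma am_ne (v : Fin 4 → ℂ) {p : MvPolynomial (Fin 4) ℂ} (h : eval v p ≠ 0) :
    algebraMap (MvPolynomial (Fin 4) ℂ) K4 p ≠ 0 := by
  rw [Ne, FaithfulSMul.algebraMap_eq_zero_iff]
  rintro rfl
  simp at h

lemma cu_sub_ne : cu - cs ^ 2 ≠ 0 := by
  have := am_ne ![0, 0, 0, 1] (p := X 3 - X 2 ^ 2) (by simp)
  simpa [cu, cs, xx, map_sub, map_pow] using this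

lemma hh_ne : hh ≠ 0 := by
  have := am_ne ![0, 0, 0, 0] (p := 1 + X 0 ^ 4 + X 1 ^ 4) (by simp)
  simpa [hh, ca, cb, xx, map_add, map_pow] using this

lemma num_ne : cu ^ 2 + hh ≠ 0 := by
  have := am_ne ![0, 0, 0, 0] (p := X 3 ^ 2 + (1 + X 0 ^ 4 + X 1 ^ 4)) (by simp)
  simpa [hh, ca, cb, cu, xx, map_add, map_pow] using this

lemma ct_ne : ct ≠ 0 := by
  unfold ct
  exact div_ne_zero (neg_ne_zero.2 num_ne) cu_sub_ne

lemma ca_ne : ca ≠ 0 := xx_ne_zero _
lemma cb_ne : cb ≠ 0 := xx_ne_zero _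
lemma cs_ne : cs ≠ 0 := xx_ne_zero _
lemma cu_ne : cu ≠ 0 := xx_ne_zero _

lemma rel : cu ^ 2 + ct * cu + hh - ct * cs ^ 2 = 0 := by
  have h : ct * (cu - cs ^ 2) = -(cu ^ 2 + hh) := by
    unfold ct
    rw [div_mul_cancel₀ _ cu_sub_ne]
  linear_combination h

lemma W_ne (k : Fin 3) : W k ≠ 0 := by
  fin_cases k
  · exact one_ne_zero
  · exact ca_ne
  · exact cb_ne

/-- `1 + X0^4 + X1^4` at the coordinates of a chart. -/
lemma hW (k : Fin 3) :
    1 + (W (k.succAbove 0) / W k) ^ 4 + (W (k.succAbove 1) / W k) ^ 4 = hh / W k ^ 4 := by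
  have hk := W_ne k
  rw [eq_div_iff (pow_ne_zero 4 hk), div_pow, div_pow, add_mul, add_mul,
    div_mul_cancel₀ _ (pow_ne_zero 4 hk), div_mul_cancel₀ _ (pow_ne_zero 4 hk), one_mul]
  fin_cases k
  · simp [W, hh, Fin.succAbove]
  · simp [W, hh, Fin.succAbove]
    ring
  · simp [W, hh, Fin.succAbove]
    ring

lemma ff (c : Ch) : aeval (gen c) (FF c.2.1 c.2.2) = 0 := by
  obtain ⟨k, j, i⟩ := c
  have hk := W_ne k
  have h1 := ct_ne
  have h2 := cs_ne
  have hr := rel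
  have hw := hW k
  rcases j with _ | _ <;> rcases i with _ | _ <;>
    simp only [FF, gen, vv, eta, zeta, map_add, map_sub, map_mul, map_pow, map_one, aeval_X,
      Matrix.cons_val, if_true, if_false, Bool.false_eq_true] <;>
    simp only [hw] <;> field_simp <;>
    first | linear_combination hr | linear_combination W k ^ 2 * hr

end REL

theorem t_REL : S_REL := by
  refine ⟨REL.cu_sub_ne, REL.hh_ne, REL.ct_ne, REL.ca_ne, REL.cb_ne, REL.cs_ne, REL.cu_ne,
    REL.rel, REL.ff, fun c => ?_⟩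
  have h := REL.ff c
  have e0 : g4 c 0 = gen c 0 := rfl
  have e1 : g4 c 1 = gen c 1 := rfl
  have e2 : g4 c 2 = gen c 2 := rfl
  have e3 : g4 c 3 = gen c 3 := rfl
  have e4 : vv c = gen c 4 := rfl
  rw [e4]
  revert h
  generalize c.2.1 = j
  generalize c.2.2 = i
  intro h
  rw [← h]
  rcases j with _ | _ <;> rcases i with _ | _ <;>
    simp only [FF, BB, CC, map_add, map_sub, map_mul, map_pow, map_one, aeval_X, e0, e1, e2, e3,
      if_true, if_false, Bool.false_eq_true] <;> ring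

end FB
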