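import Pool.Agent.T2h12.FB.T_UFD

/-!
Task UNT of project FB: the theorem `FB.t_UNT` is proved in `T_UFD.lean`.
-/
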