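import Pool.Agent.T2h12.FB.Stm

/-!
# Project FB: facts on discrete valuations
-/

set_option autoImplicit false

namespace FB

open FanoFib

namespace Val

variable {K : Type} [Field K]

theorem exists_int (v : AddValuation K (WithTop ℤ)) {f : K} (hf : f ≠ 0) :
    ∃ n : ℤ, v f = (n : WithTop ℤ) := by
  have h : v f ≠ ⊤ := by
    intro h
    have h1 : v (f * f⁻¹) = v f + v f⁻¹ := v.map_mul _ _
    rw [mul_inv_cancel₀ hf, v.map_one, h, top_add] at h1
    exact absurd h1 (by simp)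
  exact ⟨(v f).untop h, (WithTop.coe_untop _ h).symm⟩

/-- the valuation ring -/
def vr (v : AddValuation K (WithTop ℤ)) : ValuationSubring K where
  carrier := {x | 0 ≤ v x}
  zero_mem' := by
    show 0 ≤ v 0
    rw [v.map_zero]
    exact le_top
  one_mem' := by
    show 0 ≤ v 1
    rw [v.map_one]
  add_mem' := by
    intro a b ha hb
    exact (le_min ha hb).trans (v.map_add a b)
  mul_mem' := by
    intro a b ha hb
    show 0 ≤ v (a * b)
    rw [v.map_mul]
    exact add_nonneg ha hb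
  neg_mem' := by
    intro a ha
    show 0 ≤ v (-a)
    rw [v.map_neg]
    exact ha
  mem_or_inv_mem' := by
    intro x
    show 0 ≤ v x ∨ 0 ≤ v x⁻¹
    rcases eq_or_ne x 0 with rfl | hx
    · left
      rw [v.map_zero]
      exact le_top
    obtain ⟨n, hn⟩ := exists_int v hx
    obtain ⟨m, hm⟩ := exists_int v (inv_ne_zero hx)
    have h1 : v (x * x⁻¹) = v x + v x⁻¹ := v.map_mul _ _
    rw [mul_inv_cancel₀ hx, v.map_one, hn, hm] at h1
    have h2 : (0 : ℤ) = n + m := by exact_mod_cast h1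
    rw [hn, hm]
    have h3 : (0 : ℤ) ≤ n ∨ (0 : ℤ) ≤ m := by omega
    exact_mod_cast h3

theorem mem_vr (v : AddValuation K (WithTop ℤ)) (x : K) : x ∈ vr v ↔ 0 ≤ v x := Iff.rfl

theorem ne_zero {v : AddValuation K (WithTop ℤ)} {x : K} {n : ℤ} (h : v x = n) : x ≠ 0 := by
  rintro rfl
  rw [v.map_zero] at h
  exact WithTop.coe_ne_top h.symm

theorem ne_zero' {v : AddValuation K (WithTop ℤ)} {x : K} (h : v x = 0) : x ≠ 0 :=
  ne_zero (n := 0) h

theorem inv_eq {v : AddValuation K (WithTop ℤ)} {x : K} {n : ℤ} (h : v x = n) :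
    v x⁻¹ = ((-n : ℤ) : WithTop ℤ) := by
  have hx := ne_zero h
  obtain ⟨m, hm⟩ := exists_int v (inv_ne_zero hx)
  have h1 : v (x * x⁻¹) = v x + v x⁻¹ := v.map_mul _ _
  rw [mul_inv_cancel₀ hx, v.map_one, h, hm] at h1
  have h2 : (0 : ℤ) = n + m := by exact_mod_cast h1
  rw [hm]
  congr 1
  omega

theorem mul_eq {v : AddValuation K (WithTop ℤ)} {x y : K} {n m : ℤ} (h : v x = n) (h' : v y = m) :
    v (x * y) = ((n + m : ℤ) : WithTop ℤ) := by
  rw [v.map_mul, h, h']
  rfl

theorem div_eq {v : AddValuation K (WithTop ℤ)} {x y : K} {n m : ℤ} (h : v x = n) (h' : v y = m) :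
    v (x / y) = ((n - m : ℤ) : WithTop ℤ) := by
  rw [div_eq_mul_inv, mul_eq h (inv_eq h')]
  congr 1

theorem pow_eq {v : AddValuation K (WithTop ℤ)} {x : K} {n : ℤ} (h : v x = n) (k : ℕ) :
    v (x ^ k) = ((k * n : ℤ) : WithTop ℤ) := by
  induction k with
  | zero =>
    rw [pow_zero, v.map_one]
    simp
  | succ k ih =>
    rw [pow_succ, mul_eq ih h]
    congr 1
    push_cast
    ring

theorem zpow_eq {v : AddValuation K (WithTop ℤ)} {x : K} {n : ℤ} (h : v x = n) (k : ℤ) :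
    v (x ^ k) = ((k * n : ℤ) : WithTop ℤ) := by
  cases k with
  | ofNat k =>
    rw [Int.ofNat_eq_natCast, zpow_natCast]
    exact pow_eq h k
  | negSucc k =>
    rw [zpow_negSucc, inv_eq (pow_eq h (k + 1))]
    congr 1
    rw [Int.negSucc_eq]
    push_cast
    ring

theorem div_nonneg' {v : AddValuation K (WithTop ℤ)} {x y : K} (h : 0 ≤ v x) (h' : v y = 0) :
    0 ≤ v (x / y) := by
  rcases eq_or_ne x 0 with rfl | hx
  · rw [zero_div, v.map_zero]
    exact le_top
  obtain ⟨n, hn⟩ := exists_int v hx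
  rw [div_eq hn (m := 0) h']
  rw [hn] at h
  have h2 : (0 : ℤ) ≤ n := by exact_mod_cast h
  exact_mod_cast (by omega : (0 : ℤ) ≤ n - 0)

end Val

end FB
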